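import Pool.Agent.Helper64.NC.NoThree
import Pool.Agent.Helper64.NC.St.Cut

/-! Automorphisms of plane cubic maps: definitions, potentials of Hamilton circuits. -/

namespace Pool.H19.SYM

open Pool.H64.NC Equiv

variable {D : Type*}

theorem ais (g : Perm D) (x : D) : g (g⁻¹ x) = x := g.apply_symm_apply x

/-- the orientation-preserving automorphisms of a cubic map -/
def Rot (M : CubicMap D) : Subgroup (Perm D) where
  carrier := {g | (∀ x, g (M.α x) = M.α (g x)) ∧ ∀ x, g (M.σ x) = M.σ (g x)}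
  mul_mem' := by
    rintro g h ⟨g1, g2⟩ ⟨h1, h2⟩
    exact ⟨fun x => by simp only [Perm.mul_apply, h1, g1],
      fun x => by simp only [Perm.mul_apply, h2, g2]⟩
  one_mem' := ⟨fun _ => rfl, fun _ => rfl⟩
  inv_mem' := by
    rintro g ⟨g1, g2⟩
    refine ⟨fun x => ?_, fun x => ?_⟩
    · rw [Perm.inv_eq_iff_eq, g1, ais]
    · rw [Perm.inv_eq_iff_eq, g2, ais]

/-- the automorphisms of a cubic map: permutations of the darts that respect the edges and either
respect or reverse the rotations around all vertices -/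
def Sym (M : CubicMap D) : Subgroup (Perm D) where
  carrier := {g | (∀ x, g (M.α x) = M.α (g x)) ∧
    ((∀ x, g (M.σ x) = M.σ (g x)) ∨ ∀ x, g (M.σ x) = M.σ (M.σ (g x)))}
  mul_mem' := by
    rintro g h ⟨g1, g2⟩ ⟨h1, h2⟩
    refine ⟨fun x => by simp only [Perm.mul_apply, h1, g1], ?_⟩
    rcases g2 with g2 | g2 <;> rcases h2 with h2 | h2
    · left; intro x; simp only [Perm.mul_apply, h2, g2]
    · right; intro x; simp only [Perm.mul_apply, h2, g2]
    · right; intro x; simp only [Perm.mul_apply, h2, g2]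
    · left; intro x; simp only [Perm.mul_apply, h2, g2, M.σ3]
  one_mem' := ⟨fun _ => rfl, Or.inl fun _ => rfl⟩
  inv_mem' := by
    rintro g ⟨g1, g2⟩
    refine ⟨fun x => ?_, ?_⟩
    · rw [Perm.inv_eq_iff_eq, g1, ais]
    · rcases g2 with g2 | g2
      · left; intro x
        rw [Perm.inv_eq_iff_eq, g2, ais]
      · right; intro x
        rw [Perm.inv_eq_iff_eq, g2, g2, ais, M.σ3]

theorem mem_Rot {M : CubicMap D} {g : Perm D} :
    g ∈ Rot M ↔ (∀ x, g (M.α x) = M.α (g x)) ∧ ∀ x, g (M.σ x) = M.σ (g x) := Iff.rfl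

theorem mem_Sym {M : CubicMap D} {g : Perm D} :
    g ∈ Sym M ↔ (∀ x, g (M.α x) = M.α (g x)) ∧
    ((∀ x, g (M.σ x) = M.σ (g x)) ∨ ∀ x, g (M.σ x) = M.σ (M.σ (g x))) := Iff.rfl

variable {M : CubicMap D}

theorem cst [Fintype D] (hM : M.Genus0) {β : Type*} (F : D → β) (h1 : ∀ x, F (M.α x) = F x)
    (h2 : ∀ x, F (M.σ x) = F x) (x y : D) : F x = F y := by
  have h3 := hM.1 {d | F d = F y} ⟨y, rfl⟩ (fun d hd => by
    rw [Set.mem_ofPred_eq] at hd
    constructor
    · rw [Set.mem_ofPred_eq, h2, hd]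
    · rw [Set.mem_ofPred_eq, h1, hd])
  have h4 : x ∈ {d | F d = F y} := by rw [h3]; exact Set.mem_univ x
  exact h4

theorem nonempty [Fintype D] (hM : M.Genus0) : Nonempty D := by
  by_contra h
  rw [not_nonempty_iff] at h
  have h1 := hM.2
  have h2 : Fintype.card D = 0 := Fintype.card_eq_zero
  have h3 : ∀ π : Perm D, ncyc π = 0 := by
    intro π
    unfold ncyc
    have : IsEmpty (Quotient (Perm.SameCycle.setoid π)) :=
      ⟨fun q => by
        obtain ⟨x, -⟩ := Quotient.exists_rep q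
        exact h.elim x⟩
    exact Nat.card_of_isEmpty
  rw [h2, h3, h3] at h1
  omega

/-- an orientation-preserving automorphism with a fixed dart is the identity -/
theorem rot_one [Fintype D] (hM : M.Genus0) {g : Perm D} (hg : g ∈ Rot M) {x : D}
    (hx : g x = x) : g = 1 := by
  have h3 := hM.1 {d | g d = d} ⟨x, hx⟩ (fun d hd => by
    have hd' : g d = d := hd
    constructor
    · show g (M.σ d) = M.σ d
      rw [hg.2, hd']
    · show g (M.α d) = M.α d
      rw [hg.1, hd'])
  ext y
  have h4 : y ∈ {d | g d = d} := by rw [h3]; exact Set.mem_univ y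
  exact h4

/-- `f` is a potential of the circuit with unused darts `U`: constant on faces, and it changes
exactly at the used edges -/
structure Pot [DecidableEq D] (M : CubicMap D) (U : Finset D) (f : D → ZMod 2) : Prop where
  face : ∀ x, f (M.σ (M.α x)) = f x
  edge : ∀ x, f (M.α x) = f x + (if x ∈ U then 0 else 1)

variable [DecidableEq D]

theorem Pot.vert {U : Finset D} {f : D → ZMod 2} (h : Pot M U f) (x : D) :
    f (M.σ x) = f x + (if x ∈ U then 0 else 1) := by
  have := h.face (M.α x)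
  rw [M.α2] at this
  rw [this, h.edge]

theorem Pot.same {U : Finset D} {f : D → ZMod 2} (h : Pot M U f) {x y : D}
    (hxy : M.face.SameCycle x y) : f x = f y :=
  F1_same (fun d => h.face d) hxy

theorem exists_pot [Fintype D] (hM : M.Genus0) {U : Finset D} (hU : M.Clo U) :
    ∃ f, Pot M U f := by
  obtain ⟨f, f1, f2⟩ := CubicMap.homology hM (fun d => if d ∈ U then 0 else 1) (by
      intro d
      have := hU.1 d
      by_cases h : d ∈ U
      · simp [h, this.1 h]
      · have h' : M.α d ∉ U := fun h' => h (this.2 h')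
        simp [h, h']) (by
      intro d
      have h2 : (1 : ZMod 2) + 1 = 0 := by decide
      rcases hU.2 d with ⟨a, b, c⟩ | ⟨a, b, c⟩ | ⟨a, b, c⟩ <;> simp [a, b, c, h2])
  refine ⟨f, f1, fun x => ?_⟩
  have := f2 x
  have h3 : ∀ a b c : ZMod 2, c = a + b → b = a + c := by decide
  exact h3 _ _ _ this

/-- potentials and automorphisms -/
theorem transport [Fintype D] (hM : M.Genus0) {U U' : Finset D} {f f' : D → ZMod 2}
    (hf : Pot M U f) (hf' : Pot M U' f') {g : Perm D} (hg : g ∈ Rot M)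
    (hU : ∀ x, g x ∈ U' ↔ x ∈ U) : ∃ c, ∀ x, f' (g x) = f x + c := by
  obtain ⟨x0⟩ := nonempty hM
  have h4 : ∀ a b c : ZMod 2, (a + c) + (b + c) = a + b := by decide
  have key := cst hM (fun x => f' (g x) + f x) (by
    intro x
    show f' (g (M.α x)) + f (M.α x) = f' (g x) + f x
    rw [hg.1, hf'.edge, hf.edge, if_congr (hU x) rfl rfl, h4]) (by
    intro x
    show f' (g (M.σ x)) + f (M.σ x) = f' (g x) + f x
    rw [hg.2, hf'.vert, hf.vert, if_congr (hU x) rfl rfl, h4])
  refine ⟨f' (g x0) + f x0, fun x => ?_⟩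
  have h5 : ∀ a b c : ZMod 2, a + b = c → a = b + c := by decide
  exact h5 _ _ _ (key x x0)

/-! ### images of Hamilton circuits -/

theorem mem_im {g : Perm D} {U : Finset D} {x : D} : g x ∈ U.image g ↔ x ∈ U := by
  rw [Finset.mem_image]
  constructor
  · rintro ⟨y, hy, h⟩
    rwa [g.injective h] at hy
  · intro h
    exact ⟨x, h, rfl⟩

theorem clo_im {g : Perm D} (hg : g ∈ Rot M) {U : Finset D} (hU : M.Clo U) :
    M.Clo (U.image g) := by
  refine ⟨fun x => ?_, fun x => ?_⟩
  · obtain ⟨y, rfl⟩ := g.surjective x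
    rw [← hg.1, mem_im, mem_im]
    exact hU.1 y
  · obtain ⟨y, rfl⟩ := g.surjective x
    rw [← hg.2, ← hg.2, mem_im, mem_im, mem_im]
    exact hU.2 y

theorem sw_im {g : Perm D} (hg : g ∈ Rot M) {U : Finset D} (x : D) :
    sw M.σ (U.image g) (g x) = g (sw M.σ U x) := by
  unfold sw
  rw [← hg.2, ← hg.2]
  simp only [mem_im]
  split_ifs <;> rfl

theorem ae_im {g : Perm D} (hg : g ∈ Rot M) {U : Finset D} (x : D) :
    ae M.α (U.image g) (g x) = g (ae M.α U x) := by
  unfold ae
  rw [← hg.1]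
  simp only [mem_im]
  split_ifs <;> rfl

theorem ham_im {g : Perm D} (hg : g ∈ Rot M) {U : Finset D} (hU : M.Ham U) :
    M.Ham (U.image g) := by
  refine ⟨clo_im hg hU.1, fun x y hx hy => ?_⟩
  obtain ⟨x, rfl⟩ := g.surjective x
  obtain ⟨y, rfl⟩ := g.surjective y
  rw [mem_im] at hx hy
  have h := hU.2 x y hx hy
  clear hx hy
  induction h with
  | rel a b hab =>
    rcases hab with rfl | rfl
    · rw [← sw_im hg]; exact Conn.ms _
    · rw [← ae_im hg]; exact Conn.ma _
  | refl a => exact Conn.refl _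
  | symm a b _ ih => exact ih.symm
  | trans a b c _ _ ih1 ih2 => exact ih1.trans ih2

end Pool.H19.SYM
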