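import Pool.Agent.Helper19.SYM.Group

/-! The orders of the groups. -/

set_option linter.unusedSectionVars false

namespace Pool.H19.SYM

open Pool.H64.NC Equiv

variable {D : Type*} [DecidableEq D] [Fintype D] {M : CubicMap D}
variable {U : Fin 3 → Finset D} {f : Fin 3 → D → ZMod 2} {R : Subgroup (Perm D)}

/-- the kernel of the action fixes the circuits -/
theorem ker_mv (hK : Kz M U f) (hR : Permutes U R) (g : (act hK hR).ker) (i : Fin 3) :
    Mv U g.1.1 i i := by
  have h := act_mv hK hR g.1 i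
  rw [(MonoidHom.mem_ker).1 g.2] at h
  exact h

/-- shift of the potential `i` by an element of the kernel -/
def shv (f : Fin 3 → D → ZMod 2) (x0 : D) (i : Fin 3) (g : Perm D) : ZMod 2 :=
  f i (g x0) + f i x0

theorem shv_spec (hK : Kz M U f) (hR : Permutes U R) (hRot : R ≤ Rot M) (x0 : D)
    (g : (act hK hR).ker) (i : Fin 3) (x : D) : f i (g.1.1 x) = f i x + shv f x0 i g.1.1 := by
  obtain ⟨c, hc⟩ := hK.shift (hRot g.1.2) (ker_mv hK hR g i)
  unfold shv
  rw [hc, hc]
  have h : ∀ a b c : ZMod 2, a + c = a + (b + c + b) := by decide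
  exact h _ _ _

theorem shv_mul (hK : Kz M U f) (hR : Permutes U R) (hRot : R ≤ Rot M) (x0 : D) (i : Fin 3)
    (g h : (act hK hR).ker) :
    shv f x0 i (g * h).1.1 = shv f x0 i g.1.1 + shv f x0 i h.1.1 := by
  have h1 := shv_spec hK hR hRot x0 g i (h.1.1 x0)
  have h2 : shv f x0 i (g * h).1.1 = f i (g.1.1 (h.1.1 x0)) + f i x0 := rfl
  rw [h2, h1]
  unfold shv
  ring

theorem shv_sum (hK : Kz M U f) (x0 : D) (g : Perm D) :
    shv f x0 0 g + shv f x0 1 g + shv f x0 2 g = 0 := by
  have h1 := hK.sum (g x0) x0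
  unfold shv
  have h2 : ∀ a b c a' b' c' : ZMod 2, a + b + c = a' + b' + c' →
      a + a' + (b + b') + (c + c') = 0 := by decide
  exact h2 _ _ _ _ _ _ h1

/-- the shift of `i`, as a homomorphism -/
noncomputable def shHom (hK : Kz M U f) (hR : Permutes U R) (hRot : R ≤ Rot M) (x0 : D) (i : Fin 3) :
    (act hK hR).ker →* Multiplicative (ZMod 2) :=
  MonoidHom.mk' (fun g => Multiplicative.ofAdd (shv f x0 i g.1.1))
    (fun g h => by rw [shv_mul hK hR hRot, ofAdd_add])

theorem ker_rigid (hK : Kz M U f) (hR : Permutes U R) (hRot : R ≤ Rot M) (x0 : D)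
    (g : (act hK hR).ker) (h : ∀ i, shv f x0 i g.1.1 = 0) : g = 1 := by
  refine Subtype.ext (Subtype.ext (hK.rigid (hRot g.1.2) (ker_mv hK hR g) fun i x => ?_))
  rw [shv_spec hK hR hRot x0, h, add_zero]

theorem card_ker (hK : Kz M U f) (hR : Permutes U R) (hRot : R ≤ Rot M) :
    Nat.card (act hK hR).ker ∣ 4 := by
  obtain ⟨x0⟩ := nonempty hK.genus
  have h1 : Function.Injective ((shHom hK hR hRot x0 0).prod (shHom hK hR hRot x0 1)) := by
    rw [injective_iff_map_eq_one]
    intro g hg
    have h2 : shv f x0 0 g.1.1 = 0 := congrArg (fun z => Multiplicative.toAdd z.1) hg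
    have h3 : shv f x0 1 g.1.1 = 0 := congrArg (fun z => Multiplicative.toAdd z.2) hg
    have h4 := shv_sum hK x0 g.1.1
    rw [h2, h3, zero_add, zero_add] at h4
    refine ker_rigid hK hR hRot x0 g fun i => ?_
    fin_cases i
    · exact h2
    · exact h3
    · exact h4
  have h2 := Subgroup.card_dvd_of_injective _ h1
  have h3 : Nat.card (Multiplicative (ZMod 2) × Multiplicative (ZMod 2)) = 4 := by
    rw [Nat.card_prod]
    have : Nat.card (Multiplicative (ZMod 2)) = 2 := by
      rw [Nat.card_congr Multiplicative.toAdd, Nat.card_zmod]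
    rw [this]
  rwa [h3] at h2

theorem card_ker_two (hK : Kz M U f) (hR : Permutes U R) (hRot : R ≤ Rot M)
    (h : 2 ∣ Nat.card (act hK hR).range) : Nat.card (act hK hR).ker ∣ 2 := by
  obtain ⟨x0⟩ := nonempty hK.genus
  obtain ⟨y, hy⟩ := exists_prime_orderOf_dvd_card' (G := (act hK hR).range) 2 h
  obtain ⟨t, ht⟩ := y.2
  have hy2 : y.1 ^ 2 = 1 := by
    have h1 := pow_orderOf_eq_one y
    rw [hy] at h1
    exact congrArg Subtype.val h1
  have hy1 : y.1 ≠ 1 := by
    intro h1
    have h2 : y = 1 := Subtype.ext h1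
    rw [h2, orderOf_one] at hy
    omega
  have ht2 : act hK hR t ^ 2 = 1 := by rw [ht]; exact hy2
  have htt : t ^ 2 = 1 := sq_of_act hK hR hRot t ht2
  obtain ⟨i, hi⟩ : ∃ i, act hK hR t i ≠ i := by
    by_contra hcon
    push Not at hcon
    apply hy1
    rw [← ht]
    exact Equiv.ext hcon
  -- `t` commutes with the kernel
  have hcomm : ∀ g : (act hK hR).ker, g.1 * t = t * g.1 := by
    intro g
    have hg1 : act hK hR g.1 = 1 := (MonoidHom.mem_ker).1 g.2
    have h1 : (t * g.1) ^ 2 = 1 := by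
      apply sq_of_act hK hR hRot
      rw [map_mul, hg1, mul_one, ht2]
    have h2 : g.1 ^ 2 = 1 := by
      apply sq_of_act hK hR hRot
      rw [hg1, one_pow]
    have a1 : (t * g.1)⁻¹ = t * g.1 := inv_eq_of_mul_eq_one_right (by rw [← sq]; exact h1)
    have a2 : g.1⁻¹ = g.1 := inv_eq_of_mul_eq_one_right (by rw [← sq]; exact h2)
    have a3 : t⁻¹ = t := inv_eq_of_mul_eq_one_right (by rw [← sq]; exact htt)
    rw [mul_inv_rev, a2, a3] at a1
    exact a1
  have hinv : ∀ g : (act hK hR).ker,
      shv f x0 (act hK hR t i) g.1.1 = shv f x0 i g.1.1 := by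
    intro g
    obtain ⟨c, hc⟩ := hK.shift (hRot t.2) (act_mv hK hR t i)
    have h1 := shv_spec hK hR hRot x0 g (act hK hR t i) (t.1 x0)
    have h2 : g.1.1 (t.1 x0) = t.1 (g.1.1 x0) := by
      have := congrArg (fun z : R => z.1 x0) (hcomm g)
      exact this
    rw [h2, hc, hc, shv_spec hK hR hRot x0] at h1
    have h3 : ∀ a b c d : ZMod 2, a + b + c = a + c + d → d = b := by decide
    exact h3 _ _ _ _ h1
  have hinj : Function.Injective (shHom hK hR hRot x0 i) := by
    rw [injective_iff_map_eq_one]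
    intro g hg
    have h2 : shv f x0 i g.1.1 = 0 := congrArg (fun z => Multiplicative.toAdd z) hg
    have h3 : shv f x0 (act hK hR t i) g.1.1 = 0 := by rw [hinv, h2]
    have h4 := shv_sum hK x0 g.1.1
    refine ker_rigid hK hR hRot x0 g ?_
    have key : ∀ (e : Fin 3 → ZMod 2) (i j : Fin 3), j ≠ i → e i = 0 → e j = 0 →
        e 0 + e 1 + e 2 = 0 → ∀ k, e k = 0 := by decide
    exact key (fun k => shv f x0 k g.1.1) i _ hi h2 h3 h4
  have h2 := Subgroup.card_dvd_of_injective _ hinj
  have h3 : Nat.card (Multiplicative (ZMod 2)) = 2 := by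
    rw [Nat.card_congr Multiplicative.toAdd, Nat.card_zmod]
  rwa [h3] at h2

/-- the group of the rotations has order dividing 12 -/
theorem card_rot (hK : Kz M U f) (hR : Permutes U R) (hRot : R ≤ Rot M) :
    Nat.card R ∣ 12 := by
  have h1 := (act hK hR).ker.card_mul_index
  rw [Subgroup.index_ker] at h1
  have h2 := card_ker hK hR hRot
  have h3 : Nat.card (act hK hR).range ∣ 6 := by
    have h4 := Subgroup.card_subgroup_dvd_card (act hK hR).range
    have h5 : Nat.card (Perm (Fin 3)) = 6 := by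
      rw [Nat.card_eq_fintype_card, Fintype.card_perm, Fintype.card_fin]
      rfl
    rwa [h5] at h4
  have h4 := card_ker_two hK hR hRot
  rw [← h1]
  generalize Nat.card (act hK hR).ker = a at *
  generalize Nat.card (act hK hR).range = b at *
  by_cases hb : 2 ∣ b
  · exact (Nat.mul_dvd_mul (h4 hb) h3)
  · have hb3 : b ∣ 3 := by
      have hc : Nat.Coprime b 2 := by
        rw [Nat.coprime_comm, Nat.Prime.coprime_iff_not_dvd Nat.prime_two]
        exact hb
      exact hc.dvd_of_dvd_mul_left (by simpa using h3)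
    exact Nat.mul_dvd_mul h2 hb3

/-- with the orientation-reversing automorphisms -/
theorem card_sym (S : Subgroup (Perm D)) (hS : S ≤ Sym M)
    (h : Nat.card (S ⊓ Rot M : Subgroup (Perm D)) ∣ 12) : Nat.card S ∣ 24 := by
  set H : Subgroup S := (Rot M).subgroupOf S with hH
  have hmem : ∀ g : S, g ∈ H ↔ g.1 ∈ Rot M := fun g => Subgroup.mem_subgroupOf
  have h1 : Nat.card H ∣ 12 := by
    refine dvd_trans ?_ h
    refine Subgroup.card_dvd_of_injective (MonoidHom.mk'
      (fun g : H => (⟨g.1.1, g.1.2, (hmem g.1).1 g.2⟩ : (S ⊓ Rot M : Subgroup (Perm D))))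
      (fun _ _ => rfl)) ?_
    intro g g' hgg
    have h5 : g.1.1 = g'.1.1 := congrArg (fun z : (S ⊓ Rot M : Subgroup (Perm D)) => z.1) hgg
    exact Subtype.ext (Subtype.ext h5)
  have h2 : H.index ∣ 2 := by
    by_cases hle : ∃ a : S, a ∉ H
    · obtain ⟨a, ha⟩ := hle
      have h3 : H.index = 2 := by
        rw [Subgroup.index_eq_two_iff]
        refine ⟨a, fun b => ?_⟩
        by_cases hb : b ∈ H
        · right
          refine ⟨hb, fun hba => ha ?_⟩
          have := H.mul_mem (H.inv_mem hb) hba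
          rwa [inv_mul_cancel_left] at this
        · left
          refine ⟨?_, hb⟩
          rw [hmem] at ha hb ⊢
          have hrev : ∀ c : S, c.1 ∉ Rot M → ∀ x, c.1 (M.σ x) = M.σ (M.σ (c.1 x)) := by
            intro c hc
            rcases (hS c.2).2 with h5 | h5
            · exact absurd ⟨(hS c.2).1, h5⟩ hc
            · exact h5
          refine ⟨fun x => ?_, fun x => ?_⟩
          · show b.1 (a.1 (M.α x)) = M.α (b.1 (a.1 x))
            rw [(hS a.2).1, (hS b.2).1]
          · show b.1 (a.1 (M.σ x)) = M.σ (b.1 (a.1 x))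
            rw [hrev a ha, hrev b hb, hrev b hb, M.σ3]
      rw [h3]
    · push Not at hle
      have h3 : H = ⊤ := (Subgroup.eq_top_iff' H).2 hle
      rw [h3, Subgroup.index_top]
      exact one_dvd _
  rw [← H.card_mul_index]
  exact Nat.mul_dvd_mul h1 h2

end Pool.H19.SYM
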