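import Pool.Agent.Helper19.SYM.Tree

/-! Fixed faces of automorphisms that preserve the sides of a Hamilton circuit. -/

set_option linter.unusedSectionVars false

namespace Pool.H19.SYM

open Pool.H64.NC Equiv

variable {D : Type*} [DecidableEq D] [Fintype D] {M : CubicMap D}

theorem rot_comm {g : Perm D} (hg : g ∈ Rot M) : Commute M.face g := by
  ext x
  rw [Perm.mul_apply, Perm.mul_apply, M.face_apply, M.face_apply, hg.2, hg.1]

theorem rot_same {g : Perm D} (hg : g ∈ Rot M) {x y : D} (h : M.face.SameCycle x y) :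
    M.face.SameCycle (g x) (g y) := by
  obtain ⟨n, rfl⟩ := h
  refine ⟨n, ?_⟩
  have h1 := ((rot_comm hg).zpow_left n).eq
  have h2 := congrArg (fun π : Perm D => π x) h1
  exact h2

theorem fa_rot {g : Perm D} (hg : g ∈ Rot M) {x y : D} :
    fa M (g x) = fa M (g y) ↔ fa M x = fa M y := by
  rw [fa_eq, fa_eq]
  constructor
  · intro h
    have h1 := rot_same ((Rot M).inv_mem hg) h
    simpa using h1
  · exact rot_same hg

/-- the action on the faces -/
def actQ {g : Perm D} (hg : g ∈ Rot M) : Fa M → Fa M := Quotient.map g fun _ _ h => rot_same hg h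

theorem actQ_fa {g : Perm D} (hg : g ∈ Rot M) (x : D) : actQ hg (fa M x) = fa M (g x) := rfl

section
variable {U : Finset D} {f : D → ZMod 2} {g : Perm D}

theorem pot_inv (hgf : ∀ x, f (g x) = f x) (x : D) : f (g⁻¹ x) = f x := by
  rw [← hgf (g⁻¹ x), ais]

/-- the action on the faces of a side -/
def actS (hg : g ∈ Rot M) (hgf : ∀ x, f (g x) = f x) (j : ZMod 2) : Perm (Sd M f j) where
  toFun P := ⟨actQ hg P.1, by
    obtain ⟨x, hx, hfx⟩ := P.2
    exact ⟨g x, by rw [← hx]; rfl, by rw [hgf, hfx]⟩⟩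
  invFun P := ⟨actQ ((Rot M).inv_mem hg) P.1, by
    obtain ⟨x, hx, hfx⟩ := P.2
    exact ⟨g⁻¹ x, by rw [← hx]; rfl, by rw [pot_inv hgf, hfx]⟩⟩
  left_inv := by
    rintro ⟨P, x, rfl, hx⟩
    refine Subtype.ext ?_
    show actQ ((Rot M).inv_mem hg) (actQ hg (fa M x)) = fa M x
    rw [actQ_fa, actQ_fa]
    simp
  right_inv := by
    rintro ⟨P, x, rfl, hx⟩
    refine Subtype.ext ?_
    show actQ hg (actQ ((Rot M).inv_mem hg) (fa M x)) = fa M x
    rw [actQ_fa, actQ_fa, ais]

theorem actS_fa (hg : g ∈ Rot M) (hgf : ∀ x, f (g x) = f x) (j : ZMod 2) {x : D}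
    (hx : fa M x ∈ Sd M f j) : (actS hg hgf j ⟨fa M x, hx⟩).1 = fa M (g x) := rfl

theorem actS_pow (hg : g ∈ Rot M) (hgf : ∀ x, f (g x) = f x) (j : ZMod 2) {x : D}
    (hx : fa M x ∈ Sd M f j) (k : ℕ) :
    ((actS hg hgf j ^ k) ⟨fa M x, hx⟩).1 = fa M ((g ^ k) x) := by
  induction k with
  | zero => rfl
  | succ k ih =>
    rw [pow_succ', Perm.mul_apply, pow_succ', Perm.mul_apply]
    show actQ hg ((actS hg hgf j ^ k) ⟨fa M x, hx⟩).1 = _
    rw [ih, actQ_fa]

theorem act_adj (hg : g ∈ Rot M) (hgU : ∀ x, g x ∈ U ↔ x ∈ U) (hgf : ∀ x, f (g x) = f x)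
    (j : ZMod 2) {P P' : Sd M f j} (h : (Gr M U f j).Adj P P') :
    (Gr M U f j).Adj (actS hg hgf j P) (actS hg hgf j P') := by
  obtain ⟨h1, x, hx, h2, h3⟩ := h
  refine ⟨fun h => h1 ((actS hg hgf j).injective h), g x, ⟨(hgU x).2 hx.1, ?_⟩, ?_, ?_⟩
  · rw [← hg.1]; exact (hgU _).2 hx.2
  · show fa M (g x) = actQ hg P.1
    rw [← h2, actQ_fa]
  · show fa M (M.α (g x)) = actQ hg P'.1
    rw [← h3, actQ_fa, hg.1]

theorem inv_U (hgU : ∀ x, g x ∈ U ↔ x ∈ U) (x : D) : g⁻¹ x ∈ U ↔ x ∈ U := by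
  rw [← hgU (g⁻¹ x), ais]

/-- the action on the graph -/
def actG (hg : g ∈ Rot M) (hgU : ∀ x, g x ∈ U ↔ x ∈ U) (hgf : ∀ x, f (g x) = f x)
    (j : ZMod 2) : Gr M U f j ≃g Gr M U f j where
  toEquiv := actS hg hgf j
  map_rel_iff' := by
    intro P P'
    constructor
    · intro h
      have h1 := act_adj ((Rot M).inv_mem hg) (inv_U hgU) (pot_inv hgf) j h
      have h2 : ∀ P : Sd M f j, actS ((Rot M).inv_mem hg) (pot_inv hgf) j (actS hg hgf j P) = P :=
        fun P => (actS hg hgf j).left_inv P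
      rwa [h2, h2] at h1
    · exact act_adj hg hgU hgf j

/-- fixed faces joined by an unused edge, or an unused edge fixed as an edge -/
theorem fixed_chord (hM : M.Genus0) (hU : M.Ham U) (hf : Pot M U f) (hg : g ∈ Rot M)
    (hgU : ∀ x, g x ∈ U ↔ x ∈ U) (hgf : ∀ x, f (g x) = f x) (h1 : g ≠ 1) {x : D} (hx : x ∈ U)
    (h2 : fa M (g x) = fa M x) (h3 : fa M (g (M.α x)) = fa M (M.α x)) : False := by
  have h4 := (side_tree hM hU hf (f x)).2.1 x hx (g x) ((hgU x).2 hx) rfl h2.symm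
    (by rw [← hg.1, h3])
  exact h1 (rot_one hM hg h4.symm)

/-- two fixed faces of a side are equal -/
theorem fixed_unique (hM : M.Genus0) (hU : M.Ham U) (hf : Pot M U f) (hg : g ∈ Rot M)
    (hgU : ∀ x, g x ∈ U ↔ x ∈ U) (hgf : ∀ x, f (g x) = f x) (h1 : g ≠ 1) {x y : D}
    (hxy : f x = f y) (hx : fa M (g x) = fa M x) (hy : fa M (g y) = fa M y) :
    fa M x = fa M y := by
  by_contra hne
  have hT := (side_tree hM hU hf (f y)).1
  set P : Sd M f (f y) := ⟨fa M x, (mem_Sd hf).2 hxy⟩ with hP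
  set P' : Sd M f (f y) := ⟨fa M y, (mem_Sd hf).2 rfl⟩ with hP'
  have hPP : P ≠ P' := fun h => hne (congrArg Subtype.val h)
  have fP : actG hg hgU hgf (f y) P = P := Subtype.ext hx
  have fP' : actG hg hgU hgf (f y) P' = P' := Subtype.ext hy
  obtain ⟨w, hw⟩ := (hT.connected P P').exists_isPath
  have hw2 : ((w.map (actG hg hgU hgf (f y)).toHom).copy fP fP').IsPath := by
    rw [SimpleGraph.Walk.isPath_copy]
    exact SimpleGraph.Walk.map_isPath_of_injective (actG hg hgU hgf (f y)).injective hw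
  have hu := congrArg Subtype.val (hT.isAcyclic.path_unique ⟨w, hw⟩ ⟨_, hw2⟩)
  have hl : 0 < w.length := by
    rw [Nat.pos_iff_ne_zero]
    intro h
    exact hPP (SimpleGraph.Walk.eq_of_length_eq_zero h)
  have hadj := w.adj_getVert_succ hl
  rw [SimpleGraph.Walk.getVert_zero] at hadj
  have hfix : actG hg hgU hgf (f y) (w.getVert 1) = w.getVert 1 := by
    have h2 := congrArg (fun v : (Gr M U f (f y)).Walk P P' => v.getVert 1) hu
    simp only [SimpleGraph.Walk.getVert_copy, SimpleGraph.Walk.getVert_map] at h2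
    exact h2.symm
  obtain ⟨-, z, hz, h3, h4⟩ := hadj
  refine fixed_chord hM hU hf hg hgU hgf h1 hz.1 ?_ ?_
  · rw [← actQ_fa hg, h3]
    exact hx
  · rw [← actQ_fa hg, h4]
    exact congrArg Subtype.val hfix

/-- a fixed face on each side -/
theorem fixed_exists (hM : M.Genus0) (hU : M.Ham U) (hf : Pot M U f) (hg : g ∈ Rot M)
    (hgU : ∀ x, g x ∈ U ↔ x ∈ U) (hgf : ∀ x, f (g x) = f x) (h1 : g ≠ 1) {p n : ℕ}
    [hp : Fact p.Prime] (hpn : g ^ p ^ n = 1) (hflip : ∀ x ∈ U, g x ≠ M.α x) (j : ZMod 2) :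
    ∃ x, f x = j ∧ fa M (g x) = fa M x := by
  classical
  by_contra hcon
  push Not at hcon
  have : Fintype (Sd M f j) := Fintype.ofFinite _
  have hT := (side_tree hM hU hf j).1
  have hcard := (SimpleGraph.isTree_iff_connected_and_card.1 hT).2
  -- vertices
  have hV : (actS hg hgf j) ^ p ^ n = 1 := by
    ext ⟨P, x, rfl, hx⟩
    rw [actS_pow, hpn]
    rfl
  have hV0 : (actS hg hgf j).supportᶜ = ∅ := by
    rw [Finset.eq_empty_iff_forall_notMem]
    rintro ⟨P, x, rfl, hx⟩ h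
    rw [Finset.mem_compl, Perm.mem_support, not_not] at h
    exact hcon x hx (congrArg Subtype.val h)
  have hV1 := Perm.card_compl_support_modEq hV
  rw [hV0, Finset.card_empty] at hV1
  -- edges
  set E : Perm (Gr M U f j).edgeSet := (actG hg hgU hgf j).mapEdgeSet with hE
  have hEk : ∀ (k : ℕ) (e : (Gr M U f j).edgeSet),
      ((E ^ k) e).1 = Sym2.map (⇑((actS hg hgf j) ^ k)) e.1 := by
    intro k
    induction k with
    | zero =>
      intro e
      show e.1 = Sym2.map id e.1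
      rw [Sym2.map_id]; rfl
    | succ k ih =>
      intro e
      rw [pow_succ', Perm.mul_apply, pow_succ']
      show Sym2.map (actS hg hgf j) ((E ^ k) e).1 = _
      rw [ih, Sym2.map_map]
      rfl
  have hEp : E ^ p ^ n = 1 := by
    ext e : 1
    refine Subtype.ext ?_
    rw [hEk, hV]
    show Sym2.map id e.1 = e.1
    rw [Sym2.map_id]; rfl
  have hE0 : E.supportᶜ = ∅ := by
    rw [Finset.eq_empty_iff_forall_notMem]
    rintro ⟨e, he⟩ h
    rw [Finset.mem_compl, Perm.mem_support, not_not] at h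
    have h2 : Sym2.map (actS hg hgf j) e = e := congrArg Subtype.val h
    induction e using Sym2.ind with
    | _ P P' =>
      rw [SimpleGraph.mem_edgeSet] at he
      obtain ⟨-, x, hx, h3, h4⟩ := he
      rw [Sym2.map_mk, Sym2.eq_iff] at h2
      rcases h2 with ⟨h5, h6⟩ | ⟨h5, h6⟩
      · refine fixed_chord hM hU hf hg hgU hgf h1 hx.1 ?_ ?_
        · rw [← actQ_fa hg, h3]
          exact congrArg Subtype.val h5
        · rw [← actQ_fa hg, h4]
          exact congrArg Subtype.val h6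
      · have h7 : fa M (g x) = fa M (M.α x) := by
          rw [← actQ_fa hg, h3, h4]
          exact congrArg Subtype.val h5
        have h8 : fa M (M.α (g x)) = fa M (M.α (M.α x)) := by
          rw [← hg.1, ← actQ_fa hg, h4, M.α2, h3]
          exact congrArg Subtype.val h6
        have h9 := (side_tree hM hU hf (f (g x))).2.1 (g x) ((hgU x).2 hx.1) (M.α x) hx.2 rfl
          h7 h8
        exact hflip x hx.1 h9
  have hE1 := Perm.card_compl_support_modEq hEp
  rw [hE0, Finset.card_empty] at hE1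
  rw [Nat.card_eq_fintype_card, Nat.card_eq_fintype_card] at hcard
  have d1 : p ∣ Fintype.card (Sd M f j) := (Nat.modEq_zero_iff_dvd).1 hV1.symm
  have d2 : p ∣ Fintype.card (Gr M U f j).edgeSet := (Nat.modEq_zero_iff_dvd).1 hE1.symm
  rw [← hcard] at d1
  have d3 : p ∣ 1 := (Nat.dvd_add_right d2).1 d1
  exact hp.out.one_lt.ne' (Nat.dvd_one.1 d3)

end

end Pool.H19.SYM
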