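import Pool.Agent.Helper19.SYM.Kotzig

/-! The group of the automorphisms that permute the three circuits. -/

set_option linter.unusedSectionVars false

namespace Pool.H19.SYM

open Pool.H64.NC Equiv

variable {D : Type*} [DecidableEq D] [Fintype D] {M : CubicMap D}
variable {U : Fin 3 → Finset D} {f : Fin 3 → D → ZMod 2} {R : Subgroup (Perm D)}

/-- the elements of `R` permute the three circuits -/
def Permutes (U : Fin 3 → Finset D) (R : Subgroup (Perm D)) : Prop :=
  ∀ g ∈ R, ∀ i, ∃ j, Mv U g i j

open Classical in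
/-- the action on the three circuits -/
noncomputable def act (hK : Kz M U f) (hR : Permutes U R) : R →* Perm (Fin 3) :=
  MonoidHom.toHomPerm
    { toFun := fun g i => (hR g.1 g.2 i).choose
      map_one' := by
        funext i
        exact hK.mv_uniq (hR _ (1 : R).2 i).choose_spec (Mv.one i)
      map_mul' := by
        intro g h
        funext i
        exact hK.mv_uniq (hR _ (g * h).2 i).choose_spec
          ((hR h.1 h.2 i).choose_spec.mul (hR g.1 g.2 _).choose_spec) }

theorem act_mv (hK : Kz M U f) (hR : Permutes U R) (g : R) (i : Fin 3) :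
    Mv U g.1 i (act hK hR g i) := (hR g.1 g.2 i).choose_spec

theorem perm3 : ∀ π : Perm (Fin 3), (π ^ 2 = 1 ∧ ∃ i, π i = i) ∨
    (π ^ 3 = 1 ∧ (∀ i, π i ≠ i) ∧ ∀ e : Fin 3 → ZMod 2, (∀ i, e (π i) = e i) →
      e 0 = e 1 ∧ e 1 = e 2) := by
  decide

theorem perm3_fix : ∀ (π : Perm (Fin 3)) (i : Fin 3), π i = i → π ^ 2 = 1 := by
  decide

theorem sum3 : ∀ i j k : Fin 3, i ≠ j → i ≠ k → j ≠ k → ∀ a : Fin 3 → ZMod 2,
    a i + a j + a k = a 0 + a 1 + a 2 := by
  decide

/-- an element whose action has order at most two is an involution -/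
theorem sq_of_act (hK : Kz M U f) (hR : Permutes U R) (hRot : R ≤ Rot M) (g : R)
    (h : act hK hR g ^ 2 = 1) : g ^ 2 = 1 := by
  obtain ⟨i, hi⟩ : ∃ i, act hK hR g i = i := by
    rcases perm3 (act hK hR g) with ⟨-, h1⟩ | ⟨h1, h2, -⟩
    · exact h1
    · exfalso
      have h3 : act hK hR g = 1 := by
        have : act hK hR g ^ 3 = act hK hR g ^ 2 * act hK hR g := pow_succ _ _
        rw [h1, h, one_mul] at this
        exact this.symm
      exact h2 0 (by rw [h3]; rfl)
  have h1 := act_mv hK hR g i
  rw [hi] at h1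
  have h2 : ∀ k, Mv U (g.1 ^ 2) k k := by
    intro k
    have h3 := act_mv hK hR (g ^ 2) k
    rw [map_pow, h] at h3
    exact h3
  exact Subtype.ext (hK.four (hRot g.2) h2 h1)

/-- the order of an element is at most three -/
theorem order_le (hK : Kz M U f) (hR : Permutes U R) (hRot : R ≤ Rot M) (g : R) :
    g ^ 2 = 1 ∨ g ^ 3 = 1 := by
  rcases perm3 (act hK hR g) with ⟨h, -⟩ | ⟨h, -, h'⟩
  · exact Or.inl (sq_of_act hK hR hRot g h)
  · right
    have h3m : ∀ i, Mv U (g.1 ^ 3) i i := by
      intro i
      have := act_mv hK hR (g ^ 3) i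
      rw [map_pow, h] at this
      exact this
    have hR3 : g.1 ^ 3 ∈ Rot M := (Rot M).pow_mem (hRot g.2) 3
    choose e he using fun i => hK.shift hR3 (h3m i)
    choose c hc using fun i => hK.shift (hRot g.2) (act_mv hK hR g i)
    have hee : ∀ i, e (act hK hR g i) = e i := by
      intro i
      obtain ⟨x⟩ := nonempty hK.genus
      have h1 := he (act hK hR g i) (g.1 x)
      have h2 : (g.1 ^ 3) (g.1 x) = g.1 ((g.1 ^ 3) x) := by
        rw [← Perm.mul_apply, ← Perm.mul_apply, ← pow_succ, ← pow_succ']
      rw [h2, hc, he, hc] at h1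
      have h3 : ∀ a b c d : ZMod 2, a + b + c = a + c + d → d = b := by decide
      exact h3 _ _ _ _ h1
    obtain ⟨e1, e2⟩ := h' e hee
    obtain ⟨x⟩ := nonempty hK.genus
    have hs := hK.sum ((g.1 ^ 3) x) x
    rw [he, he, he, e1, e2] at hs
    have h4 : ∀ a b c d : ZMod 2, a + d + (b + d) + (c + d) = a + b + c → d = 0 := by decide
    have h5 := h4 _ _ _ _ hs
    refine Subtype.ext (hK.rigid hR3 h3m fun i y => ?_)
    show f i ((g.1 ^ 3) y) = f i y
    rw [he]
    have h6 : e i = 0 := by
      fin_cases i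
      · exact (e1.trans e2).trans h5
      · exact e2.trans h5
      · exact h5
    rw [h6, add_zero]

/-- A non-trivial element that fixes no vertex and no edge has order three and fixes none of the
three circuits. -/
theorem free_case (hK : Kz M U f) (hR : Permutes U R) (hRot : R ≤ Rot M) (g : R) (hg1 : g ≠ 1)
    (hv : ∀ x, g.1 x ≠ M.σ x ∧ g.1 x ≠ M.σ (M.σ x)) (he : ∀ x, g.1 x ≠ M.α x) :
    g ^ 3 = 1 ∧ ∀ i, ¬ Mv U g.1 i i := by
  have hgR := hRot g.2
  have hg1' : g.1 ≠ 1 := fun h => hg1 (Subtype.ext h)
  have hmain : ∀ i, ¬ Mv U g.1 i i := by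
    intro i hi
    have hai : act hK hR g i = i := hK.mv_uniq (act_mv hK hR g i) hi
    have hg2 : g ^ 2 = 1 := sq_of_act hK hR hRot g (perm3_fix _ i hai)
    have hg2' : g.1 ^ 2 ^ 1 = 1 := by
      rw [pow_one]
      exact congrArg Subtype.val hg2
    obtain ⟨c, hc⟩ := hK.shift hgR hi
    rcases zmod2 c with rfl | rfl
    · have hex := fun j => fixed_exists hK.genus (hK.ham i) (hK.pot i) hgR hi
        (fun x => by rw [hc, add_zero]) hg1' (hp := ⟨Nat.prime_two⟩) hg2' (fun x _ => he x) j
      obtain ⟨x0, hx0, hx0'⟩ := hex 0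
      obtain ⟨x1, hx1, hx1'⟩ := hex 1
      have hne : f i x0 ≠ f i x1 := by rw [hx0, hx1]; decide
      choose d hd using fun k => hK.shift hgR (act_mv hK hR g k)
      have h0 : ∀ k, f (act hK hR g k) x0 = f k x0 + d k := fun k => by
        rw [← hd, (hK.pot _).fa hx0']
      have h1 : ∀ k, f (act hK hR g k) x1 = f k x1 + d k := fun k => by
        rw [← hd, (hK.pot _).fa hx1']
      have hsum := hK.sum x0 x1
      by_cases hall : ∀ k, act hK hR g k = k
      · apply hg1'
        refine hK.rigid hgR (fun k => ?_) (fun k x => ?_)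
        · have := act_mv hK hR g k
          rwa [hall] at this
        · have h2 := h0 k
          rw [hall] at h2
          have h3 := hd k x
          rw [hall] at h3
          have h4 : ∀ a b : ZMod 2, a = a + b → b = 0 := by decide
          rw [h3, h4 _ _ h2, add_zero]
      · -- a transposition
        generalize act hK hR g = π at h0 h1 hall hai
        have key : ∀ (π : Perm (Fin 3)) (i : Fin 3), π i = i → ¬ (∀ k, π k = k) →
            ∀ (a b d : Fin 3 → ZMod 2), (∀ k, a (π k) = a k + d k) →
            (∀ k, b (π k) = b k + d k) → a 0 + a 1 + a 2 = b 0 + b 1 + b 2 → a i = b i := by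
          intro π i h1 h2 a b d ha hb hs
          have hcase : ∃ j k, j ≠ k ∧ i ≠ j ∧ i ≠ k ∧ π j = k := by
            revert h2 h1
            clear ha hb hs
            revert π i
            decide
          obtain ⟨j, k, hjk, hij, hik, hp⟩ := hcase
          have ha' := ha j
          have hb' := hb j
          rw [hp] at ha' hb'
          have e1 := sum3 i j k hij hik hjk a
          have e2 := sum3 i j k hij hik hjk b
          rw [← e1, ← e2, ha', hb'] at hs
          have h3 : ∀ x y z x' y' : ZMod 2, x + y + (y + z) = x' + y' + (y' + z) → x = x' := by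
            decide
          exact h3 _ _ _ _ _ hs
        exact hne (key π i hai hall (fun k => f k x0) (fun k => f k x1) d h0 h1 hsum)
    · rcases (reflect hK.genus (hK.ham i) (hK.pot i) hgR hi hc).2 with ⟨x, hx⟩ | ⟨x, hx | hx⟩
      · exact he x hx
      · exact (hv x).1 hx
      · exact (hv x).2 hx
  refine ⟨?_, hmain⟩
  rcases perm3 (act hK hR g) with ⟨-, i, hi⟩ | ⟨h, -, -⟩
  · exfalso
    have := act_mv hK hR g i
    rw [hi] at this
    exact hmain i this
  · rcases order_le hK hR hRot g with h2 | h3
    · exfalso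
      have h4 : act hK hR g ^ 2 = 1 := by rw [← map_pow, h2, map_one]
      rcases perm3 (act hK hR g) with ⟨-, i, hi⟩ | ⟨h5, h6, -⟩
      · have := act_mv hK hR g i
        rw [hi] at this
        exact hmain i this
      · have h7 : act hK hR g = 1 := by
          have : act hK hR g ^ 3 = act hK hR g ^ 2 * act hK hR g := pow_succ _ _
          rw [h5, h4, one_mul] at this
          exact this.symm
        exact h6 0 (by rw [h7]; rfl)
    · exact h3

end Pool.H19.SYM
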