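import Pool.Agent.Helper19.SYM.Side

/-! Automorphisms that exchange the sides of a Hamilton circuit act on it as reflections. -/

set_option linter.unusedSectionVars false

namespace Pool.H19.SYM

open Pool.H64.NC Equiv

variable {D : Type*} [DecidableEq D] [Fintype D] {M : CubicMap D}

theorem sw_inv {U : Finset D} (hU : M.Clo U) : Function.Involutive (sw M.σ U) := by
  intro x
  by_cases hx : x ∈ U
  · rw [sw_mem hx, sw_mem hx]
  · exact (sw_spec hU hx).2.1

/-- the next dart on the circuit -/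
def tau (M : CubicMap D) {U : Finset D} (hU : M.Clo U) : Perm D := (sw_inv hU).toPerm * M.permα

theorem permα_sq (M : CubicMap D) : M.permα * M.permα = 1 := by
  ext x; exact M.α2 x

theorem sw_sq {U : Finset D} (hU : M.Clo U) :
    (sw_inv hU).toPerm * (sw_inv hU).toPerm = 1 := by
  ext x; exact sw_inv hU x

theorem mul_zpow_rel {G : Type*} [Group G] {a t : G} (h : a * t = t⁻¹ * a) (k : ℤ) :
    a * t ^ k = t ^ (-k) * a := by
  have h1 : a * t * a⁻¹ = t⁻¹ := by rw [h, mul_inv_cancel_right]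
  have h2 : a * t ^ k * a⁻¹ = t ^ (-k) := by
    rw [← conj_zpow, h1, inv_zpow, zpow_neg]
  rw [← h2, inv_mul_cancel_right]

theorem alpha_tau {U : Finset D} (hU : M.Clo U) :
    M.permα * tau M hU = (tau M hU)⁻¹ * M.permα := by
  have h1 := permα_sq M
  have h2 := sw_sq hU
  have h3 : M.permα⁻¹ = M.permα := inv_eq_of_mul_eq_one_right h1
  have h4 : (sw_inv hU).toPerm⁻¹ = (sw_inv hU).toPerm := inv_eq_of_mul_eq_one_right h2
  unfold tau
  rw [mul_inv_rev, h3, h4, mul_assoc]

theorem sw_eq {U : Finset D} (hU : M.Clo U) (x : D) :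
    sw M.σ U x = tau M hU (M.permα x) := by
  have : tau M hU (M.permα x) = sw M.σ U (M.α (M.α x)) := rfl
  rw [this, M.α2]

/-- every used dart lies on the circuit through a given used dart -/
theorem on_circuit {U : Finset D} (hU : M.Ham U) {x0 : D} (hx0 : x0 ∉ U) {y : D} (hy : y ∉ U) :
    (∃ k : ℤ, y = (tau M hU.1 ^ k) x0) ∨ ∃ k : ℤ, y = (tau M hU.1 ^ k) (M.α x0) := by
  set S : Set D := {y | (∃ k : ℤ, y = (tau M hU.1 ^ k) x0) ∨
    ∃ k : ℤ, y = (tau M hU.1 ^ k) (M.α x0)} with hS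
  have hrel := fun k : ℤ => mul_zpow_rel (alpha_tau hU.1) k
  have hα : ∀ z ∈ S, M.α z ∈ S := by
    rintro z (⟨k, rfl⟩ | ⟨k, rfl⟩)
    · right
      refine ⟨-k, ?_⟩
      exact congrArg (fun π : Perm D => π x0) (hrel k)
    · left
      refine ⟨-k, ?_⟩
      have := congrArg (fun π : Perm D => π (M.α x0)) (hrel k)
      have h2 : (tau M hU.1 ^ (-k) * M.permα) (M.α x0) = (tau M hU.1 ^ (-k)) (M.α (M.α x0)) := rfl
      rw [M.α2] at h2
      exact this.trans h2
  have hτ : ∀ z ∈ S, tau M hU.1 z ∈ S := by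
    rintro z (⟨k, rfl⟩ | ⟨k, rfl⟩)
    · left
      exact ⟨1 + k, by rw [zpow_one_add]; rfl⟩
    · right
      exact ⟨1 + k, by rw [zpow_one_add]; rfl⟩
  have hsw : ∀ z ∈ S, sw M.σ U z ∈ S := by
    intro z hz
    rw [sw_eq hU.1]
    exact hτ _ (hα z hz)
  have key : ∀ a b, Conn (sw M.σ U) (ae M.α U) a b → (a ∈ S ↔ b ∈ S) := by
    intro a b h
    induction h with
    | rel a b hab =>
      rcases hab with rfl | rfl
      · refine ⟨hsw a, fun h => ?_⟩
        have := hsw _ h
        rwa [sw_inv hU.1 a] at this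
      · unfold ae
        split_ifs with h
        · refine ⟨hα a, fun h => ?_⟩
          have := hα _ h
          rwa [M.α2] at this
        · exact Iff.rfl
    | refl a => exact Iff.rfl
    | symm a b _ ih => exact ih.symm
    | trans a b c _ _ ih1 ih2 => exact ih1.trans ih2
  exact (key x0 y (hU.2 x0 y hx0 hy)).1 (Or.inl ⟨0, rfl⟩)

theorem pot_tau {U : Finset D} (hU : M.Clo U) {f : D → ZMod 2} (hf : Pot M U f) (x : D) :
    f (tau M hU x) = f x := by
  have e : tau M hU x = sw M.σ U (M.α x) := rfl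
  rw [e]
  by_cases hx : x ∈ U
  · rw [sw_mem ((hU.1 x).1 hx), hf.edge, if_pos hx, add_zero]
  · have hax : M.α x ∉ U := fun h => hx ((hU.1 x).2 h)
    exact ((lk_tau hU hx).pot hf).symm

theorem pot_tau_zpow {U : Finset D} (hU : M.Clo U) {f : D → ZMod 2} (hf : Pot M U f) (k : ℤ)
    (x : D) : f ((tau M hU ^ k) x) = f x :=
  (F1_same (pot_tau hU hf) ⟨k, rfl⟩).symm

theorem reflect (hM : M.Genus0) {U : Finset D} (hU : M.Ham U) {f : D → ZMod 2}
    (hf : Pot M U f) {g : Perm D} (hg : g ∈ Rot M) (hgU : ∀ x, g x ∈ U ↔ x ∈ U)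
    (hgf : ∀ x, f (g x) = f x + 1) :
    g ^ 2 = 1 ∧ ((∃ x, g x = M.α x) ∨ ∃ x, g x = M.σ x ∨ g x = M.σ (M.σ x)) := by
  have hne : ∀ a : ZMod 2, a ≠ a + 1 := by decide
  have h2z : ∀ a : ZMod 2, a + 1 + 1 = a := by decide
  -- a used dart
  obtain ⟨d⟩ := nonempty hM
  obtain ⟨x0, hx0, -⟩ := used_rep hU.1 d
  -- `ρ = α g`
  have himg : U.image g = U := by
    ext y
    obtain ⟨x, rfl⟩ := g.surjective y
    rw [mem_im, hgU]
  have c1 : g * M.permα = M.permα * g := by
    ext x; exact hg.1 x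
  have c2 : g * (sw_inv hU.1).toPerm = (sw_inv hU.1).toPerm * g := by
    ext x
    have := sw_im hg (U := U) x
    rw [himg] at this
    exact this.symm
  have hρ : (M.permα * g) * tau M hU.1 = (tau M hU.1)⁻¹ * (M.permα * g) := by
    have e : g * tau M hU.1 = tau M hU.1 * g := by
      unfold tau
      rw [← mul_assoc, c2, mul_assoc, c1, mul_assoc]
    rw [mul_assoc, e, ← mul_assoc, alpha_tau, mul_assoc]
  have hρk := fun k : ℤ => mul_zpow_rel hρ k
  have hused : M.α (g x0) ∉ U := by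
    rw [← hU.1.1, hgU]
    exact hx0
  obtain ⟨k, hk⟩ : ∃ k : ℤ, M.α (g x0) = (tau M hU.1 ^ k) x0 := by
    rcases on_circuit hU hx0 hused with h | ⟨k, hk⟩
    · exact h
    · exfalso
      have h1 := congrArg f hk
      rw [pot_tau_zpow hU.1 hf, hf.edge, hf.edge, if_neg hx0, if_neg (by rw [hgU]; exact hx0),
        hgf, h2z] at h1
      exact hne _ h1
  have hgz : ∀ z, g z ≠ z := by
    intro z hz
    have := hgf z
    rw [hz] at this
    exact hne _ this
  constructor
  · have h1 : (M.permα * g) * (M.permα * g) = g ^ 2 := by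
      rw [mul_assoc, ← mul_assoc g, c1, mul_assoc, ← mul_assoc M.permα, permα_sq, one_mul, sq]
    have h2 : (g ^ 2) x0 = x0 := by
      rw [← h1]
      have h3 : ((M.permα * g) * (M.permα * g)) x0 = (M.permα * g) ((tau M hU.1 ^ k) x0) := by
        rw [← hk]; rfl
      rw [h3]
      have h4 := congrArg (fun π : Perm D => π x0) (hρk k)
      have h5 : (M.permα * g) ((tau M hU.1 ^ k) x0) = (tau M hU.1 ^ (-k)) (M.α (g x0)) := h4
      rw [h5, hk, ← Perm.mul_apply, ← zpow_add, neg_add_cancel, zpow_zero]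
      rfl
    exact rot_one hM ((Rot M).pow_mem hg 2) h2
  · -- the dart `y = τ ^ m x0`
    have hy : ∀ m : ℤ, M.α (g ((tau M hU.1 ^ m) x0)) = (tau M hU.1 ^ (k - m)) x0 := by
      intro m
      have h4 := congrArg (fun π : Perm D => π x0) (hρk m)
      have h5 : M.α (g ((tau M hU.1 ^ m) x0)) = (tau M hU.1 ^ (-m)) (M.α (g x0)) := h4
      rw [h5, hk, ← Perm.mul_apply, ← zpow_add]
      congr 2
      ring
    rcases Int.even_or_odd' k with ⟨m, hm | hm⟩
    · left
      refine ⟨(tau M hU.1 ^ m) x0, ?_⟩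
      have h1 := hy m
      rw [show k - m = m by omega] at h1
      rw [← M.α2 (g _), h1]
    · right
      set y := (tau M hU.1 ^ m) x0 with hyd
      have h1 := hy m
      rw [show k - m = 1 + m by omega, zpow_one_add, Perm.mul_apply, ← hyd] at h1
      have h2 : tau M hU.1 y = sw M.σ U (M.α y) := rfl
      rw [h2, ← hg.1] at h1
      refine ⟨M.α y, ?_⟩
      by_cases hz : M.α y ∈ U
      · rw [sw_mem hz] at h1
        exact absurd h1 (hgz _)
      · rcases (sw_spec hU.1 hz).2.2 with ⟨h3, -⟩ | ⟨h3, -⟩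
        · left; rw [h1, h3]
        · right; rw [h1, h3]

end Pool.H19.SYM
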