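import Pool.Agent.Helper19.SYM.Fixed
import Pool.Agent.Helper19.SYM.Reflect

/-! Automorphisms of a plane cubic map that permute three Hamilton circuits, any edge being missed
by exactly one of them. -/

set_option linter.unusedSectionVars false

namespace Pool.H19.SYM

open Pool.H64.NC Equiv

variable {D : Type*} [DecidableEq D] [Fintype D] {M : CubicMap D}

/-- three Hamilton circuits such that every edge is missed by exactly one of them -/
structure Kotzig (M : CubicMap D) (U : Fin 3 → Finset D) : Prop where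
  ham : ∀ i, M.Ham (U i)
  one : ∀ x, One3 (x ∈ U 0) (x ∈ U 1) (x ∈ U 2)

/-- the image under `g` of the circuit `i` is the circuit `j` -/
def Mv (U : Fin 3 → Finset D) (g : Perm D) (i j : Fin 3) : Prop := ∀ x, g x ∈ U j ↔ x ∈ U i

/-- the data used in the proofs -/
structure Kz (M : CubicMap D) (U : Fin 3 → Finset D) (f : Fin 3 → D → ZMod 2) : Prop where
  genus : M.Genus0
  ham : ∀ i, M.Ham (U i)
  one : ∀ x, One3 (x ∈ U 0) (x ∈ U 1) (x ∈ U 2)
  pot : ∀ i, Pot M (U i) (f i)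

theorem Kotzig.exists_kz (hM : M.Genus0) {U : Fin 3 → Finset D} (h : Kotzig M U) :
    ∃ f, Kz M U f := by
  choose f hf using fun i => exists_pot hM (h.ham i).1
  exact ⟨f, hM, h.ham, h.one, hf⟩

variable {U : Fin 3 → Finset D} {f : Fin 3 → D → ZMod 2} {g h : Perm D}

theorem Kz.sum (hK : Kz M U f) (x y : D) :
    f 0 x + f 1 x + f 2 x = f 0 y + f 1 y + f 2 y := by
  have h1 : ∀ a b c : ZMod 2, a + 0 + (b + 1) + (c + 1) = a + b + c := by decide
  have h2 : ∀ a b c : ZMod 2, a + 1 + (b + 0) + (c + 1) = a + b + c := by decide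
  have h3 : ∀ a b c : ZMod 2, a + 1 + (b + 1) + (c + 0) = a + b + c := by decide
  refine cst hK.genus (fun x => f 0 x + f 1 x + f 2 x) ?_ ?_ x y
  · intro z
    show f 0 (M.α z) + f 1 (M.α z) + f 2 (M.α z) = _
    rw [(hK.pot 0).edge, (hK.pot 1).edge, (hK.pot 2).edge]
    rcases hK.one z with ⟨a, b, c⟩ | ⟨a, b, c⟩ | ⟨a, b, c⟩
    · rw [if_pos a, if_neg b, if_neg c, h1]
    · rw [if_neg a, if_pos b, if_neg c, h2]
    · rw [if_neg a, if_neg b, if_pos c, h3]
  · intro z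
    show f 0 (M.σ z) + f 1 (M.σ z) + f 2 (M.σ z) = _
    rw [(hK.pot 0).vert, (hK.pot 1).vert, (hK.pot 2).vert]
    rcases hK.one z with ⟨a, b, c⟩ | ⟨a, b, c⟩ | ⟨a, b, c⟩
    · rw [if_pos a, if_neg b, if_neg c, h1]
    · rw [if_neg a, if_pos b, if_neg c, h2]
    · rw [if_neg a, if_neg b, if_pos c, h3]

/-- every dart is used by one of the circuits -/
theorem Kz.used (hK : Kz M U f) (x : D) : ∃ i, x ∉ U i := by
  rcases hK.one x with ⟨a, b, c⟩ | ⟨a, b, c⟩ | ⟨a, b, c⟩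
  · exact ⟨1, b⟩
  · exact ⟨0, a⟩
  · exact ⟨0, a⟩

theorem Kz.miss (hK : Kz M U f) (x : D) : ∃ i, x ∈ U i := by
  rcases hK.one x with ⟨a, b, c⟩ | ⟨a, b, c⟩ | ⟨a, b, c⟩
  · exact ⟨0, a⟩
  · exact ⟨1, b⟩
  · exact ⟨2, c⟩

theorem Kz.inj (hK : Kz M U f) {i j : Fin 3} (h : U i = U j) : i = j := by
  obtain ⟨x0⟩ := nonempty hK.genus
  have h1 : ∃ x, x ∈ U i := by
    have := (hK.ham i).1.2 x0
    rcases this with ⟨a, -, -⟩ | ⟨-, a, -⟩ | ⟨-, -, a⟩
    · exact ⟨_, a⟩
    · exact ⟨_, a⟩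
    · exact ⟨_, a⟩
  obtain ⟨x, hx⟩ := h1
  have hy : x ∈ U j := h ▸ hx
  have := hK.one x
  unfold One3 at this
  fin_cases i <;> fin_cases j <;> first | rfl | (exfalso; simp_all)

theorem Kz.shift (hK : Kz M U f) (hg : g ∈ Rot M) {i j : Fin 3} (hm : Mv U g i j) :
    ∃ c, ∀ x, f j (g x) = f i x + c := transport hK.genus (hK.pot i) (hK.pot j) hg hm

theorem Mv.mul {i j k : Fin 3} (h1 : Mv U h i j) (h2 : Mv U g j k) : Mv U (g * h) i k :=
  fun x => (h2 (h x)).trans (h1 x)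

theorem Mv.one (i : Fin 3) : Mv U 1 i i := fun _ => Iff.rfl

theorem Kz.mv_uniq (hK : Kz M U f) {i j k : Fin 3} (h1 : Mv U g i j) (h2 : Mv U g i k) :
    j = k := by
  apply hK.inj
  ext y
  obtain ⟨x, rfl⟩ := g.surjective y
  rw [h1 x, h2 x]

theorem Kz.mv_uniq' (hK : Kz M U f) {i j k : Fin 3} (h1 : Mv U g i k) (h2 : Mv U g j k) :
    i = j := by
  apply hK.inj
  ext x
  rw [← h1 x, ← h2 x]

/-- An automorphism that fixes the three circuits and their sides is the identity. -/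
theorem Kz.rigid (hK : Kz M U f) (hg : g ∈ Rot M) (hm : ∀ i, Mv U g i i)
    (he : ∀ i x, f i (g x) = f i x) : g = 1 := by
  by_contra hne
  have hpos : 0 < orderOf g := orderOf_pos g
  have hn1 : orderOf g ≠ 1 := fun h => hne (orderOf_eq_one_iff.1 h)
  have hp : (orderOf g).minFac.Prime := Nat.minFac_prime hn1
  obtain ⟨q, hq⟩ := Nat.minFac_dvd (orderOf g)
  set p := (orderOf g).minFac with hpd
  have : Fact p.Prime := ⟨hp⟩
  obtain ⟨k, hk⟩ : ∃ k, k = g ^ q := ⟨_, rfl⟩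
  have hkp : k ^ p ^ 1 = 1 := by
    rw [hk, pow_one, ← pow_mul, mul_comm, ← hq, pow_orderOf_eq_one]
  have hk1 : k ≠ 1 := by
    intro h
    rw [hk] at h
    have h1 := orderOf_dvd_of_pow_eq_one h
    have hq0 : 0 < q := Nat.pos_of_ne_zero (by rintro rfl; omega)
    have h2 := Nat.le_of_dvd hq0 h1
    have h3 := hp.two_le
    have h4 : 2 * q ≤ p * q := Nat.mul_le_mul_right _ h3
    omega
  have hkR : k ∈ Rot M := hk ▸ (Rot M).pow_mem hg q
  have hkm : ∀ (n : ℕ) i, Mv U (g ^ n) i i := by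
    intro n i
    induction n with
    | zero => exact Mv.one i
    | succ n ih => rw [pow_succ']; exact ih.mul (hm i)
  have hke' : ∀ (n : ℕ) i x, f i ((g ^ n) x) = f i x := by
    intro n i x
    induction n with
    | zero => rfl
    | succ n ih => rw [pow_succ', Perm.mul_apply, he, ih]
  have hke : ∀ i x, f i (k x) = f i x := fun i x => by rw [hk]; exact hke' q i x
  have hkU : ∀ i x, k x ∈ U i ↔ x ∈ U i := fun i => by rw [hk]; exact hkm q i
  have hflip : ∀ x, k x ≠ M.α x := by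
    intro x hx
    obtain ⟨i, hi⟩ := hK.used x
    have h1 := (hK.pot i).edge x
    rw [if_neg hi, ← hx, hke] at h1
    have h2 : ∀ a : ZMod 2, a ≠ a + 1 := by decide
    exact h2 _ h1
  have hex := fun j => fixed_exists hK.genus (hK.ham 0) (hK.pot 0) hkR (hkU 0) (hke 0) hk1 hkp
    (fun x _ => hflip x) j
  obtain ⟨x0, hx0, hx0'⟩ := hex 0
  obtain ⟨x1, hx1, hx1'⟩ := hex 1
  have hne0 : f 0 x0 ≠ f 0 x1 := by rw [hx0, hx1]; decide
  have hother : ∀ i, f i x0 ≠ f i x1 := by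
    intro i h
    have h1 := fixed_unique hK.genus (hK.ham i) (hK.pot i) hkR (hkU i) (hke i) hk1 h hx0' hx1'
    exact hne0 ((hK.pot 0).fa h1)
  have h3 : ∀ a b c a' b' c' : ZMod 2, a ≠ a' → b ≠ b' → c ≠ c' → a + b + c ≠ a' + b' + c' := by
    decide
  exact h3 _ _ _ _ _ _ (hother 0) (hother 1) (hother 2) (hK.sum x0 x1)

/-- An automorphism that fixes the three circuits is an involution. -/
theorem Kz.sq_one (hK : Kz M U f) (hg : g ∈ Rot M) (hm : ∀ i, Mv U g i i) : g ^ 2 = 1 := by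
  refine hK.rigid ((Rot M).pow_mem hg 2) (fun i => ?_) (fun i x => ?_)
  · rw [sq]; exact (hm i).mul (hm i)
  · obtain ⟨c, hc⟩ := hK.shift hg (hm i)
    rw [sq, Perm.mul_apply, hc, hc]
    have h1 : ∀ a b : ZMod 2, a + b + b = a := by decide
    exact h1 _ _

/-- If the square of an automorphism fixes the circuits, it is trivial. -/
theorem Kz.four (hK : Kz M U f) (hg : g ∈ Rot M) (hm : ∀ i, Mv U (g ^ 2) i i)
    {i : Fin 3} (hi : Mv U g i i) : g ^ 2 = 1 := by
  by_contra hne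
  have hR2 := (Rot M).pow_mem hg 2
  have h4 : g ^ 2 ^ 2 = 1 := by
    have := hK.sq_one hR2 hm
    rwa [← pow_mul] at this
  obtain ⟨c, hc⟩ := hK.shift hg hi
  rcases zmod2 c with rfl | rfl
  · have hflip : ∀ x ∈ U i, g x ≠ M.α x := by
      intro x _ hx
      apply hne
      refine rot_one hK.genus hR2 (x := x) ?_
      rw [sq, Perm.mul_apply, hx, hg.1, hx, M.α2]
    have hg1 : g ≠ 1 := by
      rintro rfl
      exact hne (one_pow 2)
    obtain ⟨x, -, hx⟩ := fixed_exists hK.genus (hK.ham i) (hK.pot i) hg hi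
      (fun x => by rw [hc, add_zero]) hg1 (hp := ⟨Nat.prime_two⟩) h4 hflip 0
    have hx2 : fa M ((g ^ 2) x) = fa M x := by
      rw [sq, Perm.mul_apply, ← hx]
      exact (fa_rot hg).2 hx
    apply hne
    refine hK.rigid hR2 hm fun k y => ?_
    obtain ⟨e, he⟩ := hK.shift hR2 (hm k)
    have h1 := (hK.pot k).fa hx2
    rw [he] at h1
    have h2 : ∀ a b : ZMod 2, a + b = a → b = 0 := by decide
    rw [he, h2 _ _ h1, add_zero]
  · exact hne (reflect hK.genus (hK.ham i) (hK.pot i) hg hi hc).1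

end Pool.H19.SYM
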