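import Pool.Agent.Helper19.SYM.SymMirD

/-! Parity of the number of Hamilton circuits of plane cubic maps with an involution. -/

namespace Pool.H19.ResInv

open Pool.H64.NC Pool.H19.SYM Equiv

universe u

variable {D : Type u} [Fintype D] [DecidableEq D] {M : CubicMap D} {g : Perm D}

theorem sq_apply (h2 : g ^ 2 = 1) (x : D) : g (g x) = x := by
  have := congrArg (fun π : Perm D => π x) h2
  rwa [sq] at this

/-- no fixed darts and no edge whose ends are exchanged: no fixed vertex -/
theorem free2 (hg : g ∈ Sym M) (hsq : ∀ x, g (g x) = x) (h0 : ∀ x, g x ≠ x)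
    (he : ∀ x, g x ≠ M.α x) : Free2 M g := by
  have hne : ∀ x, M.σ (M.σ x) ≠ x := by
    intro x h
    have := congrArg M.σ h
    rw [M.σ3] at this
    exact M.σ1 _ this.symm
  refine ⟨hg, hsq, h0, fun x hx => ?_, fun x hx => ?_, he⟩
  · have h3 : g (M.σ x) = x := by rw [← hx, hsq]
    rcases hg.2 with h2 | h2
    · rw [h2, hx] at h3
      exact hne _ h3
    · have h4 : g (M.σ (M.σ x)) = M.σ (M.σ x) := by rw [h2, h3]
      exact h0 _ h4
  · have h3 : g (M.σ (M.σ x)) = x := by rw [← hx, hsq]
    rcases hg.2 with h2 | h2
    · rw [h2, h2, hx, M.σ3] at h3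
      exact M.σ1 _ h3
    · have h4 : g (M.σ x) = M.σ x := by rw [h2, hx, M.σ3]
      exact h0 _ h4

open Classical in
theorem inv_even (hM : M.Genus0) (hD : 6 < Fintype.card D) (hg : g ∈ Sym M)
    (hsq : ∀ x, g (g x) = x) (h1 : g ≠ 1)
    (h : (∀ x, g x ≠ M.α x) ∨ 2 < (Finset.univ.filter (fun x => g x = x)).card) :
    Even (Finset.univ.filter (fun U : Finset D => M.Ham U ∧ Inv g U)).card := by
  by_cases hfix : ∃ x0, g x0 = x0
  · obtain ⟨x0, hx0⟩ := hfix
    have h2 : ∀ x, g (M.σ x) = M.σ (M.σ (g x)) := by
      rcases hg.2 with h2 | h2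
      · exact absurd (rot_one hM ⟨hg.1, h2⟩ hx0) h1
      · exact h2
    by_cases hex : ∃ U, M.Ham U ∧ Inv g U
    · obtain ⟨U, hU, hi⟩ := hex
      have hle := fix_le hU hi hg.1 h2
      rcases h with h | h
      · refine Mir.even_inv (x0 := x0) ⟨hM, hD, hg.1, h2, hsq, h, hx0, fun x hx => ?_⟩
        by_contra hcon
        push Not at hcon
        have h3 : ({x, x0, M.α x0} : Finset D) ⊆ Finset.univ.filter (fun x => g x = x) := by
          intro y hy
          simp only [Finset.mem_insert, Finset.mem_singleton] at hy
          rw [Finset.mem_filter]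
          refine ⟨Finset.mem_univ _, ?_⟩
          rcases hy with rfl | rfl | rfl
          · exact hx
          · exact hx0
          · rw [hg.1, hx0]
        have h4 := Finset.card_le_card h3
        rw [Finset.card_eq_three.2 ⟨x, x0, M.α x0, hcon.1, hcon.2, (M.α1 x0).symm, rfl⟩] at h4
        omega
      · omega
    · rw [Finset.filter_eq_empty_iff.2 (fun U _ hU => hex ⟨U, hU⟩), Finset.card_empty]
      exact Even.zero
  · push Not at hfix
    rcases h with h | h
    · exact even_inv_all hM (free2 hg hsq hfix h)
    · rw [Finset.filter_eq_empty_iff.2 (fun x _ hx => hfix x hx)] at h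
      simp at h

open Classical in
/-- invariant circuits decide the parity -/
theorem even_of_inv_even (hg : g ∈ Sym M) (hsq : ∀ x, g (g x) = x)
    (h : Even (Finset.univ.filter (fun U : Finset D => M.Ham U ∧ Inv g U)).card) :
    Even (Finset.univ.filter (fun U : Finset D => M.Ham U)).card := by
  have himg : ∀ U : Finset D, (U.image g).image g = U := by
    intro U
    rw [Finset.image_image]
    have : (⇑g ∘ ⇑g) = id := funext hsq
    rw [this, Finset.image_id]
  have h1 := Finset.sum_involution
    (s := Finset.univ.filter (fun U : Finset D => M.Ham U ∧ ¬ Inv g U))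
    (f := fun _ => (1 : ZMod 2)) (fun U _ => U.image g) (fun a _ => by decide)
    (fun U hU _ h2 => (Finset.mem_filter.1 hU).2.2 (inv_of_image h2))
    (fun U hU => by
      obtain ⟨-, h2, h3⟩ := Finset.mem_filter.1 hU
      refine Finset.mem_filter.2 ⟨Finset.mem_univ _, sym_ham hg h2, fun h4 => h3 ?_⟩
      have h5 := inv_image h4
      rw [himg] at h5
      exact inv_of_image h5.symm)
    (fun U _ => himg U)
  rw [Finset.sum_const, nsmul_eq_mul, mul_one] at h1
  have h2 := cast_even h
  have h3 := Finset.card_filter_add_card_filter_not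
    (s := Finset.univ.filter (fun U : Finset D => M.Ham U)) (fun U => Inv g U)
  rw [Finset.filter_filter, Finset.filter_filter] at h3
  rw [← ZMod.natCast_eq_zero_iff_even, ← h3, Nat.cast_add, h1, h2, add_zero]

/-- The number of Hamilton circuits of a plane cubic map with at least four vertices is even (and
so it is not three), if the map has a symmetry `g` of order two that exchanges the ends of no
edge, or that fixes more than two darts. -/
theorem main (M : CubicMap D) (hM : M.Genus0) (hD : 6 < Fintype.card D) (g : Perm D)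
    (hg : g ∈ Sym M) (h1 : g ≠ 1) (h2 : g ^ 2 = 1)
    (h : (∀ x, g x ≠ M.α x) ∨ 2 < Nat.card {x // g x = x}) :
    Even (Nat.card {U : Finset D // M.Ham U}) ∧ ¬ M.Three := by
  classical
  have hsq := sq_apply h2
  have h' : (∀ x, g x ≠ M.α x) ∨ 2 < (Finset.univ.filter (fun x => g x = x)).card := by
    rcases h with h | h
    · exact Or.inl h
    · right
      rwa [Nat.card_eq_fintype_card, Fintype.card_subtype] at h
  have h3 := even_of_inv_even hg hsq (inv_even hM hD hg hsq h1 h')
  refine ⟨?_, ?_⟩
  · rw [Nat.card_eq_fintype_card, Fintype.card_subtype]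
    convert h3
  · rintro ⟨U1, U2, U3, u1, u2, u3, h12, h13, h23, hall⟩
    have h4 : Finset.univ.filter (fun U : Finset D => M.Ham U) = {U1, U2, U3} := by
      ext U
      simp only [Finset.mem_filter, Finset.mem_univ, true_and, Finset.mem_insert,
        Finset.mem_singleton]
      constructor
      · exact hall U
      · rintro (rfl | rfl | rfl)
        · exact u1
        · exact u2
        · exact u3
    have h5 : (Finset.univ.filter (fun U : Finset D => M.Ham U)).card = 3 := by
      rw [h4]
      exact Finset.card_eq_three.2 ⟨U1, U2, U3, h12, h13, h23, rfl⟩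
    have h6 : Even 3 := by
      rw [← h5]
      convert h3
    exact absurd h6 (by decide)

end Pool.H19.ResInv
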