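import Pool.Agent.Helper19.SYM.Card
import Pool.Agent.Helper64.NC.Smith

/-! Symmetries of plane cubic maps with exactly three Hamilton circuits. -/

namespace Pool.H19.ResSym

open Pool.H64.NC Pool.H19.SYM Equiv

universe u

variable {D : Type u}

/-- the permutations of the darts that permute the circuits `U 0`, `U 1`, `U 2` -/
def Keep [DecidableEq D] (U : Fin 3 → Finset D) : Subgroup (Perm D) where
  carrier := {g | ∀ V : Finset D, (∃ i, U i = V) ↔ ∃ i, U i = V.image g}
  mul_mem' := by
    intro g h hg hh V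
    rw [hh V, hg (V.image h), Finset.image_image]
    rfl
  one_mem' := by
    intro V
    have : V.image (1 : Perm D) = V := by
      ext x
      simp
    rw [this]
  inv_mem' := by
    intro g hg V
    have h1 := hg (V.image (g⁻¹ : Perm D))
    rw [Finset.image_image] at h1
    have h2 : V.image (⇑g ∘ ⇑(g⁻¹ : Perm D)) = V := by
      ext x
      simp
    rw [h2] at h1
    exact h1.symm

/-- a group `G` of symmetries of the map `M` and a set `C` of circuits (given by their unused
darts): there are at most twelve rotations, at most 24 symmetries, every rotation has order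
at most three, and a rotation different from the identity that fixes no vertex and no edge has
order three and fixes none of the circuits -/
structure Few [DecidableEq D] (M : CubicMap D) (G : Subgroup (Perm D)) (C : Set (Finset D)) :
    Prop where
  rot : Nat.card (G ⊓ Rot M : Subgroup (Perm D)) ∣ 12
  sym : Nat.card (G ⊓ Sym M : Subgroup (Perm D)) ∣ 24
  ord : ∀ g ∈ G ⊓ Rot M, g ^ 2 = 1 ∨ g ^ 3 = 1
  free : ∀ g ∈ G ⊓ Rot M, g ≠ 1 → (∀ x, g x ≠ M.σ x ∧ g x ≠ M.σ (M.σ x) ∧ g x ≠ M.α x) →
    g ^ 3 = 1 ∧ ∀ V ∈ C, V.image g ≠ V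

variable [Fintype D] [DecidableEq D] {M : CubicMap D}

theorem rot_le_sym : Rot M ≤ Sym M := fun _ hg => ⟨hg.1, Or.inl hg.2⟩

theorem few (hM : M.Genus0) {U : Fin 3 → Finset D} (hK : Kotzig M U) (G : Subgroup (Perm D))
    (hG : ∀ g ∈ G ⊓ Rot M, ∀ i, ∃ j, U j = (U i).image g) {C : Set (Finset D)}
    (hC : ∀ V ∈ C, ∃ i, U i = V) : Few M G C := by
  obtain ⟨f, hf⟩ := hK.exists_kz hM
  have hR : Permutes U (G ⊓ Rot M) := by
    intro g hg i
    obtain ⟨j, hj⟩ := hG g hg i
    refine ⟨j, fun x => ?_⟩
    rw [hj, mem_im]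
  have hRot : G ⊓ Rot M ≤ Rot M := inf_le_right
  have h12 := card_rot hf hR hRot
  refine ⟨h12, ?_, ?_, ?_⟩
  · refine card_sym _ inf_le_right ?_
    have e : (G ⊓ Sym M) ⊓ Rot M = G ⊓ Rot M := by
      rw [inf_assoc, inf_eq_right.2 rot_le_sym]
    rw [e]
    exact h12
  · intro g hg
    rcases order_le hf hR hRot ⟨g, hg⟩ with h | h
    · exact Or.inl (congrArg Subtype.val h)
    · exact Or.inr (congrArg Subtype.val h)
  · intro g hg h1 hx
    obtain ⟨h3, hfix⟩ := free_case hf hR hRot ⟨g, hg⟩ (fun h => h1 (congrArg Subtype.val h))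
      (fun x => ⟨(hx x).1, (hx x).2.1⟩) (fun x => (hx x).2.2)
    refine ⟨congrArg Subtype.val h3, fun V hV h => ?_⟩
    obtain ⟨i, rfl⟩ := hC V hV
    refine hfix i fun x => ?_
    have := mem_im (g := g) (U := U i) (x := x)
    rwa [h] at this

/-- Symmetries of plane cubic maps with exactly three Hamilton circuits, and of plane cubic maps
with three Hamilton circuits such that every edge is missed by exactly one of them. -/
theorem main (M : CubicMap D) (hM : M.Genus0) :
    (M.Three → Few M ⊤ {V | M.Ham V}) ∧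
      ∀ U : Fin 3 → Finset D, Kotzig M U → Few M (Keep U) (Set.range U) := by
  constructor
  · rintro ⟨U1, U2, U3, h1, h2, h3, h12, h13, h23, hall⟩
    have hall' : ∀ V, M.Ham V → ∃ i, (![U1, U2, U3] : Fin 3 → Finset D) i = V := by
      intro V hV
      rcases hall V hV with rfl | rfl | rfl
      · exact ⟨0, rfl⟩
      · exact ⟨1, rfl⟩
      · exact ⟨2, rfl⟩
    have hham : ∀ i, M.Ham ((![U1, U2, U3] : Fin 3 → Finset D) i) := by
      intro i
      fin_cases i
      · exact h1
      · exact h2
      · exact h3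
    refine few hM (U := ![U1, U2, U3]) ⟨hham, fun x => ?_⟩ ⊤ ?_ hall'
    · exact CubicMap.three_one h1 h2 h3 h12 h13 h23 hall x
    · intro g hg i
      exact hall' _ (ham_im hg.2 (hham i))
  · intro U hU
    refine few hM hU (Keep U) ?_ (fun V hV => hV)
    intro g hg i
    exact (hg.1 (U i)).1 ⟨i, rfl⟩

end Pool.H19.ResSym
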