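import Pool.Agent.Helper19.SYM.Basic
import Pool.Agent.Helper64.NC.Rd.Euler

/-! The two sides of a Hamilton circuit of a plane cubic map are trees of faces. -/

namespace Pool.H19.SYM

open Pool.H64.NC Equiv

variable {D : Type*} [DecidableEq D] {M : CubicMap D}

/-- linked through faces and unused edges -/
def Lk (M : CubicMap D) (U : Finset D) : D → D → Prop :=
  Relation.EqvGen (fun x y => y = M.σ (M.α x) ∨ (x ∈ U ∧ y = M.α x))

theorem Lk.refl {U : Finset D} (x : D) : Lk M U x x := Relation.EqvGen.refl _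
theorem Lk.symm {U : Finset D} {x y : D} (h : Lk M U x y) : Lk M U y x :=
  Relation.EqvGen.symm _ _ h
theorem Lk.trans {U : Finset D} {x y z : D} (h : Lk M U x y) (h' : Lk M U y z) : Lk M U x z :=
  Relation.EqvGen.trans _ _ _ h h'
theorem Lk.fa {U : Finset D} (x : D) : Lk M U x (M.σ (M.α x)) :=
  Relation.EqvGen.rel _ _ (Or.inl rfl)
theorem Lk.ch {U : Finset D} {x : D} (h : x ∈ U) : Lk M U x (M.α x) :=
  Relation.EqvGen.rel _ _ (Or.inr ⟨h, rfl⟩)

theorem Lk.pot {U : Finset D} {f : D → ZMod 2} (hf : Pot M U f) {x y : D} (h : Lk M U x y) :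
    f x = f y := by
  induction h with
  | rel a b hab =>
    rcases hab with rfl | ⟨ha, rfl⟩
    · exact (hf.face a).symm
    · rw [hf.edge, if_pos ha, add_zero]
  | refl a => rfl
  | symm a b _ ih => exact ih.symm
  | trans a b c _ _ ih1 ih2 => exact ih1.trans ih2

theorem sw_spec {U : Finset D} (hU : M.Clo U) {x : D} (hx : x ∉ U) :
    sw M.σ U x ∉ U ∧ sw M.σ U (sw M.σ U x) = x ∧
      ((sw M.σ U x = M.σ x ∧ M.σ x ∉ U) ∨ (sw M.σ U x = M.σ (M.σ x) ∧ M.σ x ∈ U)) := by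
  have h3 := M.σ3 x
  rcases hU.2 x with ⟨a, b, c⟩ | ⟨a, b, c⟩ | ⟨a, b, c⟩
  · exact absurd a hx
  · have e : sw M.σ U x = M.σ (M.σ x) := by
      unfold sw
      rw [if_neg (by tauto), if_pos ⟨hx, b, c⟩]
    rw [e]
    refine ⟨c, ?_, Or.inr ⟨rfl, b⟩⟩
    unfold sw
    rw [h3, if_pos ⟨c, hx, b⟩]
  · have e : sw M.σ U x = M.σ x := by
      unfold sw
      rw [if_pos ⟨hx, b, c⟩]
    rw [e]
    refine ⟨b, ?_, Or.inl ⟨rfl, b⟩⟩
    unfold sw
    rw [h3, if_neg (by tauto), if_pos ⟨b, c, hx⟩]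

theorem sw_mem {U : Finset D} {x : D} (hx : x ∈ U) : sw M.σ U x = x := by
  unfold sw
  rw [if_neg (by tauto), if_neg (by tauto)]

/-- `x` is linked to the next used dart on the circuit -/
theorem lk_tau {U : Finset D} (hU : M.Clo U) {x : D} (hx : x ∉ U) :
    Lk M U x (sw M.σ U (M.α x)) := by
  have hax : M.α x ∉ U := fun h => hx ((hU.1 x).2 h)
  rcases (sw_spec hU hax).2.2 with ⟨h, -⟩ | ⟨h, h'⟩
  · rw [h]; exact Lk.fa x
  · rw [h]
    have h1 := Lk.fa (M := M) (U := U) x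
    have h2 := Lk.ch (M := M) h'
    have h3 := Lk.fa (M := M) (U := U) (M.α (M.σ (M.α x)))
    rw [M.α2] at h3
    exact (h1.trans h2).trans h3

theorem ham_lk {U : Finset D} (hU : M.Clo U) {x y : D} (h : Conn (sw M.σ U) (ae M.α U) x y) :
    x = y ∨ (Lk M U x (M.α y) ∧ Lk M U (M.α x) y) ∨ (Lk M U x y ∧ Lk M U (M.α x) (M.α y)) := by
  have hr : Equivalence (fun x y => x = y ∨ (Lk M U x (M.α y) ∧ Lk M U (M.α x) y) ∨
      (Lk M U x y ∧ Lk M U (M.α x) (M.α y))) := by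
    refine ⟨fun x => Or.inl rfl, ?_, ?_⟩
    · rintro x y (h | ⟨h, h'⟩ | ⟨h, h'⟩)
      · exact Or.inl h.symm
      · exact Or.inr (Or.inl ⟨h'.symm, h.symm⟩)
      · exact Or.inr (Or.inr ⟨h.symm, h'.symm⟩)
    · rintro x y z (rfl | ⟨h1, h1'⟩ | ⟨h1, h1'⟩) (rfl | ⟨h2, h2'⟩ | ⟨h2, h2'⟩)
      · exact Or.inl rfl
      · exact Or.inr (Or.inl ⟨h2, h2'⟩)
      · exact Or.inr (Or.inr ⟨h2, h2'⟩)
      · exact Or.inr (Or.inl ⟨h1, h1'⟩)
      · exact Or.inr (Or.inr ⟨h1.trans h2', h1'.trans h2⟩)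
      · exact Or.inr (Or.inl ⟨h1.trans h2', h1'.trans h2⟩)
      · exact Or.inr (Or.inr ⟨h1, h1'⟩)
      · exact Or.inr (Or.inl ⟨h1.trans h2, h1'.trans h2'⟩)
      · exact Or.inr (Or.inr ⟨h1.trans h2, h1'.trans h2'⟩)
  refine conn_le hr ?_ ?_ h
  · intro z
    by_cases hz : z ∈ U
    · exact Or.inl (sw_mem hz).symm
    · have haz : M.α z ∉ U := fun h => hz ((hU.1 z).2 h)
      obtain ⟨s1, s2, -⟩ := sw_spec hU hz
      have has : M.α (sw M.σ U z) ∉ U := fun h => s1 ((hU.1 _).2 h)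
      refine Or.inr (Or.inl ⟨?_, ?_⟩)
      · have := lk_tau hU has
        rw [M.α2, s2] at this
        exact this.symm
      · have := lk_tau hU haz
        rwa [M.α2] at this
  · intro z
    by_cases hz : z ∉ U ∧ M.α z ∉ U
    · have e : ae M.α U z = M.α z := if_pos hz
      rw [e]
      refine Or.inr (Or.inl ⟨?_, Lk.refl _⟩)
      rw [M.α2]
      exact Lk.refl _
    · have e : ae M.α U z = z := if_neg hz
      exact Or.inl e.symm

theorem used_rep {U : Finset D} (hU : M.Clo U) (x : D) : ∃ y, y ∉ U ∧ Lk M U x y := by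
  by_cases hx : x ∈ U
  · refine ⟨M.σ (M.α x), fun h => ?_, Lk.fa x⟩
    have h1 := (hU.1 x).1 hx
    have h2 := hU.2 (M.α x)
    unfold One3 at h2
    tauto
  · exact ⟨x, hx, Lk.refl _⟩

/-- a side of a Hamilton circuit is connected -/
theorem side_conn {U : Finset D} (hU : M.Ham U) {f : D → ZMod 2} (hf : Pot M U f) {x y : D}
    (h : f x = f y) : Lk M U x y := by
  obtain ⟨x', hx', hx⟩ := used_rep hU.1 x
  obtain ⟨y', hy', hy⟩ := used_rep hU.1 y
  have h1 : f x' = f y' := by rw [← hx.pot hf, ← hy.pot hf, h]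
  rcases ham_lk hU.1 (hU.2 x' y' hx' hy') with h2 | ⟨h2, -⟩ | ⟨h2, -⟩
  · rw [h2] at hx
    exact hx.trans hy.symm
  · exfalso
    have h3 := h2.pot hf
    rw [hf.edge, if_neg hy', h1] at h3
    have h4 : ∀ a : ZMod 2, a ≠ a + 1 := by decide
    exact h4 _ h3
  · exact (hx.trans h2).trans hy.symm

/-! ### faces -/

/-- the set of the faces -/
abbrev Fa (M : CubicMap D) := Quotient (Perm.SameCycle.setoid M.face)

/-- the face of a dart -/
def fa (M : CubicMap D) (x : D) : Fa M := Quotient.mk _ x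

theorem fa_eq {x y : D} : fa M x = fa M y ↔ M.face.SameCycle x y :=
  ⟨fun h => Quotient.exact h, fun h => Quotient.sound h⟩

theorem fa_face (x : D) : fa M (M.σ (M.α x)) = fa M x := by
  rw [fa_eq]
  exact Perm.sameCycle_apply_left.mpr (Perm.SameCycle.refl _ _)

theorem Pot.fa {U : Finset D} {f : D → ZMod 2} (hf : Pot M U f) {x y : D}
    (h : fa M x = fa M y) : f x = f y := hf.same (fa_eq.1 h)

/-- the faces on the side `j` -/
def Sd (M : CubicMap D) (f : D → ZMod 2) (j : ZMod 2) : Set (Fa M) :=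
  {P | ∃ x, fa M x = P ∧ f x = j}

theorem mem_Sd {U : Finset D} {f : D → ZMod 2} (hf : Pot M U f) {j : ZMod 2} {x : D} :
    fa M x ∈ Sd M f j ↔ f x = j := by
  constructor
  · rintro ⟨y, hy, rfl⟩
    exact (hf.fa hy).symm
  · intro h
    exact ⟨x, rfl, h⟩

/-- the graph of the faces of a side, adjacent through unused edges -/
def Gr (M : CubicMap D) (U : Finset D) (f : D → ZMod 2) (j : ZMod 2) :
    SimpleGraph (Sd M f j) where
  Adj P P' := P ≠ P' ∧ ∃ x, (x ∈ U ∧ M.α x ∈ U) ∧ fa M x = P.1 ∧ fa M (M.α x) = P'.1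
  symm := ⟨by
    rintro P P' ⟨h, x, hx, h1, h2⟩
    exact ⟨h.symm, M.α x, ⟨hx.2, by rw [M.α2]; exact hx.1⟩, h2, by rw [M.α2]; exact h1⟩⟩
  loopless := ⟨fun P h => h.1 rfl⟩

variable [Fintype D]

instance : Finite (Fa M) := Quotient.finite _

theorem gr_conn {U : Finset D} (hU : M.Ham U) {f : D → ZMod 2} (hf : Pot M U f) {j : ZMod 2}
    (hj : ∃ x, f x = j) : (Gr M U f j).Connected := by
  obtain ⟨x0, hx0⟩ := hj
  have key : ∀ x y, Lk M U x y → ∀ (hx : fa M x ∈ Sd M f j) (hy : fa M y ∈ Sd M f j),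
      (Gr M U f j).Reachable ⟨fa M x, hx⟩ ⟨fa M y, hy⟩ := by
    intro x y h
    induction h with
    | rel a b hab =>
      intro hx hy
      rcases hab with rfl | ⟨ha, rfl⟩
      · have e : (⟨fa M a, hx⟩ : Sd M f j) = ⟨fa M (M.σ (M.α a)), hy⟩ :=
          Subtype.ext (fa_face a).symm
        rw [e]
      · by_cases e : fa M a = fa M (M.α a)
        · have e' : (⟨fa M a, hx⟩ : Sd M f j) = ⟨fa M (M.α a), hy⟩ := Subtype.ext e
          rw [e']
        · refine SimpleGraph.Adj.reachable ⟨fun h => e (congrArg Subtype.val h), a,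
            ⟨ha, (hU.1.1 a).1 ha⟩, rfl, rfl⟩
    | refl a => intro _ _; rfl
    | symm a b _ ih => intro hx hy; exact (ih hy hx).symm
    | trans a b c h1 h2 ih1 ih2 =>
      intro hx hy
      have hb : fa M b ∈ Sd M f j := by
        rw [mem_Sd hf] at hx ⊢
        rw [← Lk.pot hf h1, hx]
      exact (ih1 hx hb).trans (ih2 hb hy)
  refine (SimpleGraph.connected_iff _).2 ⟨?_, ⟨⟨fa M x0, (mem_Sd hf).2 hx0⟩⟩⟩
  rintro ⟨_, x, rfl, hx⟩ ⟨_, y, rfl, hy⟩
  exact key x y (side_conn hU hf (hx.trans hy.symm)) _ _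

end Pool.H19.SYM
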