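import Pool.Agent.Helper19.SYM.SymPair
import Pool.Agent.Helper64.NC.Smith

/-! The parity of the number of Hamilton circuits of a plane cubic map with an automorphism of
order two that fixes no vertex and no edge. -/

set_option linter.unusedSectionVars false

namespace Pool.H19.SYM

open Pool.H64.NC Equiv

variable {D : Type*} [DecidableEq D] [Fintype D] {M : CubicMap D} {g : Perm D}

theorem cast_even {n : ℕ} (h : Even n) : (n : ZMod 2) = 0 :=
  (ZMod.natCast_eq_zero_iff_even).2 h

open Classical in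
theorem even_inv (hM : M.Genus0) (h : Free2 M g) {k : D → D} (hk : Fold M g k) {a b : D}
    (P1 : ∀ φ : D → ZMod 2, (∀ x, φ (M.σ (M.α x)) = φ x) → φ a + φ (k a) + φ b + φ (k b) = 0)
    (P2 : ∀ U, M.Ham U → Inv g U → ∀ f, Pot M U f → f a + f b = 1) :
    Even (Finset.univ.filter (fun U : Finset D => M.Ham U ∧ Inv g U)).card := by
  obtain ⟨T, hT⟩ := exists_tra h
  have hex : ∀ U' : Finset {x // x ∈ T}, ∃ f, (quo h hT).Ham U' → Pot M (lif hT U') f := by
    intro U'
    by_cases hU : (quo h hT).Ham U'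
    · obtain ⟨f, hf⟩ := exists_pot hM (lif_clo h hU.1)
      exact ⟨f, fun _ => hf⟩
    · exact ⟨0, fun h => absurd h hU⟩
  choose F hF using hex
  set A : Finset (Finset {x // x ∈ T}) := Finset.univ.filter (fun U' => (quo h hT).Ham U') with hA
  have mA : ∀ {U'}, U' ∈ A ↔ (quo h hT).Ham U' := by
    intro U'
    simp only [hA, Finset.mem_filter, Finset.mem_univ, true_and]
  have hS : ∀ x, ∑ U' ∈ A, (if x ∈ lif hT U' then (0 : ZMod 2) else 1) = 0 := by
    intro x
    have h1 := cast_even ((quo h hT).smith (pj hT x))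
    have h2 : (Finset.univ.filter (fun U' => (quo h hT).Ham U' ∧ pj hT x ∉ U')) =
        A.filter (fun U' => ¬ x ∈ lif hT U') := by
      ext U'
      simp only [hA, Finset.mem_filter, Finset.mem_univ, true_and, mem_lif]
    rw [h2, Finset.card_filter, Nat.cast_sum] at h1
    refine Eq.trans (Finset.sum_congr rfl fun U' _ => ?_) h1
    by_cases hx : x ∈ lif hT U'
    · rw [if_pos hx, if_neg (not_not.2 hx)]; rfl
    · rw [if_neg hx, if_pos hx]; rfl
  have e1 : ∀ x, ∑ U' ∈ A, F U' (M.α x) = ∑ U' ∈ A, F U' x := by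
    intro x
    rw [← add_zero (∑ U' ∈ A, F U' x), ← hS x, ← Finset.sum_add_distrib]
    exact Finset.sum_congr rfl fun U' hU' => (hF U' (mA.1 hU')).edge x
  have e2 : ∀ x, ∑ U' ∈ A, F U' (M.σ x) = ∑ U' ∈ A, F U' x := by
    intro x
    rw [← add_zero (∑ U' ∈ A, F U' x), ← hS x, ← Finset.sum_add_distrib]
    exact Finset.sum_congr rfl fun U' hU' => (hF U' (mA.1 hU')).vert x
  have e3 := cst hM (fun x => ∑ U' ∈ A, F U' x) e1 e2 a b
  have e4 : ∑ U' ∈ A, (F U' a + F U' b) = 0 := by
    rw [Finset.sum_add_distrib, show ∑ U' ∈ A, F U' a = ∑ U' ∈ A, F U' b from e3]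
    have h2 : ∀ c : ZMod 2, c + c = 0 := by decide
    exact h2 _
  have e5 : ∑ U' ∈ A, (if M.Ham (lif hT U') then (1 : ZMod 2) else 0) = 0 := by
    refine Eq.trans (Finset.sum_congr rfl fun U' hU' => ?_) e4
    have hU := mA.1 hU'
    split_ifs with hH
    · exact (P2 _ hH (lif_inv h U') _ (hF U' hU)).symm
    · exact (split_pot hM h hU hH (hF U' hU) hk P1).symm
  have e6 : ((A.filter (fun U' => M.Ham (lif hT U'))).card : ZMod 2) = 0 := by
    rw [Finset.card_filter, Nat.cast_sum]
    refine Eq.trans (Finset.sum_congr rfl fun U' _ => ?_) e5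
    split_ifs <;> simp
  have e7 := (ZMod.natCast_eq_zero_iff_even).1 e6
  have e8 : (A.filter (fun U' => M.Ham (lif hT U'))).card =
      (Finset.univ.filter (fun U : Finset D => M.Ham U ∧ Inv g U)).card := by
    refine Finset.card_bij (fun U' _ => lif hT U') ?_ ?_ ?_
    · intro U' hU'
      rw [Finset.mem_filter] at hU' ⊢
      exact ⟨Finset.mem_univ _, hU'.2, lif_inv h U'⟩
    · intro U1 _ U2 _ h12
      rw [← rst_lif (hT := hT) U1, ← rst_lif (hT := hT) U2, h12]
    · intro U hU
      obtain ⟨-, hH, hi⟩ := Finset.mem_filter.1 hU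
      refine ⟨rst T U, ?_, lif_rst hi⟩
      rw [Finset.mem_filter, mA, lif_rst hi]
      exact ⟨rst_ham h hi hH, hH⟩
  rwa [e8] at e7

open Classical in
/-- the number of the invariant Hamilton circuits is even -/
theorem even_inv_all (hM : M.Genus0) (h : Free2 M g) :
    Even (Finset.univ.filter (fun U : Finset D => M.Ham U ∧ Inv g U)).card := by
  obtain ⟨d⟩ := nonempty hM
  rcases h.sym.2 with h2 | h2
  · have hg : g ∈ Rot M := ⟨h.sym.1, h2⟩
    by_cases hex : ∃ U0, M.Ham U0 ∧ Inv g U0
    · obtain ⟨U0, hU0, hi0⟩ := hex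
      obtain ⟨a, b, ha, hb, hab⟩ := rot_pair hM h hg hU0 hi0
      refine even_inv hM h (fold_rot hg) (a := a) (b := b) (fun φ hφ => ?_) hab
      have h3 : φ (g a) = φ a := F1_same (fun d => hφ d) (fa_eq.1 ha)
      have h4 : φ (g b) = φ b := F1_same (fun d => hφ d) (fa_eq.1 hb)
      rw [h3, h4]
      have h5 : ∀ a b : ZMod 2, a + a + b + b = 0 := by decide
      exact h5 _ _
    · have h3 : (Finset.univ.filter (fun U : Finset D => M.Ham U ∧ Inv g U)) = ∅ := by
        rw [Finset.filter_eq_empty_iff]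
        intro U _ hU
        exact hex ⟨U, hU⟩
      rw [h3, Finset.card_empty]
      exact Even.zero
  · refine even_inv hM h (fold_rev h.sym.1 h2) (a := d) (b := M.α (g d)) (fun φ _ => ?_)
      (fun U hU hi f hf => rev_pair hM h h2 hU hi hf d)
    have h3 : M.α (g (M.α (g d))) = d := by rw [h.sym.1, M.α2, h.sq]
    rw [h3]
    have h5 : ∀ a b : ZMod 2, a + b + b + a = 0 := by decide
    exact h5 _ _

open Classical in
/-- **parity theorem**: the number of Hamilton circuits of a plane cubic map that has an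
automorphism of order two without fixed vertices and edges is even -/
theorem even_all (hM : M.Genus0) (h : Free2 M g) :
    Even (Finset.univ.filter (fun U : Finset D => M.Ham U)).card := by
  have himg : ∀ U : Finset D, (U.image g).image g = U := by
    intro U
    rw [Finset.image_image]
    have : (⇑g ∘ ⇑g) = id := funext h.sq
    rw [this, Finset.image_id]
  have h1 := Finset.sum_involution
    (s := Finset.univ.filter (fun U : Finset D => M.Ham U ∧ ¬ Inv g U))
    (f := fun _ => (1 : ZMod 2)) (fun U _ => U.image g) (fun a _ => by decide)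
    (fun U hU _ h2 => (Finset.mem_filter.1 hU).2.2 (inv_of_image h2))
    (fun U hU => by
      obtain ⟨-, h2, h3⟩ := Finset.mem_filter.1 hU
      refine Finset.mem_filter.2 ⟨Finset.mem_univ _, sym_ham h.sym h2, fun h4 => h3 ?_⟩
      have h5 := inv_image h4
      rw [himg] at h5
      exact inv_of_image h5.symm)
    (fun U _ => himg U)
  rw [Finset.sum_const, nsmul_eq_mul, mul_one] at h1
  have h2 := cast_even (even_inv_all hM h)
  have h3 := Finset.card_filter_add_card_filter_not
    (s := Finset.univ.filter (fun U : Finset D => M.Ham U)) (fun U => Inv g U)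
  rw [Finset.filter_filter, Finset.filter_filter] at h3
  rw [← ZMod.natCast_eq_zero_iff_even, ← h3, Nat.cast_add, h1, h2, add_zero]

end Pool.H19.SYM
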