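import Pool.Agent.Helper19.SYM.SymEven

/-! A reflection that fixes more than two darts fixes no Hamilton circuit. -/

set_option linter.unusedSectionVars false

namespace Pool.H19.SYM

open Pool.H64.NC Equiv

variable {D : Type*} [DecidableEq D] [Fintype D] {M : CubicMap D} {g : Perm D}

/-- at a fixed dart of a reversing automorphism -/
theorem fixed_vertex {U : Finset D} (hU : M.Clo U) (hi : Inv g U)
    (h2 : ∀ x, g (M.σ x) = M.σ (M.σ (g x))) {x : D} (hx : g x = x) :
    x ∈ U ∧ M.σ x ∉ U ∧ M.σ (M.σ x) ∉ U ∧ g (M.σ x) = M.σ (M.σ x) ∧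
      g (M.σ (M.σ x)) = M.σ x := by
  have e1 : g (M.σ x) = M.σ (M.σ x) := by rw [h2, hx]
  have e2 : g (M.σ (M.σ x)) = M.σ x := by rw [h2, e1, M.σ3]
  have h3 := hi (M.σ x)
  rw [e1] at h3
  rcases hU.2 x with ⟨a, b, c⟩ | ⟨a, b, c⟩ | ⟨a, b, c⟩
  · exact ⟨a, b, c, e1, e2⟩
  · exact absurd (h3.2 b) c
  · exact absurd (h3.1 c) b

theorem sw_fixed {U : Finset D} (hU : M.Clo U) {x : D} (h : x ∈ U ∧ M.σ x ∉ U ∧ M.σ (M.σ x) ∉ U) :
    sw M.σ U (M.σ x) = M.σ (M.σ x) ∧ sw M.σ U (M.σ (M.σ x)) = M.σ x := by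
  have h1 := (sw_spec hU h.2.1)
  have h2 : sw M.σ U (M.σ x) = M.σ (M.σ x) := by
    rcases h1.2.2 with ⟨h3, -⟩ | ⟨-, h3⟩
    · exact h3
    · exact absurd h3 h.2.2
  refine ⟨h2, ?_⟩
  rw [← h2]
  exact h1.2.1

theorem half {n a b : ℤ} (ha : n ∣ 2 * a) (ha' : ¬ n ∣ a) (hb : n ∣ 2 * b) (hb' : ¬ n ∣ b) :
    n ∣ a - b := by
  obtain ⟨s, hs⟩ := ha
  obtain ⟨t, ht⟩ := hb
  have h1 : s % 2 = 1 := by
    by_contra h
    apply ha'
    refine ⟨s / 2, ?_⟩
    have : s = 2 * (s / 2) := by omega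
    have h3 : 2 * a = 2 * (n * (s / 2)) := by
      calc 2 * a = n * s := hs
        _ = n * (2 * (s / 2)) := by rw [← this]
        _ = 2 * (n * (s / 2)) := by ring
    omega
  have h2 : t % 2 = 1 := by
    by_contra h
    apply hb'
    refine ⟨t / 2, ?_⟩
    have : t = 2 * (t / 2) := by omega
    have h3 : 2 * b = 2 * (n * (t / 2)) := by
      calc 2 * b = n * t := ht
        _ = n * (2 * (t / 2)) := by rw [← this]
        _ = 2 * (n * (t / 2)) := by ring
    omega
  refine ⟨(s - t) / 2, ?_⟩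
  have : s - t = 2 * ((s - t) / 2) := by omega
  have h3 : 2 * (a - b) = 2 * (n * ((s - t) / 2)) := by
    calc 2 * (a - b) = 2 * a - 2 * b := by ring
      _ = n * s - n * t := by rw [hs, ht]
      _ = n * (s - t) := by ring
      _ = n * (2 * ((s - t) / 2)) := by rw [← this]
      _ = 2 * (n * ((s - t) / 2)) := by ring
  omega

theorem half_orbit (π : Perm D) (y : D) {a b : ℤ} (ha : (π ^ (2 * a)) y = y)
    (ha' : (π ^ a) y ≠ y) (hb : (π ^ (2 * b)) y = y) (hb' : (π ^ b) y ≠ y) :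
    (π ^ a) y = (π ^ b) y := by
  have key : ∀ k : ℤ, (π ^ k) y = y ↔ (Function.minimalPeriod (π • ·) y : ℤ) ∣ k := fun k =>
    MulAction.zpow_smul_eq_iff_minimalPeriod_dvd (a := π) (b := y) (n := k)
  have h1 := (key _).2 (half ((key _).1 ha) (fun h => ha' ((key _).2 h)) ((key _).1 hb)
    (fun h => hb' ((key _).2 h)))
  have h2 : (π ^ a) y = (π ^ (b + (a - b))) y := by
    congr 2
    ring
  rw [h2, zpow_add, Perm.mul_apply, h1]

/-- an invariant circuit passes at most two fixed vertices -/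
theorem fix_le {U : Finset D} (hU : M.Ham U) (hi : Inv g U)
    (h1 : ∀ x, g (M.α x) = M.α (g x)) (h2 : ∀ x, g (M.σ x) = M.σ (M.σ (g x))) :
    (Finset.univ.filter (fun x => g x = x)).card ≤ 2 := by
  classical
  by_cases hex : ∃ x0, g x0 = x0
  swap
  · rw [Finset.filter_eq_empty_iff.2 (fun x _ hx => hex ⟨x, hx⟩)]
    simp
  obtain ⟨x0, hx0⟩ := hex
  have hg : g ∈ Sym M := ⟨h1, Or.inr h2⟩
  set τ := tau M hU.1 with hτ
  have c1 : g * M.permα = M.permα * g := by
    ext x; exact h1 x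
  have c2 : g * (sw_inv hU.1).toPerm = (sw_inv hU.1).toPerm * g := by
    ext x
    have := sym_sw hg hU.1 x
    rw [inv_image hi] at this
    exact this.symm
  have c3 : g * τ = τ * g := by
    rw [hτ]
    unfold tau
    rw [← mul_assoc, c2, mul_assoc, c1, mul_assoc]
  have c4 : ∀ k : ℤ, ∀ x, g ((τ ^ k) x) = (τ ^ k) (g x) := by
    intro k x
    have h3 : Commute g τ := c3
    have h4 := (h3.zpow_right k).eq
    exact congrArg (fun π : Perm D => π x) h4
  have c5 : ∀ k : ℤ, ∀ x, M.α ((τ ^ k) x) = (τ ^ (-k)) (M.α x) := by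
    intro k x
    exact congrArg (fun π : Perm D => π x) (mul_zpow_rel (alpha_tau hU.1) k)
  have c6 : ∀ x, sw M.σ U x = τ (M.α x) := fun x => sw_eq hU.1 x
  have hv0 := fixed_vertex hU.1 hi h2 hx0
  have hs0 := sw_fixed hU.1 ⟨hv0.1, hv0.2.1, hv0.2.2.1⟩
  set y0 := M.σ x0 with hy0
  have g0 : g y0 = τ (M.α y0) := by rw [← c6, hs0.1, hv0.2.2.2.1]
  -- the half turns of the circuit
  set Z : Finset D := Finset.univ.filter (fun z => ∃ j : ℤ, (τ ^ (2 * j)) y0 = y0 ∧
    z = (τ ^ j) y0) with hZ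
  have hZ2 : Z.card ≤ 2 := by
    have : Z ⊆ insert y0 (Z.erase y0) := by
      rw [Finset.insert_erase]
      rw [hZ, Finset.mem_filter]
      exact ⟨Finset.mem_univ _, 0, by simp, by simp⟩
    have h3 : (Z.erase y0).card ≤ 1 := by
      rw [Finset.card_le_one]
      intro a ha b hb
      rw [Finset.mem_erase, hZ, Finset.mem_filter] at ha hb
      obtain ⟨ha1, -, i, ha2, rfl⟩ := ha
      obtain ⟨hb1, -, j, hb2, rfl⟩ := hb
      exact half_orbit τ y0 ha2 ha1 hb2 hb1
    calc Z.card ≤ (insert y0 (Z.erase y0)).card := Finset.card_le_card this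
      _ ≤ (Z.erase y0).card + 1 := Finset.card_insert_le _ _
      _ ≤ 2 := by omega
  set S : Finset D := Finset.univ.filter (fun y => y ∉ U ∧ g y = sw M.σ U y) with hS
  have hSZ : S ⊆ Z ∪ Z.image (fun z => M.α ((τ ^ (-1 : ℤ)) z)) := by
    intro y hy
    rw [hS, Finset.mem_filter] at hy
    obtain ⟨-, hyU, hgy⟩ := hy
    rw [Finset.mem_union]
    rcases on_circuit hU hv0.2.1 hyU with ⟨j, hj⟩ | ⟨j, hj⟩
    · left
      rw [hZ, Finset.mem_filter]
      refine ⟨Finset.mem_univ _, j, ?_, hj⟩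
      have e1 : g y = (τ ^ (j + 1)) (M.α y0) := by
        rw [hj, c4, g0, zpow_add, zpow_one, Perm.mul_apply]
      have e2 : sw M.σ U y = (τ ^ (1 - j)) (M.α y0) := by
        rw [c6, hj, c5, sub_eq_add_neg, zpow_add, zpow_one, Perm.mul_apply]
      rw [e1, e2] at hgy
      have e3 := congrArg M.α hgy
      rw [c5, c5, M.α2] at e3
      have e4 := congrArg (τ ^ (j + 1)) e3
      rw [← Perm.mul_apply, ← Perm.mul_apply, ← zpow_add, ← zpow_add, add_neg_cancel, zpow_zero,
        Perm.one_apply] at e4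
      rw [show 2 * j = j + 1 + -(1 - j) by ring]
      exact e4.symm
    · right
      have e1 : g y = (τ ^ (j - 1)) y0 := by
        rw [hj, c4, h1, g0]
        have e5 := c5 1 (M.α y0)
        rw [zpow_one, M.α2] at e5
        rw [e5, ← Perm.mul_apply, ← zpow_add]
        rfl
      have e2 : sw M.σ U y = (τ ^ (1 - j)) y0 := by
        rw [c6, hj, c5, M.α2, sub_eq_add_neg, zpow_add, zpow_one, Perm.mul_apply]
      rw [e1, e2] at hgy
      have e4 := congrArg (τ ^ (j - 1)) hgy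
      rw [← Perm.mul_apply, ← Perm.mul_apply, ← zpow_add, ← zpow_add,
        show j - 1 + (1 - j) = 0 by ring, zpow_zero, Perm.one_apply,
        show j - 1 + (j - 1) = 2 * (j - 1) by ring] at e4
      rw [Finset.mem_image]
      refine ⟨(τ ^ (j - 1)) y0, ?_, ?_⟩
      · rw [hZ, Finset.mem_filter]
        exact ⟨Finset.mem_univ _, j - 1, e4, rfl⟩
      · -- `τ ^ (j-1) y0 = τ ^ (1-j) y0`
        rw [hgy, ← Perm.mul_apply, ← zpow_add, c5, hj]
        congr 2
        ring
  have hS4 : S.card ≤ 4 := by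
    calc S.card ≤ (Z ∪ Z.image (fun z => M.α ((τ ^ (-1 : ℤ)) z))).card := Finset.card_le_card hSZ
      _ ≤ Z.card + (Z.image (fun z => M.α ((τ ^ (-1 : ℤ)) z))).card := Finset.card_union_le _ _
      _ ≤ Z.card + Z.card := by
        have := Finset.card_image_le (s := Z) (f := fun z => M.α ((τ ^ (-1 : ℤ)) z))
        omega
      _ ≤ 4 := by omega
  set F : Finset D := Finset.univ.filter (fun x => g x = x) with hF
  have hFS : F.image M.σ ∪ F.image (fun x => M.σ (M.σ x)) ⊆ S := by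
    intro y hy
    rw [Finset.mem_union, Finset.mem_image, Finset.mem_image] at hy
    rw [hS, Finset.mem_filter]
    refine ⟨Finset.mem_univ _, ?_⟩
    rcases hy with ⟨x, hx, rfl⟩ | ⟨x, hx, rfl⟩
    · have hv := fixed_vertex hU.1 hi h2 (Finset.mem_filter.1 hx).2
      have hs := sw_fixed hU.1 ⟨hv.1, hv.2.1, hv.2.2.1⟩
      exact ⟨hv.2.1, by rw [hs.1, hv.2.2.2.1]⟩
    · have hv := fixed_vertex hU.1 hi h2 (Finset.mem_filter.1 hx).2
      have hs := sw_fixed hU.1 ⟨hv.1, hv.2.1, hv.2.2.1⟩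
      exact ⟨hv.2.2.1, by rw [hs.2, hv.2.2.2.2]⟩
  have hσ : Function.Injective M.σ := by
    intro a b hab
    have := congrArg (fun z => M.σ (M.σ z)) hab
    simp only [M.σ3] at this
    exact this
  have hdis : Disjoint (F.image M.σ) (F.image (fun x => M.σ (M.σ x))) := by
    rw [Finset.disjoint_left]
    intro y hy hy'
    obtain ⟨x, hx, rfl⟩ := Finset.mem_image.1 hy
    obtain ⟨x', hx', h3⟩ := Finset.mem_image.1 hy'
    have h4 := hσ h3
    have hv := fixed_vertex hU.1 hi h2 (Finset.mem_filter.1 hx).2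
    have hv' := fixed_vertex hU.1 hi h2 (Finset.mem_filter.1 hx').2
    rw [h4] at hv'
    exact hv'.2.1 hv.1
  have h5 := Finset.card_le_card hFS
  have h6 : (F.image (fun x => M.σ (M.σ x))).card = F.card :=
    Finset.card_image_of_injective _ (hσ.comp hσ)
  rw [Finset.card_union_of_disjoint hdis, Finset.card_image_of_injective _ hσ, h6] at h5
  omega

end Pool.H19.SYM
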