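import Pool.Agent.Helper19.SYM.Side

/-! Images of circuits under automorphisms that may reverse the orientation. -/

set_option linter.unusedSectionVars false

namespace Pool.H19.SYM

open Pool.H64.NC Equiv

variable {D : Type*} [DecidableEq D] {M : CubicMap D}

/-- the set `U` is invariant under `g` -/
def Inv (g : Perm D) (U : Finset D) : Prop := ∀ x, g x ∈ U ↔ x ∈ U

theorem sym_clo {g : Perm D} (hg : g ∈ Sym M) {U : Finset D} (hU : M.Clo U) :
    M.Clo (U.image g) := by
  refine ⟨fun x => ?_, fun x => ?_⟩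
  · obtain ⟨y, rfl⟩ := g.surjective x
    rw [← hg.1, mem_im, mem_im]
    exact hU.1 y
  · obtain ⟨y, rfl⟩ := g.surjective x
    have h := hU.2 y
    rcases hg.2 with h2 | h2
    · rw [← h2, ← h2, mem_im, mem_im, mem_im]
      exact h
    · have h3 : M.σ (g y) = g (M.σ (M.σ y)) := by rw [h2, h2, M.σ3]
      have h4 : M.σ (M.σ (g y)) = g (M.σ y) := (h2 y).symm
      rw [h4, h3, mem_im, mem_im, mem_im]
      unfold One3 at h ⊢
      tauto

theorem sym_sw {g : Perm D} (hg : g ∈ Sym M) {U : Finset D} (hU : M.Clo U) (x : D) :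
    sw M.σ (U.image g) (g x) = g (sw M.σ U x) := by
  rcases hg.2 with h2 | h2
  · exact sw_im ⟨hg.1, h2⟩ x
  · by_cases hx : x ∈ U
    · rw [sw_mem hx, sw_mem (mem_im.2 hx)]
    · have h3 : M.σ (g x) = g (M.σ (M.σ x)) := by rw [h2, h2, M.σ3]
      have h4 : M.σ (M.σ (g x)) = g (M.σ x) := (h2 x).symm
      have hx' : g x ∉ U.image g := fun h => hx (mem_im.1 h)
      have e1 : M.σ (g x) ∈ U.image g ↔ M.σ (M.σ x) ∈ U := by rw [h3, mem_im]
      have e2 : M.σ (M.σ (g x)) ∈ U.image g ↔ M.σ x ∈ U := by rw [h4, mem_im]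
      rcases hU.2 x with ⟨a, -, -⟩ | ⟨-, b, c⟩ | ⟨-, b, c⟩
      · exact absurd a hx
      · have l : sw M.σ (U.image g) (g x) = M.σ (g x) := by
          unfold sw
          rw [if_pos ⟨hx', fun h => c (e1.1 h), e2.2 b⟩]
        have r : sw M.σ U x = M.σ (M.σ x) := by
          unfold sw
          rw [if_neg (by tauto), if_pos ⟨hx, b, c⟩]
        rw [l, r, h3]
      · have l : sw M.σ (U.image g) (g x) = M.σ (M.σ (g x)) := by
          unfold sw
          rw [if_neg (fun h => h.2.1 (e1.2 c)), if_pos ⟨hx', e1.2 c, fun h => b (e2.1 h)⟩]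
        have r : sw M.σ U x = M.σ x := by
          unfold sw
          rw [if_pos ⟨hx, b, c⟩]
        rw [l, r, h4]

theorem sym_ae {g : Perm D} (hg : g ∈ Sym M) {U : Finset D} (x : D) :
    ae M.α (U.image g) (g x) = g (ae M.α U x) := by
  unfold ae
  rw [← hg.1]
  simp only [mem_im]
  split_ifs <;> rfl

theorem sym_conn {g : Perm D} (hg : g ∈ Sym M) {U : Finset D} (hU : M.Clo U) {x y : D}
    (h : Conn (sw M.σ U) (ae M.α U) x y) :
    Conn (sw M.σ (U.image g)) (ae M.α (U.image g)) (g x) (g y) := by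
  induction h with
  | rel a b hab =>
    rcases hab with rfl | rfl
    · rw [← sym_sw hg hU]; exact Conn.ms _
    · rw [← sym_ae hg]; exact Conn.ma _
  | refl a => exact Conn.refl _
  | symm a b _ ih => exact ih.symm
  | trans a b c _ _ ih1 ih2 => exact ih1.trans ih2

theorem sym_ham {g : Perm D} (hg : g ∈ Sym M) {U : Finset D} (hU : M.Ham U) :
    M.Ham (U.image g) := by
  refine ⟨sym_clo hg hU.1, fun x y hx hy => ?_⟩
  obtain ⟨x, rfl⟩ := g.surjective x
  obtain ⟨y, rfl⟩ := g.surjective y
  rw [mem_im] at hx hy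
  exact sym_conn hg hU.1 (hU.2 x y hx hy)

theorem inv_image {g : Perm D} {U : Finset D} (h : Inv g U) : U.image g = U := by
  ext y
  obtain ⟨x, rfl⟩ := g.surjective y
  rw [mem_im, h]

theorem inv_of_image {g : Perm D} {U : Finset D} (h : U.image g = U) : Inv g U := by
  intro x
  have := mem_im (g := g) (U := U) (x := x)
  rwa [h] at this

/-- the connection preserves unusedness -/
theorem conn_used {U : Finset D} (hU : M.Clo U) {x y : D}
    (h : Conn (sw M.σ U) (ae M.α U) x y) : x ∈ U ↔ y ∈ U := by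
  induction h with
  | rel a b hab =>
    rcases hab with rfl | rfl
    · by_cases ha : a ∈ U
      · rw [sw_mem ha]
      · exact ⟨fun h => absurd h ha, fun h => absurd h (sw_spec hU ha).1⟩
    · unfold ae
      split_ifs with h
      · exact ⟨fun h' => absurd h' h.1, fun h' => absurd h' h.2⟩
      · exact Iff.rfl
  | refl a => exact Iff.rfl
  | symm a b _ ih => exact ih.symm
  | trans a b c _ _ ih1 ih2 => exact ih1.trans ih2

end Pool.H19.SYM
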