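import Pool.Agent.Helper19.SYM.SymFix

/-! A reflection that fixes exactly one edge and flips none: the half map as a pole. -/

set_option linter.unusedSectionVars false

namespace Pool.H19.SYM

open Pool.H64.NC Equiv

variable {D : Type*} [DecidableEq D] [Fintype D] {M : CubicMap D} {g : Perm D}

/-- a reflection whose mirror contains exactly one edge and crosses none -/
structure Mir (M : CubicMap D) (g : Perm D) (x0 : D) : Prop where
  gen : M.Genus0
  card : 6 < Fintype.card D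
  gα : ∀ x, g (M.α x) = M.α (g x)
  gσ : ∀ x, g (M.σ x) = M.σ (M.σ (g x))
  sq : ∀ x, g (g x) = x
  ed : ∀ x, g x ≠ M.α x
  fix : g x0 = x0
  uniq : ∀ x, g x = x → x = x0 ∨ x = M.α x0

theorem σinj : Function.Injective M.σ := by
  intro a b hab
  have := congrArg (fun z => M.σ (M.σ z)) hab
  simp only [M.σ3] at this
  exact this

theorem αinj : Function.Injective M.α := by
  intro a b hab
  rw [← M.α2 a, hab, M.α2]

theorem Vx.symm {x y : D} (h : Vx M x y) : Vx M y x := by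
  rcases h with rfl | rfl | rfl
  · exact Or.inl rfl
  · exact Or.inr (Or.inr (M.σ3 _).symm)
  · exact Or.inr (Or.inl (M.σ3 _).symm)

theorem Vx.s_iff {x y : D} : Vx M x (M.σ y) ↔ Vx M x y := by
  refine ⟨fun h => ?_, Vx.s⟩
  have := h.s.s
  rwa [M.σ3] at this

namespace Mir

variable {x0 : D}

theorem gσσ (h : Mir M g x0) (x : D) : g (M.σ (M.σ x)) = M.σ (g x) := by
  rw [h.gσ, h.gσ, M.σ3]

theorem swap (h : Mir M g x0) : Mir M g (M.α x0) := by
  refine ⟨h.gen, h.card, h.gα, h.gσ, h.sq, h.ed, by rw [h.gα, h.fix], fun x hx => ?_⟩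
  rw [M.α2]
  exact (h.uniq x hx).symm

theorem vg {y : D} (h : Mir M g x0) (hy : Vx M x0 y) : Vx M x0 (g y) := by
  rcases hy with rfl | rfl | rfl
  · rw [h.fix]; exact Or.inl rfl
  · rw [h.gσ, h.fix]; exact Or.inr (Or.inr rfl)
  · rw [h.gσσ, h.fix]; exact Or.inr (Or.inl rfl)

theorem vg_iff {y : D} (h : Mir M g x0) : Vx M x0 (g y) ↔ Vx M x0 y := by
  refine ⟨fun hy => ?_, h.vg⟩
  have := h.vg hy
  rwa [h.sq] at this

/-- the two mirror vertices are different -/
theorem disj (h : Mir M g x0) {y : D} (h1 : Vx M x0 y) (h2 : Vx M (M.α x0) y) : False := by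
  have h3 : Vx M x0 (M.α x0) := by
    rcases h2 with rfl | rfl | rfl
    · exact h1
    · exact Vx.s_iff.1 h1
    · exact Vx.s_iff.1 (Vx.s_iff.1 h1)
  have h4 : g (M.α x0) = M.α x0 := by rw [h.gα, h.fix]
  rcases h3 with h5 | h5 | h5
  · exact M.α1 _ h5
  · rw [h5, h.gσ, h.fix] at h4
    exact M.σ1 _ h4
  · rw [h5, h.gσσ, h.fix] at h4
    exact M.σ1 _ h4.symm

/-- the darts of the mirror vertices -/
def V (M : CubicMap D) (x0 y : D) : Prop := Vx M x0 y ∨ Vx M (M.α x0) y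

theorem Vs {y : D} : V M x0 (M.σ y) ↔ V M x0 y := or_congr Vx.s_iff Vx.s_iff

theorem Vg (h : Mir M g x0) {y : D} : V M x0 (g y) ↔ V M x0 y := or_congr h.vg_iff h.swap.vg_iff

/-- the edges from the mirror vertices, except the mirror edge, lead to other vertices -/
theorem out (h : Mir M g x0) : ¬ V M x0 (M.α (M.σ x0)) := by
  intro hV
  have e1 : g (M.σ x0) = M.σ (M.σ x0) := by rw [h.gσ, h.fix]
  have e2 : g (M.α x0) = M.α x0 := by rw [h.gα, h.fix]
  have e3 : g (M.σ (M.α x0)) = M.σ (M.σ (M.α x0)) := by rw [h.gσ, e2]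
  have e4 : g (M.σ (M.σ (M.α x0))) = M.σ (M.α x0) := by rw [h.gσσ, e2]
  have e5 : M.α (M.σ (M.σ x0)) = g (M.α (M.σ x0)) := by rw [h.gα, e1]
  -- the six darts are closed under `α`
  have key : (M.α (M.σ x0) = M.σ (M.α x0) ∧ M.α (M.σ (M.σ x0)) = M.σ (M.σ (M.α x0))) ∨
      (M.α (M.σ x0) = M.σ (M.σ (M.α x0)) ∧ M.α (M.σ (M.σ x0)) = M.σ (M.α x0)) := by
    rcases hV with (h1 | h1 | h1) | (h1 | h1 | h1)
    · exfalso
      have h2 : M.σ x0 = M.α x0 := by
        have := congrArg M.α h1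
        rwa [M.α2] at this
      rw [h2, e2] at e1
      rw [← h2] at e1
      exact M.σ1 _ e1.symm
    · exact absurd h1 (M.α1 _)
    · exfalso
      rw [← e1] at h1
      exact h.ed _ h1.symm
    · exact absurd (αinj h1) (M.σ1 _)
    · left; exact ⟨h1, by rw [e5, h1, e3]⟩
    · right; exact ⟨h1, by rw [e5, h1, e4]⟩
  have hα : ∀ y, V M x0 y → V M x0 (M.α y) := by
    rintro y ((rfl | rfl | rfl) | (rfl | rfl | rfl))
    · exact Or.inr (Or.inl rfl)
    · rcases key with ⟨h1, h2⟩ | ⟨h1, h2⟩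
      · rw [h1]; exact Or.inr (Or.inr (Or.inl rfl))
      · rw [h1]; exact Or.inr (Or.inr (Or.inr rfl))
    · rcases key with ⟨h1, h2⟩ | ⟨h1, h2⟩
      · rw [h2]; exact Or.inr (Or.inr (Or.inr rfl))
      · rw [h2]; exact Or.inr (Or.inr (Or.inl rfl))
    · rw [M.α2]; exact Or.inl (Or.inl rfl)
    · rcases key with ⟨h1, h2⟩ | ⟨h1, h2⟩
      · rw [← h1, M.α2]; exact Or.inl (Or.inr (Or.inl rfl))
      · rw [← h2, M.α2]; exact Or.inl (Or.inr (Or.inr rfl))
    · rcases key with ⟨h1, h2⟩ | ⟨h1, h2⟩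
      · rw [← h2, M.α2]; exact Or.inl (Or.inr (Or.inr rfl))
      · rw [← h1, M.α2]; exact Or.inl (Or.inr (Or.inl rfl))
  have huniv := h.gen.1 {y | V M x0 y} ⟨x0, Or.inl (Or.inl rfl)⟩
    (fun y hy => ⟨Vs.2 hy, hα y hy⟩)
  have hsub : (Finset.univ : Finset D) ⊆ ({x0, M.σ x0, M.σ (M.σ x0), M.α x0, M.σ (M.α x0),
      M.σ (M.σ (M.α x0))} : Finset D) := by
    intro y _
    have hy : y ∈ {y | V M x0 y} := by rw [huniv]; exact Set.mem_univ y
    simp only [Finset.mem_insert, Finset.mem_singleton]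
    rcases hy with (h1 | h1 | h1) | (h1 | h1 | h1)
    all_goals tauto
  have h6 := Finset.card_le_card hsub
  have h7 : ({x0, M.σ x0, M.σ (M.σ x0), M.α x0, M.σ (M.α x0),
      M.σ (M.σ (M.α x0))} : Finset D).card ≤ 6 := Finset.card_le_six
  rw [Finset.card_univ] at h6
  have := h.card
  omega

/-- a vertex fixed by `g` is a mirror vertex -/
theorem nfix (h : Mir M g x0) {z : D} (hz : ¬ V M x0 z) : ¬ Vx M z (g z) := by
  have huV : ∀ y, g y = y → V M x0 y := by
    intro y hy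
    rcases h.uniq y hy with rfl | rfl
    · exact Or.inl (Or.inl rfl)
    · exact Or.inr (Or.inl rfl)
  rintro (h1 | h1 | h1)
  · exact hz (huV z h1)
  · have h2 : g (M.σ z) = z := by rw [← h1, h.sq]
    have h3 : g (M.σ (M.σ z)) = M.σ (M.σ z) := by rw [h.gσ, h2]
    exact hz (Vs.1 (Vs.1 (huV _ h3)))
  · have h3 : g (M.σ z) = M.σ z := by rw [h.gσ, h1, M.σ3]
    exact hz (Vs.1 (huV _ h3))

/-- darts of one vertex of each pair of vertices -/
theorem exists_T (h : Mir M g x0) : ∃ T : Finset D, (∀ x, M.σ x ∈ T ↔ x ∈ T) ∧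
    (∀ x, ¬ V M x0 x → (g x ∈ T ↔ x ∉ T)) ∧ ∀ x, V M x0 x → x ∉ T := by
  set e : D → ℕ := fun x => (Fintype.equivFin D x : ℕ) with he
  have hinj : ∀ x y, e x = e y → x = y := fun x y hxy =>
    (Fintype.equivFin D).injective (Fin.ext hxy)
  set r : D → ℕ := fun x => min (e x) (min (e (M.σ x)) (e (M.σ (M.σ x)))) with hr
  have r1 : ∀ x, r (M.σ x) = r x := by
    intro x
    show min (e (M.σ x)) (min (e (M.σ (M.σ x))) (e (M.σ (M.σ (M.σ x))))) =
      min (e x) (min (e (M.σ x)) (e (M.σ (M.σ x))))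
    rw [M.σ3]
    omega
  have r2 : ∀ x, ∃ y, Vx M x y ∧ r x = e y := by
    intro x
    rcases le_total (e x) (min (e (M.σ x)) (e (M.σ (M.σ x)))) with h1 | h1
    · exact ⟨x, Or.inl rfl, min_eq_left h1⟩
    · rcases le_total (e (M.σ x)) (e (M.σ (M.σ x))) with h2 | h2
      · exact ⟨M.σ x, Or.inr (Or.inl rfl), (min_eq_right h1).trans (min_eq_left h2)⟩
      · exact ⟨M.σ (M.σ x), Or.inr (Or.inr rfl), (min_eq_right h1).trans (min_eq_right h2)⟩
  have r3 : ∀ x, ¬ V M x0 x → r x ≠ r (g x) := by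
    intro x hxV hx
    obtain ⟨y, hy, hy2⟩ := r2 x
    obtain ⟨z, hz, hz2⟩ := r2 (g x)
    have hyz : y = z := hinj _ _ (by rw [← hy2, ← hz2, hx])
    subst hyz
    refine h.nfix hxV ?_
    rcases hz with rfl | rfl | rfl
    · exact hy
    · exact Vx.s_iff.1 hy
    · exact Vx.s_iff.1 (Vx.s_iff.1 hy)
  have r4 : ∀ x, r (g (M.σ x)) = r (g x) := by
    intro x
    rw [h.gσ, r1, r1]
  have r5 : ∀ x y, Vx M x y → r y = r x := by
    rintro x y (rfl | rfl | rfl)
    · rfl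
    · rw [r1]
    · rw [r1, r1]
  refine ⟨Finset.univ.filter (fun x => r x < r (g x)), fun x => ?_, fun x hx => ?_,
    fun x hx => ?_⟩
  · simp only [Finset.mem_filter, Finset.mem_univ, true_and]
    rw [r1, r4]
  · simp only [Finset.mem_filter, Finset.mem_univ, true_and]
    rw [h.sq]
    have := r3 x hx
    omega
  · simp only [Finset.mem_filter, Finset.mem_univ, true_and]
    have : r (g x) = r x := by
      rcases hx with hx | hx
      · rw [r5 _ _ (h.vg hx), r5 _ _ hx]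
      · rw [r5 _ _ (h.swap.vg hx), r5 _ _ hx]
    omega

end Mir

end Pool.H19.SYM
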