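import Pool.Agent.Helper19.SYM.SymMirQ

/-! Invariant Hamilton circuits and states of the half map. -/

set_option linter.unusedSectionVars false

namespace Pool.H19.SYM

open Pool.H64.NC Equiv

variable {D : Type*} [DecidableEq D] [Fintype D] {M : CubicMap D} {g : Perm D}

namespace Mir

variable {x0 : D} {T : Finset D}

/-- switch of the vertex stays at the vertex -/
theorem sw_vx {s : D → D} {U : Finset D} (x : D) :
    sw s U x = x ∨ sw s U x = s x ∨ sw s U x = s (s x) := by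
  unfold sw
  split_ifs
  · exact Or.inr (Or.inl rfl)
  · exact Or.inr (Or.inr rfl)
  · exact Or.inl rfl

theorem vx_sw {U : Finset D} {x y : D} (hy : Vx M x y) : Vx M x (sw M.σ U y) := by
  rcases sw_vx (s := M.σ) (U := U) y with h1 | h1 | h1
  · rw [h1]; exact hy
  · rw [h1]; exact hy.s
  · rw [h1]; exact hy.s.s

variable (h : Mir M g x0) (hT : MT M g x0 T)
include h

theorem α_fix {U : Finset D} (hU : M.Clo U) (hi : Inv g U) :
    (x0 ∈ U ∧ M.σ x0 ∉ U ∧ M.σ (M.σ x0) ∉ U) ∧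
      (M.α x0 ∈ U ∧ M.σ (M.α x0) ∉ U ∧ M.σ (M.σ (M.α x0)) ∉ U) := by
  have h1 := fixed_vertex hU hi h.gσ h.fix
  have h2 := fixed_vertex hU hi h.gσ h.swap.fix
  exact ⟨⟨h1.1, h1.2.1, h1.2.2.1⟩, ⟨h2.1, h2.2.1, h2.2.2.1⟩⟩

theorem UV {U : Finset D} (hU : M.Clo U) (hi : Inv g U) {y : D} (hy : y ∈ U)
    (hV : V M x0 y) : y = x0 ∨ y = M.α x0 := by
  obtain ⟨⟨a1, a2, a3⟩, b1, b2, b3⟩ := h.α_fix hU hi
  rcases hV with (h1 | h1 | h1) | (h1 | h1 | h1)
  · exact Or.inl h1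
  · rw [h1] at hy; exact absurd hy a2
  · rw [h1] at hy; exact absurd hy a3
  · exact Or.inr h1
  · rw [h1] at hy; exact absurd hy b2
  · rw [h1] at hy; exact absurd hy b3

include hT

theorem PU {U : Finset D} (hi : Inv g U) {y : D} (h1 : y ≠ x0) (h2 : y ≠ M.α x0) :
    P M g x0 T y ∈ U ↔ y ∈ U := by
  rcases P_or h hT h1 h2 with h3 | h3
  · rw [h3]
  · rw [h3, hi]

theorem UT {U : Finset D} (hU : M.Clo U) (hi : Inv g U) {y : D} (hy : y ∈ U)
    (h1 : y ≠ x0) (h2 : y ≠ M.α x0) : P M g x0 T y ∈ T := by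
  rcases cases4 h hT y with h3 | h3 | h3 | h3
  · rw [P_T h hT h3]; exact h3
  · rw [P_gT h hT h3]; exact h3
  · rcases h.UV hU hi hy (Or.inl h3) with h4 | h4
    · exact absurd h4 h1
    · exact absurd h4 h2
  · rcases h.UV hU hi hy (Or.inr h3) with h4 | h4
    · exact absurd h4 h1
    · exact absurd h4 h2

theorem state_closed {U : Finset D} (hU : M.Clo U) (hi : Inv g U) :
    (pole h hT).Closed (U.filter (fun x => x ∈ T)) := by
  refine ⟨fun x hx => ?_, fun x hx => ?_, fun x => ?_⟩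
  · have hxT := (pole_mT h hT).1 hx
    have h1 := (hT.s x).2 hxT
    have h2 := (hT.s _).2 h1
    rw [pole_σT h hT hxT, pole_σT h hT h1]
    simp only [Finset.mem_filter, hxT, h1, h2, and_true]
    exact hU.2 x
  · obtain ⟨h1, h2⟩ := Finset.mem_filter.1 hx
    exact (pole h hT).am x ((pole_mT h hT).2 h2)
  · by_cases hx : W M x0 T x
    · obtain ⟨h1, h2⟩ := W_α h hT hx
      rw [pole_aW h hT hx, Finset.mem_filter, Finset.mem_filter, PU h hT hi h1 h2, ← hU.1]
      constructor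
      · rintro ⟨h3, h4⟩
        exact ⟨h3, UT h hT hU hi ((hU.1 x).1 h3) h1 h2⟩
      · rintro ⟨h3, h4⟩
        refine ⟨h3, ?_⟩
        rcases hx with h5 | h5 | h5
        · exact h5
        · rw [h5] at h3; exact absurd h3 (h.α_fix hU hi).1.2.1
        · rw [h5] at h3; exact absurd h3 (h.α_fix hU hi).2.2.1
    · rw [pole_an h hT hx]

theorem sw_T {U Z : Finset D} (hZ : ∀ x ∈ T, (x ∈ Z ↔ x ∈ U)) {a : D} (ha : a ∈ T) :
    sw (pole h hT).σ Z a = sw M.σ U a := by
  have h1 := (hT.s a).2 ha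
  have h2 := (hT.s _).2 h1
  unfold sw
  rw [pole_σT h hT ha, pole_σT h hT h1]
  simp only [hZ a ha, hZ _ h1, hZ _ h2]

theorem sw_mT {U : Finset D} {a : D} (ha : a ∈ T) : sw M.σ U a ∈ T := by
  have h1 := (hT.s a).2 ha
  rcases sw_vx (s := M.σ) (U := U) a with h3 | h3 | h3
  · rw [h3]; exact ha
  · rw [h3]; exact h1
  · rw [h3]; exact (hT.s _).2 h1

theorem state_cov {U : Finset D} (hU : M.Ham U) (hi : Inv g U) :
    (pole h hT).Cov (U.filter (fun x => x ∈ T)) := by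
  intro x hx hxZ
  have hxT := (pole_mT h hT).1 hx
  have hxU : x ∉ U := fun h1 => hxZ (Finset.mem_filter.2 ⟨h1, hxT⟩)
  refine ⟨0, ?_⟩
  have hZ : ∀ x ∈ T, (x ∈ U.filter (fun x => x ∈ T) ↔ x ∈ U) := by
    intro x hx
    rw [Finset.mem_filter]
    exact ⟨fun h => h.1, fun h => ⟨h, hx⟩⟩
  obtain ⟨⟨a1, a2, a3⟩, b1, b2, b3⟩ := h.α_fix hU.1 hi
  have hne : ∀ {a : D}, a ∉ U → a ≠ x0 ∧ a ≠ M.α x0 := by
    intro a ha
    exact ⟨fun h => ha (h ▸ a1), fun h => ha (h ▸ b1)⟩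
  have keyT : ∀ a ∈ T, (pole h hT).R (U.filter (fun x => x ∈ T)) (P M g x0 T a)
      (P M g x0 T (sw M.σ U a)) := by
    intro a ha
    rw [P_T h hT ha, P_T h hT (sw_mT h hT ha), ← sw_T h hT hZ ha]
    exact Conn.ms _
  have h1 := conn_map (r := (pole h hT).R (U.filter (fun x => x ∈ T)))
    conn_equiv (P M g x0 T) (fun a => by
      rcases cases4 h hT a with h3 | h3 | h3 | h3
      · exact keyT a h3
      · have h4 := keyT (g a) h3
        have h5 := sym_sw (M := M) (g := g) ⟨h.gα, Or.inr h.gσ⟩ hU.1 a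
        rw [inv_image hi] at h5
        rwa [h5, P_g h hT, P_g h hT] at h4
      · rw [P_V1 h hT h3, P_V1 h hT (vx_sw h3)]
        exact Conn.refl _
      · rw [P_V2 h hT h3, P_V2 h hT (vx_sw h3)]
        exact Conn.refl _) (fun a => by
      by_cases ha : a ∉ U ∧ M.α a ∉ U
      · have e : ae M.α U a = M.α a := if_pos ha
        obtain ⟨n1, n2⟩ := hne ha.1
        obtain ⟨n3, n4⟩ := hne ha.2
        rw [e, ← P_α h hT n1 n2, ← pole_aW h hT (P_W h hT a)]
        have u1 : P M g x0 T a ∉ U.filter (fun x => x ∈ T) := fun h3 =>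
          ha.1 ((PU h hT hi n1 n2).1 (Finset.mem_filter.1 h3).1)
        have u2 : (pole h hT).a (P M g x0 T a) ∉ U.filter (fun x => x ∈ T) := fun h3 => by
          rw [pole_aW h hT (P_W h hT a), P_α h hT n1 n2] at h3
          exact ha.2 ((PU h hT hi n3 n4).1 (Finset.mem_filter.1 h3).1)
        have e2 := Pole.ae_used (p := pole h hT) u1 u2
        have e3 : (pole h hT).R (U.filter (fun x => x ∈ T)) (P M g x0 T a)
            (ae (pole h hT).a (U.filter (fun x => x ∈ T)) (P M g x0 T a)) := Conn.ma _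
        rwa [e2] at e3
      · have e : ae M.α U a = a := if_neg ha
        rw [e]
        exact Conn.refl _) (hU.2 x (M.σ x0) hxU a2)
  rw [P_T h hT hxT, P_V1 h hT (Or.inr (Or.inl rfl))] at h1
  exact h1

end Mir

end Pool.H19.SYM
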