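import Pool.Agent.Helper19.SYM.SymMirC

/-! Invariant Hamilton circuits and states of the half map: the other direction, parity. -/

set_option linter.unusedSectionVars false

namespace Pool.H19.SYM

open Pool.H64.NC Equiv

variable {D : Type*} [DecidableEq D] [Fintype D] {M : CubicMap D} {g : Perm D}

namespace Mir

variable {x0 : D} {T : Finset D}

/-- the invariant set of darts of a state -/
noncomputable def lft (M : CubicMap D) (g : Perm D) (x0 : D) (T Z : Finset D) : Finset D :=
  Finset.univ.filter (fun x => P M g x0 T x ∈ Z ∨ x = x0 ∨ x = M.α x0)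

theorem mem_lft {Z : Finset D} {x : D} :
    x ∈ lft M g x0 T Z ↔ P M g x0 T x ∈ Z ∨ x = x0 ∨ x = M.α x0 := by
  simp only [lft, Finset.mem_filter, Finset.mem_univ, true_and]

theorem fin2 : ∀ t : Fin 2 → Fin 2, (∀ i, t (t i) = i) → (t 0 = 0 ∧ t 1 = 1) ∨ (t 0 = 1 ∧ t 1 = 0) := by
  decide

variable (h : Mir M g x0) (hT : MT M g x0 T)
include h hT

/-- both legs are used -/
theorem legs {Z : Finset D} (hc : (pole h hT).Closed Z) (hv : (pole h hT).Cov Z) :
    (pole h hT).trace Z 0 = 1 ∧ (pole h hT).trace Z 1 = 0 := by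
  rcases fin2 _ (Pole.trace_trace hc) with ⟨h0, h1⟩ | h1
  · exfalso
    have m : ∀ i, (pole h hT).m i ∈ Z := by
      intro i
      by_contra hi
      have h2 := (Pole.trace_used hc hi).1
      fin_cases i
      · exact h2 h0
      · exact h2 h1
    -- a used dart
    have h3 := P_ασ1 h hT
    set y := P M g x0 T (M.α (M.σ x0)) with hy
    have h4 := hc.1 y ((pole_mT h hT).2 h3)
    have hs : ∃ z, z ∈ T ∧ z ∉ Z := by
      by_cases hyZ : y ∈ Z
      · refine ⟨M.σ y, (hT.s y).2 h3, fun h5 => ?_⟩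
        rw [pole_σT h hT h3] at h4
        unfold One3 at h4
        tauto
      · exact ⟨y, h3, hyZ⟩
    obtain ⟨z, hz1, hz2⟩ := hs
    obtain ⟨i, hi⟩ := hv z ((pole_mT h hT).2 hz1) hz2
    have h5 := Pole.R_iso' (m i) hi
    rw [h5] at hz2
    exact hz2 (m i)
  · exact h1

theorem sub_T {Z : Finset D} (hc : (pole h hT).Closed Z) (hv : (pole h hT).Cov Z) {x : D}
    (hx : x ∈ Z) : x ∈ T := by
  obtain ⟨t0, t1⟩ := legs h hT hc hv
  have h1 := hc.2.1 x hx
  have h2 : W M x0 T x := by
    by_contra h2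
    exact h1 (pole_an h hT h2)
  rcases h2 with h3 | h3 | h3
  · exact h3
  · exfalso
    have h4 : (pole h hT).m 0 ∉ Z := Pole.trace_notmem (by rw [t0]; decide)
    rw [h3] at hx
    exact h4 hx
  · exfalso
    have h4 : (pole h hT).m 1 ∉ Z := Pole.trace_notmem (by rw [t1]; decide)
    rw [h3] at hx
    exact h4 hx

theorem lft_fil {Z : Finset D} (hZ : ∀ x ∈ Z, x ∈ T) :
    (lft M g x0 T Z).filter (fun x => x ∈ T) = Z := by
  ext x
  rw [Finset.mem_filter, mem_lft]
  constructor
  · rintro ⟨h1 | h1 | h1, h2⟩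
    · rwa [P_T h hT h2] at h1
    · exact absurd h2 (hT.v _ (Or.inl (Or.inl h1)))
    · exact absurd h2 (hT.v _ (Or.inr (Or.inl h1)))
  · intro hx
    have h1 := hZ x hx
    exact ⟨Or.inl (by rw [P_T h hT h1]; exact hx), h1⟩

theorem fil_lft {U : Finset D} (hU : M.Clo U) (hi : Inv g U) :
    lft M g x0 T (U.filter (fun x => x ∈ T)) = U := by
  ext x
  rw [mem_lft]
  by_cases h1 : x = x0
  · subst h1
    exact ⟨fun _ => (h.α_fix hU hi).1.1, fun _ => Or.inr (Or.inl rfl)⟩
  by_cases h2 : x = M.α x0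
  · subst h2
    exact ⟨fun _ => (h.α_fix hU hi).2.1, fun _ => Or.inr (Or.inr rfl)⟩
  rw [Finset.mem_filter, PU h hT hi h1 h2]
  constructor
  · rintro (h3 | h3 | h3)
    · exact h3.1
    · exact absurd h3 h1
    · exact absurd h3 h2
  · intro h3
    exact Or.inl ⟨h3, UT h hT hU hi h3 h1 h2⟩

theorem lft_inv (Z : Finset D) : Inv g (lft M g x0 T Z) := by
  intro x
  have e1 : g x = x0 ↔ x = x0 := by
    constructor
    · intro h1
      rw [← h.sq x, h1, h.fix]
    · rintro rfl
      exact h.fix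
  have e2 : g x = M.α x0 ↔ x = M.α x0 := by
    constructor
    · intro h1
      rw [← h.sq x, h1, h.swap.fix]
    · rintro rfl
      exact h.swap.fix
  rw [mem_lft, mem_lft, P_g h hT, e1, e2]

theorem notV {Z : Finset D} (hZ : ∀ x ∈ Z, x ∈ T) {y : D} (hy : V M x0 y) :
    y ∈ lft M g x0 T Z ↔ y = x0 ∨ y = M.α x0 := by
  rw [mem_lft]
  constructor
  · rintro (h1 | h1)
    · exfalso
      have h2 := hZ _ h1
      rcases hy with h3 | h3
      · rw [P_V1 h hT h3] at h2
        exact nT1 h hT h2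
      · rw [P_V2 h hT h3] at h2
        exact nT2 h hT h2
    · exact h1
  · exact Or.inr

theorem memT {Z : Finset D} {y : D} (hy : y ∈ T) : y ∈ lft M g x0 T Z ↔ y ∈ Z := by
  rw [mem_lft, P_T h hT hy]
  constructor
  · rintro (h1 | h1 | h1)
    · exact h1
    · exact absurd hy (hT.v _ (Or.inl (Or.inl h1)))
    · exact absurd hy (hT.v _ (Or.inr (Or.inl h1)))
  · exact Or.inl

theorem vx_one {U : Finset D} {z : D} (h1 : z ∈ U) (h2 : M.σ z ∉ U) (h3 : M.σ (M.σ z) ∉ U)
    {y : D} (hy : Vx M z y) : One3 (y ∈ U) (M.σ y ∈ U) (M.σ (M.σ y) ∈ U) := by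
  rcases hy with rfl | rfl | rfl
  · exact Or.inl ⟨h1, h2, h3⟩
  · rw [M.σ3]; exact Or.inr (Or.inr ⟨h2, h3, h1⟩)
  · rw [M.σ3]; exact Or.inr (Or.inl ⟨h3, h1, h2⟩)

theorem lft_clo {Z : Finset D} (hc : (pole h hT).Closed Z) (hZ : ∀ x ∈ Z, x ∈ T) :
    M.Clo (lft M g x0 T Z) := by
  have hi := lft_inv h hT Z
  have n1 : M.σ x0 ≠ M.α x0 := fun h1 => h.disj (y := M.σ x0) (Or.inr (Or.inl rfl)) (Or.inl h1)
  have n2 : M.σ (M.σ x0) ≠ M.α x0 := fun h1 =>
    h.disj (y := M.σ (M.σ x0)) (Or.inr (Or.inr rfl)) (Or.inl h1)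
  have n3 : M.σ (M.σ x0) ≠ x0 := fun h1 => M.σ1 x0 (by
    have := congrArg M.σ h1
    rw [M.σ3] at this
    exact this.symm)
  have n4 : M.σ (M.α x0) ≠ x0 := fun h1 =>
    h.disj (y := x0) (Or.inl rfl) (Or.inr (Or.inl h1.symm))
  have n5 : M.σ (M.σ (M.α x0)) ≠ x0 := fun h1 =>
    h.disj (y := x0) (Or.inl rfl) (Or.inr (Or.inr h1.symm))
  have n6 : M.σ (M.σ (M.α x0)) ≠ M.α x0 := fun h1 => M.σ1 (M.α x0) (by
    have := congrArg M.σ h1
    rw [M.σ3] at this
    exact this.symm)
  refine ⟨fun x => ?_, ?_⟩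
  · by_cases h1 : x = x0
    · subst h1
      rw [mem_lft, mem_lft]
      exact ⟨fun _ => Or.inr (Or.inr rfl), fun _ => Or.inr (Or.inl rfl)⟩
    by_cases h2 : x = M.α x0
    · subst h2
      rw [mem_lft, mem_lft, M.α2]
      exact ⟨fun _ => Or.inr (Or.inl rfl), fun _ => Or.inr (Or.inr rfl)⟩
    have h3 : M.α x ≠ x0 := fun h3 => h2 (by rw [← h3, M.α2])
    have h4 : M.α x ≠ M.α x0 := fun h4 => h1 (αinj h4)
    have h5 := hc.2.2 (P M g x0 T x)
    rw [pole_aW h hT (P_W h hT x), P_α h hT h1 h2] at h5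
    rw [mem_lft, mem_lft]
    constructor
    · rintro (h6 | h6 | h6)
      · exact Or.inl (h5.1 h6)
      · exact absurd h6 h1
      · exact absurd h6 h2
    · rintro (h6 | h6 | h6)
      · exact Or.inl (h5.2 h6)
      · exact absurd h6 h3
      · exact absurd h6 h4
  · have key : ∀ x ∈ T, One3 (x ∈ lft M g x0 T Z) (M.σ x ∈ lft M g x0 T Z)
        (M.σ (M.σ x) ∈ lft M g x0 T Z) := by
      intro x hx
      have h1 := (hT.s x).2 hx
      have h2 := (hT.s _).2 h1
      have h3 := hc.1 x ((pole_mT h hT).2 hx)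
      rw [pole_σT h hT hx, pole_σT h hT h1] at h3
      rw [memT h hT hx, memT h hT h1, memT h hT h2]
      exact h3
    intro x
    rcases cases4 h hT x with hx | hx | hx | hx
    · exact key x hx
    · have h1 := key (g x) hx
      have e1 : M.σ (g x) = g (M.σ (M.σ x)) := (h.gσσ x).symm
      have e2 : M.σ (M.σ (g x)) = g (M.σ x) := (h.gσ x).symm
      rw [e2, e1, hi, hi, hi] at h1
      unfold One3 at h1 ⊢
      tauto
    · have v0 : V M x0 x0 := Or.inl (Or.inl rfl)
      exact vx_one h hT ((notV h hT hZ v0).2 (Or.inl rfl))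
        (fun h1 => by
          rcases (notV h hT hZ (Vs.2 v0)).1 h1 with h2 | h2
          · exact M.σ1 _ h2
          · exact n1 h2)
        (fun h1 => by
          rcases (notV h hT hZ (Vs.2 (Vs.2 v0))).1 h1 with h2 | h2
          · exact n3 h2
          · exact n2 h2) hx
    · have v0 : V M x0 (M.α x0) := Or.inr (Or.inl rfl)
      exact vx_one h hT ((notV h hT hZ v0).2 (Or.inr rfl))
        (fun h1 => by
          rcases (notV h hT hZ (Vs.2 v0)).1 h1 with h2 | h2
          · exact n4 h2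
          · exact M.σ1 _ h2)
        (fun h1 => by
          rcases (notV h hT hZ (Vs.2 (Vs.2 v0))).1 h1 with h2 | h2
          · exact n5 h2
          · exact n6 h2) hx

/-- the circuit over a state is a Hamilton circuit -/
theorem lft_ham {Z : Finset D} (hc : (pole h hT).Closed Z) (hv : (pole h hT).Cov Z) :
    M.Ham (lft M g x0 T Z) := by
  have hZ : ∀ x ∈ Z, x ∈ T := fun x hx => sub_T h hT hc hv hx
  have hU := lft_clo h hT hc hZ
  have hi := lft_inv h hT Z
  obtain ⟨t0, t1⟩ := legs h hT hc hv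
  obtain ⟨⟨a1, a2, a3⟩, b1, b2, b3⟩ := h.α_fix hU hi
  set U := lft M g x0 T Z with hUd
  have hmT : ∀ x ∈ T, (x ∈ Z ↔ x ∈ U) := fun x hx => (memT h hT hx).symm
  have hg : ∀ {x y}, Conn (sw M.σ U) (ae M.α U) x y → Conn (sw M.σ U) (ae M.α U) (g x) (g y) := by
    intro x y hxy
    have := sym_conn (M := M) (g := g) ⟨h.gα, Or.inr h.gσ⟩ hU hxy
    rwa [inv_image hi] at this
  have hE : Equivalence (fun a b : D => Conn (sw M.σ U) (ae M.α U) a b ∨
      Conn (sw M.σ U) (ae M.α U) a (g b)) := by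
    refine ⟨fun t => Or.inl (Conn.refl _), ?_, ?_⟩
    · rintro t u (h1 | h1)
      · exact Or.inl h1.symm
      · right
        have := (hg h1).symm
        rwa [h.sq] at this
    · rintro t u v (h1 | h1) (h2 | h2)
      · exact Or.inl (h1.trans h2)
      · exact Or.inr (h1.trans h2)
      · exact Or.inr (h1.trans (hg h2))
      · left
        have := h1.trans (hg h2)
        rwa [h.sq] at this
  have lift : ∀ {a b : D}, (pole h hT).R Z a b → Conn (sw M.σ U) (ae M.α U) a b ∨
      Conn (sw M.σ U) (ae M.α U) a (g b) := by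
    intro a b hab
    refine conn_le hE (fun a => ?_) (fun a => ?_) hab
    · by_cases ha : a ∈ T
      · left
        rw [sw_T h hT hmT ha]
        exact Conn.ms _
      · left
        rw [Pole.sw_leg (pole_σn h hT ha)]
        exact Conn.refl _
    · by_cases ha : a ∉ Z ∧ (pole h hT).a a ∉ Z
      · have e : ae (pole h hT).a Z a = (pole h hT).a a := if_pos ha
        rw [e]
        by_cases hW : W M x0 T a
        · obtain ⟨n1, n2⟩ := W_α h hT hW
          have aU : a ∉ U := by
            intro h1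
            have h2 := (mem_lft.1 h1).resolve_right (by
              rintro (h3 | h3)
              · rcases hW with h4 | h4 | h4
                · exact hT.v _ (Or.inl (Or.inl h3)) h4
                · exact M.σ1 _ (h4.symm.trans h3)
                · exact h.disj (y := a) (Or.inl h3) (Or.inr (Or.inl h4))
              · rcases hW with h4 | h4 | h4
                · exact hT.v _ (Or.inr (Or.inl h3)) h4
                · exact h.disj (y := a) (Or.inr (Or.inl h4)) (Or.inl h3)
                · exact M.σ1 _ (h4.symm.trans h3))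
            rw [W_P h hT hW] at h2
            exact ha.1 h2
          have bU : M.α a ∉ U := fun h1 => aU ((hU.1 a).2 h1)
          have e2 : ae M.α U a = M.α a := if_pos ⟨aU, bU⟩
          have e3 := Conn.ma (s := sw M.σ U) (a := ae M.α U) a
          rw [e2] at e3
          rw [pole_aW h hT hW]
          rcases P_or h hT n1 n2 with h3 | h3
          · rw [h3]; exact Or.inl e3
          · rw [h3, h.sq]; exact Or.inr e3
        · rw [pole_an h hT hW]
          exact Or.inl (Conn.refl _)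
      · have e : ae (pole h hT).a Z a = a := if_neg ha
        rw [e]
        exact Or.inl (Conn.refl _)
  -- the two darts of the first mirror vertex are connected
  have hs := (sw_fixed hU ⟨a1, a2, a3⟩).1
  have g1 : g (M.σ x0) = M.σ (M.σ x0) := by rw [h.gσ, h.fix]
  have c0 : Conn (sw M.σ U) (ae M.α U) (M.σ x0) (g (M.σ x0)) := by
    rw [g1, ← hs]
    exact Conn.ms _
  have c1 := lift ((Pole.trace_used hc (i := 1) (Pole.trace_notmem (by rw [t1]; decide))).2.1)
  rw [t1, pole_m0, pole_m1] at c1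
  -- everything is connected to the first mirror vertex, up to `g`
  have hP : ∀ x, x ∉ U → Conn (sw M.σ U) (ae M.α U) (P M g x0 T x) (M.σ x0) ∨
      Conn (sw M.σ U) (ae M.α U) (P M g x0 T x) (g (M.σ x0)) := by
    intro x hx
    have hxZ : P M g x0 T x ∉ Z := fun h1 => hx (mem_lft.2 (Or.inl h1))
    rcases P_W h hT x with h1 | h1 | h1
    · obtain ⟨i, hi⟩ := hv _ ((pole_mT h hT).2 h1) hxZ
      have h2 := lift hi
      fin_cases i
      · exact h2
      · exact hE.trans h2 c1
    · rw [h1]; exact Or.inl (Conn.refl _)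
    · rw [h1]; exact c1
  have hall : ∀ x, x ∉ U → Conn (sw M.σ U) (ae M.α U) x (M.σ x0) := by
    intro x hx
    have n1 : x ≠ x0 := fun h1 => hx (h1 ▸ a1)
    have n2 : x ≠ M.α x0 := fun h1 => hx (h1 ▸ b1)
    have h1 : Conn (sw M.σ U) (ae M.α U) (P M g x0 T x) (M.σ x0) := by
      rcases hP x hx with h2 | h2
      · exact h2
      · exact h2.trans c0.symm
    rcases P_or h hT n1 n2 with h3 | h3
    · rwa [h3] at h1
    · rw [h3] at h1
      have h4 := hg h1
      rw [h.sq] at h4
      exact h4.trans c0.symm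
  exact ⟨hU, fun x y hx hy => (hall x hx).trans (hall y hy).symm⟩

omit hT in
open Classical in
/-- the number of invariant Hamilton circuits is even -/
theorem even_inv : Even (Finset.univ.filter (fun U : Finset D => M.Ham U ∧ Inv g U)).card := by
  obtain ⟨T, hT1, hT2, hT3⟩ := h.exists_T
  have hT : MT M g x0 T := ⟨hT1, hT2, hT3⟩
  have hpar := Pole.parity (pole h hT) (fun o => if o 0 = none ∧ o 1 = some 1 then 1 else 0) (by
    intro W u i j k hw
    exfalso
    have := hw.ij
    have := hw.jk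
    have := hw.ik
    omega)
  have h1 : ∀ Z ∈ Finset.univ.filter (fun Z => (pole h hT).Closed Z ∧ (pole h hT).Cov Z),
      ∑ x, (if opn ((pole h hT).trace Z) x 0 = none ∧ opn ((pole h hT).trace Z) x 1 = some 1
        then (1 : ZMod 2) else 0) = 1 := by
    intro Z hZ
    obtain ⟨hcl, hcov⟩ := (Finset.mem_filter.1 hZ).2
    obtain ⟨t0, t1⟩ := legs h hT hcl hcov
    rw [Fin.sum_univ_two]
    unfold opn
    rw [t0, t1]
    decide
  rw [Finset.sum_congr rfl h1, Finset.sum_const, nsmul_eq_mul, mul_one] at hpar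
  have h2 := (ZMod.natCast_eq_zero_iff_even).1 hpar
  have h3 : (Finset.univ.filter (fun Z => (pole h hT).Closed Z ∧ (pole h hT).Cov Z)).card =
      (Finset.univ.filter (fun U : Finset D => M.Ham U ∧ Inv g U)).card := by
    refine Finset.card_bij (fun Z _ => lft M g x0 T Z) ?_ ?_ ?_
    · intro Z hZ
      obtain ⟨-, hc, hv⟩ := Finset.mem_filter.1 hZ
      exact Finset.mem_filter.2 ⟨Finset.mem_univ _, lft_ham h hT hc hv, lft_inv h hT Z⟩
    · intro Z1 hZ1 Z2 hZ2 h12
      obtain ⟨-, hc1, hv1⟩ := Finset.mem_filter.1 hZ1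
      obtain ⟨-, hc2, hv2⟩ := Finset.mem_filter.1 hZ2
      rw [← lft_fil h hT (Z := Z1) (fun x hx => sub_T h hT hc1 hv1 hx),
        ← lft_fil h hT (Z := Z2) (fun x hx => sub_T h hT hc2 hv2 hx)]
      exact congrArg (fun U : Finset D => U.filter (fun x => x ∈ T)) h12
    · intro U hU
      obtain ⟨-, hH, hi⟩ := Finset.mem_filter.1 hU
      refine ⟨U.filter (fun x => x ∈ T), ?_, fil_lft h hT hH.1 hi⟩
      exact Finset.mem_filter.2 ⟨Finset.mem_univ _, state_closed h hT hH.1 hi,
        state_cov h hT hH hi⟩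
  rwa [h3] at h2

end Mir

end Pool.H19.SYM
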