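import Pool.Agent.Helper19.SYM.SymMir

/-! The half map as a pole with two legs. -/

set_option linter.unusedSectionVars false

namespace Pool.H19.SYM

open Pool.H64.NC Equiv

variable {D : Type*} [DecidableEq D] [Fintype D] {M : CubicMap D} {g : Perm D}

namespace Mir

variable {x0 : D} {T : Finset D}

/-- `T` contains the darts of one vertex of each pair of vertices that are not mirror vertices -/
structure MT (M : CubicMap D) (g : Perm D) (x0 : D) (T : Finset D) : Prop where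
  s : ∀ x, M.σ x ∈ T ↔ x ∈ T
  g : ∀ x, ¬ V M x0 x → (g x ∈ T ↔ x ∉ T)
  v : ∀ x, V M x0 x → x ∉ T

open Classical in
/-- the representative of a dart -/
noncomputable def P (M : CubicMap D) (g : Perm D) (x0 : D) (T : Finset D) (y : D) : D :=
  if y ∈ T then y else if g y ∈ T then g y else if Vx M x0 y then M.σ x0 else M.σ (M.α x0)

/-- the darts of the pole -/
def W (M : CubicMap D) (x0 : D) (T : Finset D) (x : D) : Prop :=
  x ∈ T ∨ x = M.σ x0 ∨ x = M.σ (M.α x0)

variable (h : Mir M g x0) (hT : MT M g x0 T)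
include h hT

theorem P_T {y : D} (hy : y ∈ T) : P M g x0 T y = y := if_pos hy

theorem P_gT {y : D} (hy : g y ∈ T) : P M g x0 T y = g y := by
  have h1 : ¬ V M x0 y := fun hv => hT.v _ (h.Vg.2 hv) hy
  have h2 := (hT.g y h1).1 hy
  unfold P
  rw [if_neg h2, if_pos hy]

theorem P_V1 {y : D} (hy : Vx M x0 y) : P M g x0 T y = M.σ x0 := by
  have h1 : V M x0 y := Or.inl hy
  unfold P
  rw [if_neg (hT.v _ h1), if_neg (hT.v _ (h.Vg.2 h1)), if_pos hy]

theorem P_V2 {y : D} (hy : Vx M (M.α x0) y) : P M g x0 T y = M.σ (M.α x0) := by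
  have h1 : V M x0 y := Or.inr hy
  unfold P
  rw [if_neg (hT.v _ h1), if_neg (hT.v _ (h.Vg.2 h1)), if_neg (fun h2 => h.disj h2 hy)]

theorem cases4 (y : D) : y ∈ T ∨ g y ∈ T ∨ Vx M x0 y ∨ Vx M (M.α x0) y := by
  by_cases h1 : V M x0 y
  · exact Or.inr (Or.inr h1)
  · by_cases h2 : y ∈ T
    · exact Or.inl h2
    · exact Or.inr (Or.inl ((hT.g y h1).2 h2))

theorem P_g (y : D) : P M g x0 T (g y) = P M g x0 T y := by
  rcases cases4 h hT y with h1 | h1 | h1 | h1
  · rw [P_gT h hT (y := g y) (by rw [h.sq]; exact h1), h.sq, P_T h hT h1]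
  · rw [P_T h hT h1, P_gT h hT h1]
  · rw [P_V1 h hT h1, P_V1 h hT (h.vg h1)]
  · rw [P_V2 h hT h1, P_V2 h hT (h.swap.vg h1)]

theorem P_or {y : D} (h1 : y ≠ x0) (h2 : y ≠ M.α x0) :
    P M g x0 T y = y ∨ P M g x0 T y = g y := by
  have e2 : g (M.α x0) = M.α x0 := h.swap.fix
  rcases cases4 h hT y with h3 | h3 | h3 | h3
  · exact Or.inl (P_T h hT h3)
  · exact Or.inr (P_gT h hT h3)
  · rw [P_V1 h hT h3]
    rcases h3 with h4 | h4 | h4
    · exact absurd h4 h1
    · exact Or.inl h4.symm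
    · right; rw [h4, h.gσσ, h.fix]
  · rw [P_V2 h hT h3]
    rcases h3 with h4 | h4 | h4
    · exact absurd h4 h2
    · exact Or.inl h4.symm
    · right; rw [h4, h.gσσ, e2]

theorem P_W (y : D) : W M x0 T (P M g x0 T y) := by
  rcases cases4 h hT y with h3 | h3 | h3 | h3
  · rw [P_T h hT h3]; exact Or.inl h3
  · rw [P_gT h hT h3]; exact Or.inl h3
  · rw [P_V1 h hT h3]; exact Or.inr (Or.inl rfl)
  · rw [P_V2 h hT h3]; exact Or.inr (Or.inr rfl)

theorem W_P {y : D} (hy : W M x0 T y) : P M g x0 T y = y := by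
  rcases hy with h1 | h1 | h1
  · exact P_T h hT h1
  · rw [h1]; exact P_V1 h hT (Or.inr (Or.inl rfl))
  · rw [h1]; exact P_V2 h hT (Or.inr (Or.inl rfl))

theorem W_α {y : D} (hy : W M x0 T y) : M.α y ≠ x0 ∧ M.α y ≠ M.α x0 := by
  constructor
  · intro h1
    have h2 : y = M.α x0 := by rw [← h1, M.α2]
    rcases hy with h3 | h3 | h3
    · exact hT.v _ (Or.inr (Or.inl h2)) h3
    · exact h.disj (y := y) (Or.inr (Or.inl h3)) (Or.inl h2)
    · exact M.σ1 _ (h3.symm.trans h2)
  · intro h1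
    have h2 : y = x0 := αinj h1
    rcases hy with h3 | h3 | h3
    · exact hT.v _ (Or.inl (Or.inl h2)) h3
    · exact M.σ1 _ (h3.symm.trans h2)
    · exact h.disj (y := y) (Or.inl h2) (Or.inr (Or.inl h3))

theorem P_α {y : D} (h1 : y ≠ x0) (h2 : y ≠ M.α x0) :
    P M g x0 T (M.α (P M g x0 T y)) = P M g x0 T (M.α y) := by
  rcases P_or h hT h1 h2 with h3 | h3
  · rw [h3]
  · rw [h3, ← h.gα, P_g h hT]

theorem P_ασ1 : P M g x0 T (M.α (M.σ x0)) ∈ T := by
  rcases cases4 h hT (M.α (M.σ x0)) with h3 | h3 | h3 | h3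
  · rw [P_T h hT h3]; exact h3
  · rw [P_gT h hT h3]; exact h3
  · exact absurd (Or.inl h3) h.out
  · exact absurd (Or.inr h3) h.out

theorem P_ασ2 : P M g x0 T (M.α (M.σ (M.α x0))) ∈ T := by
  have h0 := h.swap.out
  rcases cases4 h hT (M.α (M.σ (M.α x0))) with h3 | h3 | h3 | h3
  · rw [P_T h hT h3]; exact h3
  · rw [P_gT h hT h3]; exact h3
  · exact absurd (Or.inr (by rw [M.α2]; exact h3)) h0
  · exact absurd (Or.inl h3) h0

open Classical in
/-- the half map -/
noncomputable def pole : Pole 2 D where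
  σ x := if x ∈ T then M.σ x else x
  a x := if W M x0 T x then P M g x0 T (M.α x) else x
  m := ![M.σ x0, M.σ (M.α x0)]
  σ3 x := by
    by_cases hx : x ∈ T
    · have h1 := (hT.s x).2 hx
      have h2 := (hT.s _).2 h1
      rw [if_pos hx, if_pos h1, if_pos h2, M.σ3]
    · rw [if_neg hx, if_neg hx, if_neg hx]
  a2 x := by
    by_cases hx : W M x0 T x
    · obtain ⟨h1, h2⟩ := W_α h hT hx
      rw [if_pos hx, if_pos (P_W h hT _), P_α h hT h1 h2, M.α2, W_P h hT hx]
    · rw [if_neg hx, if_neg hx]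
  am x hx := by
    have h1 : x ∈ T := by
      by_contra h1
      exact hx (if_neg h1)
    rw [if_pos (show W M x0 T x from Or.inl h1)]
    intro h2
    obtain ⟨h3, h4⟩ := W_α h hT (Or.inl h1)
    rcases P_or h hT h3 h4 with h5 | h5
    · exact M.α1 _ (h5.symm.trans h2)
    · have h6 : g (M.α x) = x := h5.symm.trans h2
      have h7 := congrArg g h6
      rw [h.sq] at h7
      exact h.ed _ h7.symm
  leg x := by
    constructor
    · rintro ⟨h1, h2⟩
      have h3 : x ∉ T := by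
        intro h3
        rw [if_pos h3] at h1
        exact M.σ1 _ h1
      have h4 : W M x0 T x := by
        by_contra h4
        exact h2 (if_neg h4)
      rcases h4 with h5 | h5 | h5
      · exact absurd h5 h3
      · exact ⟨0, h5.symm⟩
      · exact ⟨1, h5.symm⟩
    · have v1 : M.σ x0 ∉ T := hT.v _ (Or.inl (Or.inr (Or.inl rfl)))
      have v2 : M.σ (M.α x0) ∉ T := hT.v _ (Or.inr (Or.inr (Or.inl rfl)))
      rintro ⟨i, rfl⟩
      fin_cases i
      · refine ⟨if_neg v1, fun h1 => v1 ?_⟩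
        have h2 : (if W M x0 T (M.σ x0) then P M g x0 T (M.α (M.σ x0)) else M.σ x0) = M.σ x0 := h1
        rw [if_pos (show W M x0 T (M.σ x0) from Or.inr (Or.inl rfl))] at h2
        rw [← h2]
        exact P_ασ1 h hT
      · refine ⟨if_neg v2, fun h1 => v2 ?_⟩
        have h2 : (if W M x0 T (M.σ (M.α x0)) then P M g x0 T (M.α (M.σ (M.α x0)))
          else M.σ (M.α x0)) = M.σ (M.α x0) := h1
        rw [if_pos (show W M x0 T (M.σ (M.α x0)) from Or.inr (Or.inr rfl))] at h2
        rw [← h2]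
        exact P_ασ2 h hT
  minj := by
    have h1 : M.σ x0 ≠ M.σ (M.α x0) := fun h1 => M.α1 _ (σinj h1).symm
    intro i j hij
    fin_cases i <;> fin_cases j
    · rfl
    · exact absurd hij h1
    · exact absurd hij.symm h1
    · rfl

theorem pole_σT {x : D} (hx : x ∈ T) : (pole h hT).σ x = M.σ x := if_pos hx
theorem pole_σn {x : D} (hx : x ∉ T) : (pole h hT).σ x = x := if_neg hx
theorem pole_aW {x : D} (hx : W M x0 T x) : (pole h hT).a x = P M g x0 T (M.α x) := if_pos hx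
theorem pole_an {x : D} (hx : ¬ W M x0 T x) : (pole h hT).a x = x := if_neg hx
theorem pole_m0 : (pole h hT).m 0 = M.σ x0 := rfl
theorem pole_m1 : (pole h hT).m 1 = M.σ (M.α x0) := rfl

theorem pole_mT {x : D} : (pole h hT).σ x ≠ x ↔ x ∈ T := by
  constructor
  · intro h1
    by_contra h2
    exact h1 (pole_σn h hT h2)
  · intro h1
    rw [pole_σT h hT h1]
    exact M.σ1 _

theorem nT1 : M.σ x0 ∉ T := hT.v _ (Or.inl (Or.inr (Or.inl rfl)))
theorem nT2 : M.σ (M.α x0) ∉ T := hT.v _ (Or.inr (Or.inr (Or.inl rfl)))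

end Mir

end Pool.H19.SYM
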