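import Pool.Agent.Helper19.SYM.SymSplit
import Pool.Agent.Helper19.SYM.Fixed
import Pool.Agent.Helper19.SYM.Reflect

/-! Two places that an invariant Hamilton circuit separates. -/

set_option linter.unusedSectionVars false

namespace Pool.H19.SYM

open Pool.H64.NC Equiv

variable {D : Type*} [DecidableEq D] [Fintype D] {M : CubicMap D} {g : Perm D}

theorem same_gen {β : Type*} {π : Perm D} {φ : D → β} (hφ : ∀ d, φ (π d) = φ d) {x y : D}
    (h : π.SameCycle x y) : φ x = φ y := by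
  have hn : ∀ (n : ℕ) (d : D), φ ((π ^ n) d) = φ d := by
    intro n
    induction n with
    | zero => intro d; rfl
    | succ n ih =>
      intro d
      rw [pow_succ', Perm.mul_apply, hφ, ih]
  obtain ⟨n, hn2⟩ := h.exists_nat_pow_eq
  rw [← hn2, hn]

theorem even_of_inv {β : Type*} [Fintype β] (i : β → β) (h1 : ∀ a, i (i a) = a)
    (h2 : ∀ a, i a ≠ a) : (Fintype.card β : ZMod 2) = 0 := by
  have h := Finset.sum_involution (s := Finset.univ) (f := fun _ : β => (1 : ZMod 2))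
    (fun a _ => i a) (fun a _ => by decide) (fun a _ _ => h2 a) (fun a _ => Finset.mem_univ _)
    (fun a _ => h1 a)
  simpa using h

/-- an involution of the faces of a side fixes a face, if it flips no edge -/
theorem fixed_inv (hM : M.Genus0) {U : Finset D} (hU : M.Ham U) {f : D → ZMod 2}
    (hf : Pot M U f) {k : D → D} (kα : ∀ x, k (M.α x) = M.α (k x)) (k2 : ∀ x, k (k x) = x)
    (kf : ∀ x, fa M (k (M.σ (M.α x))) = fa M (k x)) (kU : ∀ x, k x ∈ U ↔ x ∈ U)
    (kp : ∀ x, f (k x) = f x) (kflip : ∀ x, k x ≠ M.α x) (j : ZMod 2) :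
    ∃ x, f x = j ∧ fa M (k x) = fa M x := by
  classical
  by_contra hcon
  push Not at hcon
  have : Fintype (Sd M f j) := Fintype.ofFinite _
  have hT := (side_tree hM hU hf j).1
  have hcard := (SimpleGraph.isTree_iff_connected_and_card.1 hT).2
  have kq1 : ∀ x y, M.face.SameCycle x y → fa M (k x) = fa M (k y) := fun x y h =>
    same_gen (φ := fun x => fa M (k x)) (fun d => kf d) h
  set kq : Fa M → Fa M := Quotient.lift (fun x => fa M (k x)) kq1 with hkq
  have kq2 : ∀ x, kq (fa M x) = fa M (k x) := fun x => rfl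
  set kS : Sd M f j → Sd M f j := fun P => ⟨kq P.1, by
    obtain ⟨x, hx, hfx⟩ := P.2
    exact ⟨k x, by rw [← hx]; rfl, by rw [kp, hfx]⟩⟩ with hkS
  have kS1 : ∀ P, (kS P).1 = kq P.1 := fun P => rfl
  have kS2 : ∀ P, kS (kS P) = P := by
    rintro ⟨P, x, rfl, hx⟩
    refine Subtype.ext ?_
    rw [kS1, kS1, kq2, kq2, k2]
  have kS3 : ∀ P, kS P ≠ P := by
    rintro ⟨P, x, rfl, hx⟩ h
    exact hcon x hx (congrArg Subtype.val h)
  have hV := even_of_inv kS kS2 kS3
  have hadj : ∀ {P P'}, (Gr M U f j).Adj P P' → (Gr M U f j).Adj (kS P) (kS P') := by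
    rintro P P' ⟨h1, x, hx, h2, h3⟩
    refine ⟨fun h => h1 ?_, k x, ⟨(kU x).2 hx.1, ?_⟩, ?_, ?_⟩
    · have := congrArg kS h
      rwa [kS2, kS2] at this
    · rw [← kα]; exact (kU _).2 hx.2
    · rw [kS1, ← h2, kq2]
    · rw [kS1, ← h3, kq2, kα]
  set kE : (Gr M U f j).edgeSet → (Gr M U f j).edgeSet := fun e => ⟨Sym2.map kS e.1, by
    obtain ⟨e, he⟩ := e
    induction e using Sym2.ind with
    | _ P P' =>
      rw [SimpleGraph.mem_edgeSet] at he
      exact hadj he⟩ with hkE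
  have kE1 : ∀ e, (kE e).1 = Sym2.map kS e.1 := fun e => rfl
  have hcomp : kS ∘ kS = id := funext kS2
  have kE2 : ∀ e, kE (kE e) = e := by
    intro e
    refine Subtype.ext ?_
    rw [kE1, kE1, Sym2.map_map, hcomp, Sym2.map_id]
    rfl
  have kE3 : ∀ e, kE e ≠ e := by
    rintro ⟨e, he⟩ h
    have h2 : Sym2.map kS e = e := congrArg Subtype.val h
    clear h
    induction e using Sym2.ind with
    | _ P P' =>
      rw [SimpleGraph.mem_edgeSet] at he
      obtain ⟨-, x, hx, h3, h4⟩ := he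
      rw [Sym2.map_mk, Sym2.eq_iff] at h2
      rcases h2 with ⟨h5, -⟩ | ⟨h5, h6⟩
      · exact kS3 _ h5
      · have h7 : fa M (k x) = fa M (M.α x) := by
          rw [← kq2, h3, h4, ← kS1, h5]
        have h8 : fa M (M.α (k x)) = fa M (M.α (M.α x)) := by
          rw [← kα, ← kq2, h4, M.α2, h3, ← kS1, h6]
        exact kflip x ((side_tree hM hU hf (f (k x))).2.1 (k x) ((kU x).2 hx.1) (M.α x) hx.2 rfl
          h7 h8)
  have : Fintype (Gr M U f j).edgeSet := Fintype.ofFinite _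
  have hE := even_of_inv kE kE2 kE3
  rw [Nat.card_eq_fintype_card, Nat.card_eq_fintype_card] at hcard
  have h9 := congrArg (fun n : ℕ => (n : ZMod 2)) hcard
  have h10 : ((Fintype.card (Gr M U f j).edgeSet : ZMod 2)) + 1 = Fintype.card (Sd M f j) := by
    have := h9
    push_cast at this
    exact this
  rw [hE, hV] at h10
  exact absurd h10 (by decide)

/-- a reversing automorphism with a fixed face fixes a vertex or an edge -/
theorem rev_fix (h1 : ∀ x, g (M.α x) = M.α (g x)) (h2 : ∀ x, g (M.σ x) = M.σ (M.σ (g x)))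
    {x : D} (hx : fa M (M.α (g x)) = fa M x) :
    (∃ y, g y = M.α y) ∨ ∃ y, g y = M.σ y := by
  have hK : (M.permα * g) * M.face = M.face⁻¹ * (M.permα * g) := by
    rw [eq_inv_mul_iff_mul_eq]
    ext y
    show M.face (M.α (g (M.face y))) = M.α (g y)
    rw [M.face_apply, M.face_apply, h2, h1, M.α2, M.σ3]
  have hk := fun k : ℤ => mul_zpow_rel hK k
  obtain ⟨n, hn⟩ := fa_eq.1 hx.symm
  have hy : ∀ m : ℤ, M.α (g ((M.face ^ m) x)) = (M.face ^ (n - m)) x := by
    intro m
    have h4 := congrArg (fun π : Perm D => π x) (hk m)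
    have h5 : M.α (g ((M.face ^ m) x)) = (M.face ^ (-m)) (M.α (g x)) := h4
    rw [h5, ← hn, ← Perm.mul_apply, ← zpow_add]
    congr 2
    ring
  rcases Int.even_or_odd' n with ⟨m, hm | hm⟩
  · left
    refine ⟨(M.face ^ m) x, ?_⟩
    have h3 := hy m
    rw [show n - m = m by omega] at h3
    rw [← M.α2 (g _), h3]
  · right
    set y := (M.face ^ m) x with hyd
    have h3 := hy m
    rw [show n - m = 1 + m by omega, zpow_one_add, Perm.mul_apply, ← hyd, M.face_apply] at h3
    exact ⟨M.α y, by rw [h1, h3]⟩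

/-- potentials of an invariant circuit under `g` -/
theorem fold_pot (hM : M.Genus0) {U : Finset D} (hU : M.Clo U) (hi : Inv g U)
    {f : D → ZMod 2} (hf : Pot M U f) {k : D → D} (hk : Fold M g k) :
    (∀ x, f (k x) = f x) ∨ ∀ x, f (k x) = f x + 1 := by
  have kU : ∀ x, k x ∈ U ↔ x ∈ U := by
    intro x
    rcases hk.gα x with e | e
    · rw [e]; exact hi x
    · rw [e, ← hU.1]; exact hi x
  have h4 : ∀ a b c : ZMod 2, (a + c) + (b + c) = a + b := by decide
  have e1 : ∀ x, f (k (M.α x)) + f (M.α x) = f (k x) + f x := by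
    intro x
    rw [hk.α, hf.edge, hf.edge, if_congr (kU x) rfl rfl, h4]
  have e2 : ∀ x, f (k (M.σ x)) + f (M.σ x) = f (k x) + f x := by
    intro x
    have h1 := hf.face (M.α x)
    have h3 := hk.face f hf.face (M.α x)
    rw [M.α2] at h1 h3
    rw [h1, h3, e1]
  obtain ⟨x0⟩ := nonempty hM
  have key := fun x => cst hM (fun x => f (k x) + f x) e1 e2 x x0
  have h5 : ∀ c : ZMod 2, c = 0 ∨ c = 1 := by decide
  have h6 : ∀ a b : ZMod 2, a + b = 0 → a = b := by decide
  have h7 : ∀ a b : ZMod 2, a + b = 1 → a = b + 1 := by decide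
  rcases h5 (f (k x0) + f x0) with h | h
  · left; intro x; exact h6 _ _ ((key x).trans h)
  · right; intro x; exact h7 _ _ ((key x).trans h)

theorem rev_pair (hM : M.Genus0) (h : Free2 M g) (h2 : ∀ x, g (M.σ x) = M.σ (M.σ (g x)))
    {U : Finset D} (hU : M.Ham U) (hi : Inv g U) {f : D → ZMod 2} (hf : Pot M U f) (a : D) :
    f a + f (M.α (g a)) = 1 := by
  have h1 := h.sym.1
  rcases fold_pot hM hU.1 hi hf (fold_rev h1 h2) with hp | hp
  · exfalso
    obtain ⟨x, -, hx⟩ := fixed_inv hM hU hf (k := fun x => M.α (g x)) (fun x => by rw [h1])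
      (fun x => by rw [h1, M.α2, h.sq]) (fun x => by
        rw [h2, h1, ← fa_face (M.α (M.σ (M.σ (M.α (g x))))), M.α2, M.σ3])
      (fun x => by rw [← hU.1.1]; exact hi x) hp (fun x hx => by
        have := congrArg M.α hx
        rw [M.α2, M.α2] at this
        exact h.v0 x this) 0
    rcases rev_fix h1 h2 hx with ⟨y, hy⟩ | ⟨y, hy⟩
    · exact h.ed y hy
    · exact h.v1 y hy
  · have h3 := hp a
    have h4 : ∀ a b : ZMod 2, b = a + 1 → a + b = 1 := by decide
    exact h4 _ _ h3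

theorem rot_fixed (hM : M.Genus0) (h : Free2 M g) (hg : g ∈ Rot M)
    {U : Finset D} (hU : M.Ham U) (hi : Inv g U) {f : D → ZMod 2} (hf : Pot M U f) :
    (∀ x, f (g x) = f x) ∧ ∀ j, ∃ x, f x = j ∧ fa M (g x) = fa M x := by
  rcases fold_pot hM hU.1 hi hf (fold_rot hg) with hp | hp
  · refine ⟨hp, fun j => ?_⟩
    exact fixed_inv hM hU hf (k := g) hg.1 h.sq
      (fun x => by rw [hg.2, hg.1, fa_face]) hi hp h.ed j
  · exfalso
    obtain ⟨-, ⟨x, hx⟩ | ⟨x, hx | hx⟩⟩ := reflect hM hU hf hg hi hp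
    · exact h.ed x hx
    · exact h.v1 x hx
    · exact h.v2 x hx

theorem rot_pair (hM : M.Genus0) (h : Free2 M g) (hg : g ∈ Rot M)
    {U0 : Finset D} (hU0 : M.Ham U0) (hi0 : Inv g U0) :
    ∃ a b, fa M (g a) = fa M a ∧ fa M (g b) = fa M b ∧
      ∀ U, M.Ham U → Inv g U → ∀ f, Pot M U f → f a + f b = 1 := by
  obtain ⟨f0, hf0⟩ := exists_pot hM hU0.1
  obtain ⟨hp0, hx0⟩ := rot_fixed hM h hg hU0 hi0 hf0
  have hg1 : g ≠ 1 := by
    rintro rfl
    obtain ⟨x⟩ := nonempty hM
    exact h.v0 x rfl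
  obtain ⟨a, ha, ha'⟩ := hx0 0
  obtain ⟨b, hb, hb'⟩ := hx0 1
  have huniq : ∀ x, fa M (g x) = fa M x → fa M x = fa M a ∨ fa M x = fa M b := by
    intro x hx
    have h5 : ∀ c : ZMod 2, c = 0 ∨ c = 1 := by decide
    rcases h5 (f0 x) with h6 | h6
    · left
      exact fixed_unique hM hU0 hf0 hg hi0 hp0 hg1 (h6.trans ha.symm) hx ha'
    · right
      exact fixed_unique hM hU0 hf0 hg hi0 hp0 hg1 (h6.trans hb.symm) hx hb'
  refine ⟨a, b, ha', hb', fun U hU hi f hf => ?_⟩
  obtain ⟨hp, hx⟩ := rot_fixed hM h hg hU hi hf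
  obtain ⟨x, hx1, hx2⟩ := hx 0
  obtain ⟨y, hy1, hy2⟩ := hx 1
  rcases huniq x hx2 with h1 | h1 <;> rcases huniq y hy2 with h3 | h3
  · exfalso
    have h4 := hf.fa (h1.trans h3.symm)
    rw [hx1, hy1] at h4
    exact absurd h4 (by decide)
  · rw [← hf.fa h1, ← hf.fa h3, hx1, hy1]; decide
  · rw [← hf.fa h1, ← hf.fa h3, hx1, hy1]; decide
  · exfalso
    have h4 := hf.fa (h1.trans h3.symm)
    rw [hx1, hy1] at h4
    exact absurd h4 (by decide)

end Pool.H19.SYM
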