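import Pool.Agent.Helper19.SYM.SymIm

/-! The quotient of a cubic map by an automorphism of order two without fixed vertices and edges. -/

set_option linter.unusedSectionVars false

namespace Pool.H19.SYM

open Pool.H64.NC Equiv

variable {D : Type*} [DecidableEq D] {M : CubicMap D} {g : Perm D}

/-- an automorphism of order two that fixes no vertex and no edge -/
structure Free2 (M : CubicMap D) (g : Perm D) : Prop where
  sym : g ∈ Sym M
  sq : ∀ x, g (g x) = x
  v0 : ∀ x, g x ≠ x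
  v1 : ∀ x, g x ≠ M.σ x
  v2 : ∀ x, g x ≠ M.σ (M.σ x)
  ed : ∀ x, g x ≠ M.α x

/-- `y` is a dart of the vertex of `x` -/
def Vx (M : CubicMap D) (x y : D) : Prop := y = x ∨ y = M.σ x ∨ y = M.σ (M.σ x)

theorem Vx.s {x y : D} (h : Vx M x y) : Vx M x (M.σ y) := by
  rcases h with rfl | rfl | rfl
  · exact Or.inr (Or.inl rfl)
  · exact Or.inr (Or.inr rfl)
  · exact Or.inl (M.σ3 _)

theorem Free2.nvx (h : Free2 M g) (x : D) : ¬ Vx M x (g x) := by
  rintro (h1 | h1 | h1)
  · exact h.v0 x h1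
  · exact h.v1 x h1
  · exact h.v2 x h1

theorem Free2.gs (h : Free2 M g) (x : D) :
    (g (M.σ x) = M.σ (g x) ∧ g (M.σ (M.σ x)) = M.σ (M.σ (g x))) ∨
      (g (M.σ x) = M.σ (M.σ (g x)) ∧ g (M.σ (M.σ x)) = M.σ (g x)) := by
  rcases h.sym.2 with h2 | h2
  · left; exact ⟨h2 x, by rw [h2, h2]⟩
  · right; exact ⟨h2 x, by rw [h2, h2, M.σ3]⟩

/-- a set of darts that contains the darts of one vertex of each pair -/
structure Tra (M : CubicMap D) (g : Perm D) (T : Finset D) : Prop where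
  s : ∀ x, M.σ x ∈ T ↔ x ∈ T
  g : ∀ x, g x ∈ T ↔ x ∉ T

theorem exists_tra [Fintype D] (h : Free2 M g) : ∃ T, Tra M g T := by
  set e : D → ℕ := fun x => (Fintype.equivFin D x : ℕ) with he
  have hinj : ∀ x y, e x = e y → x = y := fun x y hxy =>
    (Fintype.equivFin D).injective (Fin.ext hxy)
  set r : D → ℕ := fun x => min (e x) (min (e (M.σ x)) (e (M.σ (M.σ x)))) with hr
  have r1 : ∀ x, r (M.σ x) = r x := by
    intro x
    show min (e (M.σ x)) (min (e (M.σ (M.σ x))) (e (M.σ (M.σ (M.σ x))))) =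
      min (e x) (min (e (M.σ x)) (e (M.σ (M.σ x))))
    rw [M.σ3]
    omega
  have r2 : ∀ x, ∃ y, Vx M x y ∧ r x = e y := by
    intro x
    rcases le_total (e x) (min (e (M.σ x)) (e (M.σ (M.σ x)))) with h1 | h1
    · exact ⟨x, Or.inl rfl, min_eq_left h1⟩
    · rcases le_total (e (M.σ x)) (e (M.σ (M.σ x))) with h2 | h2
      · exact ⟨M.σ x, Or.inr (Or.inl rfl), (min_eq_right h1).trans (min_eq_left h2)⟩
      · exact ⟨M.σ (M.σ x), Or.inr (Or.inr rfl), (min_eq_right h1).trans (min_eq_right h2)⟩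
  have r3 : ∀ x, r x ≠ r (g x) := by
    intro x hx
    obtain ⟨y, hy, hy2⟩ := r2 x
    obtain ⟨z, hz, hz2⟩ := r2 (g x)
    have hyz : y = z := hinj _ _ (by rw [← hy2, ← hz2, hx])
    subst hyz
    refine h.nvx x ?_
    rcases hz with rfl | rfl | rfl
    · exact hy
    · have := hy.s.s
      rwa [M.σ3] at this
    · have := hy.s
      rwa [M.σ3] at this
  have r4 : ∀ x, r (g (M.σ x)) = r (g x) := by
    intro x
    rcases h.gs x with ⟨h1, -⟩ | ⟨h1, -⟩
    · rw [h1, r1]
    · rw [h1, r1, r1]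
  refine ⟨Finset.univ.filter (fun x => r x < r (g x)), fun x => ?_, fun x => ?_⟩
  · simp only [Finset.mem_filter, Finset.mem_univ, true_and]
    rw [r1, r4]
  · simp only [Finset.mem_filter, Finset.mem_univ, true_and]
    rw [h.sq]
    have := r3 x
    omega

section
variable {T : Finset D}

/-- the representative -/
def pj (hT : Tra M g T) (x : D) : {x // x ∈ T} :=
  if h : x ∈ T then ⟨x, h⟩ else ⟨g x, (hT.g x).2 h⟩

theorem pj_of (hT : Tra M g T) {x : D} (h : x ∈ T) : pj hT x = ⟨x, h⟩ := dif_pos h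

theorem pj_coe (hT : Tra M g T) (t : {x // x ∈ T}) : pj hT t.1 = t := pj_of hT t.2

theorem pj_or (hT : Tra M g T) (x : D) : (pj hT x).1 = x ∨ (pj hT x).1 = g x := by
  unfold pj
  split_ifs
  · exact Or.inl rfl
  · exact Or.inr rfl

theorem pj_g (h : Free2 M g) (hT : Tra M g T) (x : D) : pj hT (g x) = pj hT x := by
  unfold pj
  by_cases hx : x ∈ T
  · have h1 : g x ∉ T := fun h => (hT.g x).1 h hx
    rw [dif_neg h1, dif_pos hx]
    exact Subtype.ext (h.sq x)
  · have h1 : g x ∈ T := (hT.g x).2 hx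
    rw [dif_pos h1, dif_neg hx]

theorem pj_α (h : Free2 M g) (hT : Tra M g T) (x : D) :
    pj hT (M.α (pj hT x).1) = pj hT (M.α x) := by
  rcases pj_or hT x with h1 | h1
  · rw [h1]
  · rw [h1, ← h.sym.1, pj_g h]

theorem pj_eq (h : Free2 M g) (hT : Tra M g T) {x y : D} (hxy : pj hT x = pj hT y) :
    y = x ∨ y = g x := by
  have h0 := congrArg Subtype.val hxy
  rcases pj_or hT x with h1 | h1 <;> rcases pj_or hT y with h2 | h2
  · left; rw [← h1, ← h2, h0]
  · right
    rw [h1, h2] at h0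
    rw [h0, h.sq]
  · right
    rw [h1, h2] at h0
    exact h0.symm
  · left
    rw [h1, h2] at h0
    exact (g.injective h0).symm

/-- the quotient map -/
def quo (h : Free2 M g) (hT : Tra M g T) : CubicMap {x // x ∈ T} where
  σ t := ⟨M.σ t.1, (hT.s _).2 t.2⟩
  α t := pj hT (M.α t.1)
  σ3 t := Subtype.ext (M.σ3 _)
  σ1 t h := M.σ1 _ (congrArg Subtype.val h)
  α2 t := by rw [pj_α h, M.α2, pj_coe]
  α1 t ht := by
    have h1 : pj hT (M.α t.1) = pj hT t.1 := by rw [ht, pj_coe]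
    rcases pj_eq h hT h1 with h2 | h2
    · exact M.α1 _ h2.symm
    · have h3 := congrArg g h2
      rw [h.sq] at h3
      exact h.ed _ h3

theorem quo_σ (h : Free2 M g) (hT : Tra M g T) (t : {x // x ∈ T}) :
    ((quo h hT).σ t).1 = M.σ t.1 := rfl

theorem quo_α (h : Free2 M g) (hT : Tra M g T) (t : {x // x ∈ T}) :
    (quo h hT).α t = pj hT (M.α t.1) := rfl

theorem quo_α_pj (h : Free2 M g) (hT : Tra M g T) (x : D) :
    (quo h hT).α (pj hT x) = pj hT (M.α x) := by
  rw [quo_α, pj_α h]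

variable [Fintype D]

/-- the darts over `U'` -/
def lif (hT : Tra M g T) (U' : Finset {x // x ∈ T}) : Finset D :=
  Finset.univ.filter (fun x => pj hT x ∈ U')

theorem mem_lif {hT : Tra M g T} {U' : Finset {x // x ∈ T}} {x : D} :
    x ∈ lif hT U' ↔ pj hT x ∈ U' := by
  simp only [lif, Finset.mem_filter, Finset.mem_univ, true_and]

/-- the darts of `U` in `T` -/
def rst (T U : Finset D) : Finset {x // x ∈ T} :=
  Finset.univ.filter (fun t => t.1 ∈ U)

theorem mem_rst {U : Finset D} {t : {x // x ∈ T}} : t ∈ rst T U ↔ t.1 ∈ U := by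
  simp only [rst, Finset.mem_filter, Finset.mem_univ, true_and]

theorem pj_mem {hT : Tra M g T} {U : Finset D} (hi : Inv g U) (x : D) :
    (pj hT x).1 ∈ U ↔ x ∈ U := by
  rcases pj_or hT x with h1 | h1
  · rw [h1]
  · rw [h1, hi]

theorem lif_rst {hT : Tra M g T} {U : Finset D} (hi : Inv g U) : lif hT (rst T U) = U := by
  ext x
  rw [mem_lif, mem_rst, pj_mem hi]

theorem rst_lif {hT : Tra M g T} (U' : Finset {x // x ∈ T}) : rst T (lif hT U') = U' := by
  ext t
  rw [mem_rst, mem_lif, pj_coe]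

theorem lif_inv (h : Free2 M g) {hT : Tra M g T} (U' : Finset {x // x ∈ T}) :
    Inv g (lif hT U') := by
  intro x
  rw [mem_lif, mem_lif, pj_g h]

theorem lif_clo (h : Free2 M g) {hT : Tra M g T} {U' : Finset {x // x ∈ T}}
    (hU : (quo h hT).Clo U') : M.Clo (lif hT U') := by
  have hi := lif_inv h (hT := hT) U'
  refine ⟨fun x => ?_, ?_⟩
  · rw [mem_lif, mem_lif, ← quo_α_pj h]
    exact hU.1 _
  · have key : ∀ x ∈ T, One3 (x ∈ lif hT U') (M.σ x ∈ lif hT U') (M.σ (M.σ x) ∈ lif hT U') := by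
      intro x hx
      have h1 := hU.2 ⟨x, hx⟩
      rw [mem_lif, mem_lif, mem_lif, pj_of hT hx, pj_of hT ((hT.s x).2 hx),
        pj_of hT ((hT.s _).2 ((hT.s x).2 hx))]
      exact h1
    intro x
    by_cases hx : x ∈ T
    · exact key x hx
    · have h1 := key (g x) ((hT.g x).2 hx)
      rcases h.gs x with ⟨h2, h3⟩ | ⟨h2, h3⟩
      · rw [← h3, ← h2, hi, hi, hi] at h1
        exact h1
      · rw [← h2, ← h3, hi, hi, hi] at h1
        unfold One3 at h1 ⊢
        tauto

theorem rst_clo (h : Free2 M g) {hT : Tra M g T} {U : Finset D} (hi : Inv g U) (hU : M.Clo U) :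
    (quo h hT).Clo (rst T U) := by
  refine ⟨fun t => ?_, fun t => ?_⟩
  · rw [mem_rst, mem_rst, quo_α, pj_mem hi]
    exact hU.1 _
  · rw [mem_rst, mem_rst, mem_rst]
    exact hU.2 t.1

/-- projection of the switch and of the steps along edges -/
theorem pj_sw (h : Free2 M g) {hT : Tra M g T} {U : Finset D} (hi : Inv g U) (hU : M.Clo U)
    (x : D) : pj hT (sw M.σ U x) = sw (quo h hT).σ (rst T U) (pj hT x) := by
  have key : ∀ x ∈ T, pj hT (sw M.σ U x) = sw (quo h hT).σ (rst T U) (pj hT x) := by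
    intro x hx
    have h1 := (hT.s x).2 hx
    have h2 := (hT.s _).2 h1
    have e1 : (quo h hT).σ (pj hT x) = ⟨M.σ x, h1⟩ := by rw [pj_of hT hx]; rfl
    have e2 : (quo h hT).σ ⟨M.σ x, h1⟩ = ⟨M.σ (M.σ x), h2⟩ := rfl
    unfold sw
    rw [e1, e2]
    simp only [mem_rst, pj_mem hi]
    split_ifs
    · exact pj_of hT h1
    · exact pj_of hT h2
    · rfl
  by_cases hx : x ∈ T
  · exact key x hx
  · have h1 := key (g x) ((hT.g x).2 hx)
    have h2 := sym_sw h.sym hU x
    rw [inv_image hi] at h2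
    rw [h2, pj_g h, pj_g h] at h1
    exact h1

theorem pj_ae (h : Free2 M g) {hT : Tra M g T} {U : Finset D} (hi : Inv g U)
    (x : D) : pj hT (ae M.α U x) = ae (quo h hT).α (rst T U) (pj hT x) := by
  unfold ae
  rw [quo_α_pj h]
  simp only [mem_rst, pj_mem hi]
  split_ifs <;> rfl

theorem rst_ham (h : Free2 M g) {hT : Tra M g T} {U : Finset D} (hi : Inv g U) (hU : M.Ham U) :
    (quo h hT).Ham (rst T U) := by
  refine ⟨rst_clo h hi hU.1, fun t u ht hu => ?_⟩
  rw [mem_rst] at ht hu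
  have h1 := hU.2 t.1 u.1 ht hu
  have h2 := conn_map (r := Conn (sw (quo h hT).σ (rst T U)) (ae (quo h hT).α (rst T U)))
    (Relation.EqvGen.is_equivalence _) (pj hT)
    (fun x => by rw [pj_sw h hi hU.1]; exact Conn.ms _)
    (fun x => by rw [pj_ae h hi]; exact Conn.ma _) h1
  rwa [pj_coe, pj_coe] at h2

end

end Pool.H19.SYM
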