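import Pool.Agent.Helper19.SYM.SymQ

/-! The circuits over a Hamilton circuit of the quotient: one, or two exchanged by `g`. -/

set_option linter.unusedSectionVars false

namespace Pool.H19.SYM

open Pool.H64.NC Equiv

variable {D : Type*} [DecidableEq D] [Fintype D] {M : CubicMap D} {g : Perm D} {T : Finset D}

theorem step {U : Finset D} {x : D} (h1 : x ∉ U) (h2 : M.σ x ∉ U)
    (hU : M.Clo U) : Conn (sw M.σ U) (ae M.α U) x (M.σ x) := by
  rcases (sw_spec hU h1).2.2 with ⟨h3, -⟩ | ⟨-, h3⟩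
  · rw [← h3]; exact Conn.ms _
  · exact absurd h3 h2

/-- every used dart is connected to `y` or to `g y` -/
theorem two_conn (h : Free2 M g) {hT : Tra M g T} {U' : Finset {x // x ∈ T}}
    (hU : (quo h hT).Ham U') {x y : D} (hx : x ∉ lif hT U') (hy : y ∉ lif hT U') :
    Conn (sw M.σ (lif hT U')) (ae M.α (lif hT U')) x y ∨
      Conn (sw M.σ (lif hT U')) (ae M.α (lif hT U')) x (g y) := by
  have hc := lif_clo h hU.1
  have hi := lif_inv h (hT := hT) U'
  have hr := rst_lif (hT := hT) U'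
  set U := lif hT U' with hUd
  have hg : ∀ {x y}, Conn (sw M.σ U) (ae M.α U) x y → Conn (sw M.σ U) (ae M.α U) (g x) (g y) := by
    intro x y hxy
    have := sym_conn h.sym hc hxy
    rwa [inv_image hi] at this
  have hE : Equivalence (fun t u : {x // x ∈ T} => Conn (sw M.σ U) (ae M.α U) t.1 u.1 ∨
      Conn (sw M.σ U) (ae M.α U) t.1 (g u.1)) := by
    refine ⟨fun t => Or.inl (Conn.refl _), ?_, ?_⟩
    · rintro t u (h1 | h1)
      · exact Or.inl h1.symm
      · right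
        have := (hg h1).symm
        rwa [h.sq] at this
    · rintro t u v (h1 | h1) (h2 | h2)
      · exact Or.inl (h1.trans h2)
      · exact Or.inr (h1.trans h2)
      · exact Or.inr (h1.trans (hg h2))
      · left
        have := h1.trans (hg h2)
        rwa [h.sq] at this
  have h1 := hU.2 (pj hT x) (pj hT y) (fun h => hx (mem_lif.2 h)) (fun h => hy (mem_lif.2 h))
  have h2 := conn_le hE (fun t => by
      have e := pj_sw h (hT := hT) hi hc t.1
      rw [hr, pj_coe] at e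
      rw [← e]
      rcases pj_or hT (sw M.σ U t.1) with h3 | h3
      · left; rw [h3]; exact Conn.ms _
      · right; rw [h3, h.sq]; exact Conn.ms _) (fun t => by
      have e := pj_ae h (hT := hT) hi t.1
      rw [hr, pj_coe] at e
      rw [← e]
      rcases pj_or hT (ae M.α U t.1) with h3 | h3
      · left; rw [h3]; exact Conn.ma _
      · right; rw [h3, h.sq]; exact Conn.ma _) h1
  rcases pj_or hT x with hx' | hx' <;> rcases pj_or hT y with hy' | hy' <;>
    rw [hx', hy'] at h2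
  · exact h2
  · rw [h.sq] at h2
    exact h2.symm
  · rcases h2 with h2 | h2
    · right
      have := hg h2
      rwa [h.sq] at this
    · left
      have := hg h2
      rwa [h.sq, h.sq] at this
  · rw [h.sq] at h2
    rcases h2 with h2 | h2
    · left
      have := hg h2
      rwa [h.sq, h.sq] at this
    · right
      have := hg h2
      rwa [h.sq] at this

theorem ev1 {p q r : Prop} (h1 : ¬ p) (h2 : q ↔ r) :
    (p ∧ q ∧ ¬ r) ∨ (p ∧ ¬ q ∧ r) ∨ (¬ p ∧ q ∧ r) ∨ (¬ p ∧ ¬ q ∧ ¬ r) := by tauto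

theorem ev2 {p q r : Prop} (h1 : ¬ q) (h2 : r ↔ p) :
    (p ∧ q ∧ ¬ r) ∨ (p ∧ ¬ q ∧ r) ∨ (¬ p ∧ q ∧ r) ∨ (¬ p ∧ ¬ q ∧ ¬ r) := by tauto

theorem ev3 {p q r : Prop} (h1 : ¬ r) (h2 : p ↔ q) :
    (p ∧ q ∧ ¬ r) ∨ (p ∧ ¬ q ∧ r) ∨ (¬ p ∧ q ∧ r) ∨ (¬ p ∧ ¬ q ∧ ¬ r) := by tauto

theorem split (h : Free2 M g) {hT : Tra M g T} {U' : Finset {x // x ∈ T}}
    (hU : (quo h hT).Ham U') (hn : ¬ M.Ham (lif hT U')) (d : D) :
    ∃ C : D → Prop, (∀ x, C (M.α x) ↔ C x) ∧ (∀ x, C x → x ∉ lif hT U') ∧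
      (∀ x, x ∉ lif hT U' → (C (g x) ↔ ¬ C x)) ∧
      ∀ x, (C x ∧ C (M.σ x) ∧ ¬ C (M.σ (M.σ x))) ∨ (C x ∧ ¬ C (M.σ x) ∧ C (M.σ (M.σ x))) ∨
        (¬ C x ∧ C (M.σ x) ∧ C (M.σ (M.σ x))) ∨ (¬ C x ∧ ¬ C (M.σ x) ∧ ¬ C (M.σ (M.σ x))) := by
  have hc := lif_clo h hU.1
  have hi := lif_inv h (hT := hT) U'
  have h2c := fun {x y : D} => two_conn h hU (x := x) (y := y)
  set U := lif hT U' with hUd
  have hg : ∀ {x y}, Conn (sw M.σ U) (ae M.α U) x y → Conn (sw M.σ U) (ae M.α U) (g x) (g y) := by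
    intro x y hxy
    have := sym_conn h.sym hc hxy
    rwa [inv_image hi] at this
  obtain ⟨y, hy, -⟩ := used_rep hc d
  have hne : ¬ Conn (sw M.σ U) (ae M.α U) y (g y) := by
    intro hcon
    apply hn
    have key : ∀ x, x ∉ U → Conn (sw M.σ U) (ae M.α U) x y := by
      intro x hx
      rcases h2c hx hy with h1 | h1
      · exact h1
      · exact h1.trans hcon.symm
    exact ⟨hc, fun x z hx hz => (key x hx).trans (key z hz).symm⟩
  have hst : ∀ x, x ∉ U → M.σ x ∉ U → ((x ∉ U ∧ Conn (sw M.σ U) (ae M.α U) x y) ↔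
      (M.σ x ∉ U ∧ Conn (sw M.σ U) (ae M.α U) (M.σ x) y)) := by
    intro x h1 h2
    have h3 := step h1 h2 hc
    exact ⟨fun h => ⟨h2, h3.symm.trans h.2⟩, fun h => ⟨h1, h3.trans h.2⟩⟩
  refine ⟨fun x => x ∉ U ∧ Conn (sw M.σ U) (ae M.α U) x y, fun x => ?_, fun x hx => hx.1,
    fun x hx => ?_, fun x => ?_⟩
  · by_cases hx : x ∈ U
    · have h1 := (hc.1 x).1 hx
      exact ⟨fun h => absurd h1 h.1, fun h => absurd hx h.1⟩
    · have h1 : M.α x ∉ U := fun h => hx ((hc.1 x).2 h)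
      have h2 : ae M.α U x = M.α x := if_pos ⟨hx, h1⟩
      have h3 : Conn (sw M.σ U) (ae M.α U) x (M.α x) := by
        have := Conn.ma (s := sw M.σ U) (a := ae M.α U) x
        rwa [h2] at this
      exact ⟨fun h => ⟨hx, h3.trans h.2⟩, fun h => ⟨h1, h3.symm.trans h.2⟩⟩
  · constructor
    · rintro ⟨-, h1⟩ ⟨-, h2⟩
      have h3 := hg h1
      rw [h.sq] at h3
      exact hne (h2.symm.trans h3)
    · intro h1
      refine ⟨fun h2 => hx ((hi x).1 h2), ?_⟩
      rcases h2c hx hy with h2 | h2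
      · exact absurd ⟨hx, h2⟩ h1
      · have h3 := hg h2
        rwa [h.sq] at h3
  · have h0 := M.σ3 x
    rcases hc.2 x with ⟨a, b, c⟩ | ⟨a, b, c⟩ | ⟨a, b, c⟩
    · exact ev1 (fun h => h.1 a) (hst _ b c)
    · have h1 := hst (M.σ (M.σ x)) c (by rw [h0]; exact a)
      rw [h0] at h1
      exact ev2 (fun h => h.1 b) h1
    · exact ev3 (fun h => h.1 c) (hst _ a b)

/-- a map of the darts that acts on the faces as `g` does -/
structure Fold (M : CubicMap D) (g : Perm D) (k : D → D) : Prop where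
  α : ∀ x, k (M.α x) = M.α (k x)
  gα : ∀ x, k x = g x ∨ k x = M.α (g x)
  face : ∀ φ : D → ZMod 2, (∀ x, φ (M.σ (M.α x)) = φ x) → ∀ x, φ (k (M.σ (M.α x))) = φ (k x)

theorem fold_rot (hg : g ∈ Rot M) : Fold M g g := by
  refine ⟨hg.1, fun x => Or.inl rfl, fun φ hφ x => ?_⟩
  rw [hg.2, hg.1, hφ]

theorem fold_rev (h1 : ∀ x, g (M.α x) = M.α (g x)) (h2 : ∀ x, g (M.σ x) = M.σ (M.σ (g x))) :
    Fold M g (fun x => M.α (g x)) := by
  refine ⟨fun x => by rw [h1], fun x => Or.inr rfl, fun φ hφ x => ?_⟩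
  show φ (M.α (g (M.σ (M.α x)))) = φ (M.α (g x))
  rw [h2, h1, ← hφ (M.α (M.σ (M.σ (M.α (g x))))), M.α2, M.σ3]

/-- the potential of a circuit that lies over a Hamilton circuit of the quotient, but is not a
Hamilton circuit -/
theorem split_pot (hM : M.Genus0) (h : Free2 M g) {hT : Tra M g T} {U' : Finset {x // x ∈ T}}
    (hU : (quo h hT).Ham U') (hn : ¬ M.Ham (lif hT U')) {f : D → ZMod 2}
    (hf : Pot M (lif hT U') f) {k : D → D} (hk : Fold M g k) {a b : D}
    (P1 : ∀ φ : D → ZMod 2, (∀ x, φ (M.σ (M.α x)) = φ x) → φ a + φ (k a) + φ b + φ (k b) = 0) :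
    f a + f b = 0 := by
  classical
  obtain ⟨C, c1, c2, c3, c4⟩ := split h hU hn a
  obtain ⟨φ, f1, f2⟩ := CubicMap.homology hM (fun d => if C d then 1 else 0) (by
      intro d
      exact if_congr (c1 d) rfl rfl) (by
      intro d
      have h2 : (1 : ZMod 2) + 1 = 0 := by decide
      rcases c4 d with ⟨a, b, c⟩ | ⟨a, b, c⟩ | ⟨a, b, c⟩ | ⟨a, b, c⟩ <;> simp [a, b, c, h2])
  have f3 : ∀ x, φ (M.α x) = φ x + (if C x then 1 else 0) := by
    intro x
    have h3 : ∀ a b c : ZMod 2, c = a + b → b = a + c := by decide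
    exact h3 _ _ _ (f2 x)
  have ck : ∀ x, C (k x) ↔ C (g x) := by
    intro x
    rcases hk.gα x with e | e
    · rw [e]
    · rw [e, c1]
  have e1 : ∀ x, f (M.α x) + φ (M.α x) + φ (k (M.α x)) = f x + φ x + φ (k x) := by
    intro x
    rw [hk.α, hf.edge, f3, f3, if_congr (ck x) rfl rfl]
    by_cases hx : x ∈ lif hT U'
    · have h1 : ¬ C x := fun h => c2 x h hx
      have h2 : ¬ C (g x) := fun h' => c2 _ h' ((lif_inv h U' x).2 hx)
      rw [if_pos hx, if_neg h1, if_neg h2]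
      ring
    · have h1 := c3 x hx
      rw [if_neg hx]
      have h5 : ∀ a b c : ZMod 2, (a + 1) + (b + 1) + (c + 0) = a + b + c := by decide
      have h6 : ∀ a b c : ZMod 2, (a + 1) + (b + 0) + (c + 1) = a + b + c := by decide
      by_cases h2 : C x
      · rw [if_pos h2, if_neg (fun h => h1.1 h h2)]
        exact h5 _ _ _
      · rw [if_neg h2, if_pos (h1.2 h2)]
        exact h6 _ _ _
  have e2 : ∀ x, f (M.σ x) + φ (M.σ x) + φ (k (M.σ x)) = f x + φ x + φ (k x) := by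
    intro x
    have h1 := hf.face (M.α x)
    have h2 := f1 (M.α x)
    have h3 := hk.face φ f1 (M.α x)
    rw [M.α2] at h1 h2 h3
    rw [h1, h2, h3, e1]
  have e3 := cst hM (fun x => f x + φ x + φ (k x)) e1 e2 a b
  have e4 := P1 φ f1
  have h7 : (2 : ZMod 2) = 0 := by decide
  have e5 : f a + φ a + φ (k a) = f b + φ b + φ (k b) := e3
  linear_combination e5 + e4 + (f b - φ a - φ (k a)) * h7

end Pool.H19.SYM
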