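import Pool.Agent.Helper19.SYM.Side

/-! Counting: the sides of a Hamilton circuit are trees. -/

namespace Pool.H19.SYM

open Pool.H64.NC Equiv

variable {D : Type*} [DecidableEq D] [Fintype D] {M : CubicMap D}

/-- a third of the darts is unused -/
theorem three_card {U : Finset D} (hU : M.Clo U) : 3 * U.card = Fintype.card D := by
  have h1 : ∀ x : D, (if x ∈ U then 1 else 0) + (if M.permσ x ∈ U then 1 else 0) +
      (if M.permσ (M.permσ x) ∈ U then 1 else 0) = 1 := by
    intro x
    have e : ∀ y, M.permσ y = M.σ y := fun _ => rfl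
    simp only [e]
    rcases hU.2 x with ⟨a, b, c⟩ | ⟨a, b, c⟩ | ⟨a, b, c⟩ <;> simp [a, b, c]
  have h2 : ∑ x : D, (if x ∈ U then 1 else 0) = U.card := by
    rw [Finset.sum_ite_mem, Finset.univ_inter, Finset.sum_const, smul_eq_mul, mul_one]
  have h3 := Finset.sum_congr (rfl : (Finset.univ : Finset D) = Finset.univ)
    (fun x _ => h1 x)
  rw [Finset.sum_add_distrib, Finset.sum_add_distrib,
    Equiv.sum_comp M.permσ (fun x => if M.permσ x ∈ U then 1 else 0),
    Equiv.sum_comp M.permσ (fun x => if x ∈ U then 1 else 0), h2, Finset.sum_const,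
    Finset.card_univ, smul_eq_mul, mul_one] at h3
  omega

theorem zmod2 (a : ZMod 2) : a = 0 ∨ a = 1 := by
  revert a
  decide

/-- both sides occur -/
theorem exists_side (hM : M.Genus0) {U : Finset D} (hU : M.Clo U) {f : D → ZMod 2}
    (hf : Pot M U f) (j : ZMod 2) : ∃ x, f x = j := by
  obtain ⟨x0⟩ := nonempty hM
  obtain ⟨y, hy, -⟩ := used_rep hU x0
  have h1 := hf.edge y
  rw [if_neg hy] at h1
  have h2 : ∀ a b j : ZMod 2, b = a + 1 → a = j ∨ b = j := by decide
  rcases h2 _ _ j h1 with h | h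
  · exact ⟨_, h⟩
  · exact ⟨_, h⟩

/-- the unused darts on the side `j` -/
def Ud (U : Finset D) (f : D → ZMod 2) (j : ZMod 2) : Finset D := U.filter (fun x => f x = j)

theorem card_Sd {U : Finset D} {f : D → ZMod 2} (hf : Pot M U f) :
    Nat.card (Sd M f 0) + Nat.card (Sd M f 1) = ncyc M.face := by
  classical
  have h1 : Nat.card (Fa M) = Nat.card {P // P ∈ Sd M f 0} + Nat.card {P // ¬ P ∈ Sd M f 0} := by
    rw [← Nat.card_sum]
    exact Nat.card_congr (Equiv.sumCompl _).symm
  have h2 : Nat.card {P // ¬ P ∈ Sd M f 0} = Nat.card (Sd M f 1) := by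
    refine Nat.card_congr (Equiv.subtypeEquivRight fun P => ?_)
    obtain ⟨x, rfl⟩ := Quotient.mk_surjective P
    change ¬ (fa M x ∈ Sd M f 0) ↔ fa M x ∈ Sd M f 1
    rw [mem_Sd hf, mem_Sd hf]
    have h3 : ∀ a : ZMod 2, ¬ a = 0 ↔ a = 1 := by decide
    exact h3 _
  have h3 : ncyc M.face = Nat.card (Fa M) := rfl
  rw [h3, h1, h2]

open Classical in
/-- twice the number of edges is at most the number of unused darts -/
theorem edges_le {U : Finset D} (f : D → ZMod 2) (hf : Pot M U f) (j : ZMod 2) :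
    ∃ x : (Gr M U f j).Dart → Ud U f j, Function.Injective x ∧
      ∀ d, fa M (x d).1 = d.fst.1 ∧ fa M (M.α (x d).1) = d.snd.1 := by
  have h1 : ∀ d : (Gr M U f j).Dart, ∃ x : Ud U f j,
      fa M x.1 = d.fst.1 ∧ fa M (M.α x.1) = d.snd.1 := by
    intro d
    obtain ⟨-, x, hx, h1, h2⟩ := d.adj
    refine ⟨⟨x, ?_⟩, h1, h2⟩
    unfold Ud
    rw [Finset.mem_filter]
    refine ⟨hx.1, ?_⟩
    rw [← mem_Sd hf, h1]
    exact d.fst.2
  choose x hx using h1
  refine ⟨x, ?_, hx⟩
  intro d d' h
  have h1 := hx d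
  have h2 := hx d'
  rw [h] at h1
  apply SimpleGraph.Dart.ext
  refine Prod.ext (Subtype.ext ?_) (Subtype.ext ?_)
  · exact h1.1.symm.trans h2.1
  · exact h1.2.symm.trans h2.2

/-- the count for both sides, and its consequences -/
theorem side_tree (hM : M.Genus0) {U : Finset D} (hU : M.Ham U) {f : D → ZMod 2}
    (hf : Pot M U f) (j : ZMod 2) :
    (Gr M U f j).IsTree ∧
      (∀ x ∈ U, ∀ y ∈ U, f x = j → fa M x = fa M y → fa M (M.α x) = fa M (M.α y) → x = y) ∧
      (∀ x ∈ U, f x = j → fa M x ≠ fa M (M.α x)) := by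
  classical
  have hfin : ∀ i, Finite (Sd M f i) := fun i => inferInstance
  have : ∀ i, Fintype (Sd M f i) := fun i => Fintype.ofFinite _
  have hE : ∀ i, 2 * Nat.card (Gr M U f i).edgeSet = Fintype.card (Gr M U f i).Dart := by
    intro i
    rw [SimpleGraph.dart_card_eq_twice_card_edges, Nat.card_eq_fintype_card,
      SimpleGraph.edgeFinset_card]
  have hD : ∀ i, Fintype.card (Gr M U f i).Dart ≤ (Ud U f i).card := by
    intro i
    obtain ⟨x, hx, -⟩ := edges_le f hf i
    have := Fintype.card_le_of_injective x hx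
    rwa [Fintype.card_coe] at this
  have hC : ∀ i, Nat.card (Sd M f i) ≤ Nat.card (Gr M U f i).edgeSet + 1 := fun i =>
    (gr_conn hU hf (exists_side hM hU.1 hf i)).card_vert_le_card_edgeSet_add_one
  have hsum : (Ud U f 0).card + (Ud U f 1).card = U.card := by
    unfold Ud
    rw [← Finset.card_filter_add_card_filter_not (s := U) (fun x => f x = 0)]
    congr 2
    refine Finset.filter_congr fun x _ => ?_
    have h3 : ∀ a : ZMod 2, a = 1 ↔ ¬ a = 0 := by decide
    exact h3 _
  have h1 := card_Sd hf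
  have h2 := hM.2
  have h3 := ncyc_mul_eq M.permσ 3 (CubicMap.eu_three M)
  have h4 := three_card hU.1
  have a0 := hE 0
  have a1 := hE 1
  have b0 := hD 0
  have b1 := hD 1
  have c0 := hC 0
  have c1 := hC 1
  have key : Nat.card (Gr M U f j).edgeSet + 1 = Nat.card (Sd M f j) ∧
      Fintype.card (Gr M U f j).Dart = (Ud U f j).card := by
    rcases zmod2 j with rfl | rfl
    · constructor <;> omega
    · constructor <;> omega
  obtain ⟨x, hx, hx'⟩ := edges_le f hf j
  have hbij : Function.Bijective x := by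
    rw [Fintype.bijective_iff_injective_and_card]
    exact ⟨hx, by rw [Fintype.card_coe]; exact key.2⟩
  have hrep : ∀ y ∈ U, f y = j → ∃ d, (x d).1 = y := by
    intro y hy hfy
    have hy' : y ∈ Ud U f j := by
      unfold Ud
      rw [Finset.mem_filter]
      exact ⟨hy, hfy⟩
    obtain ⟨d, hd⟩ := hbij.2 ⟨y, hy'⟩
    exact ⟨d, congrArg Subtype.val hd⟩
  refine ⟨?_, ?_, ?_⟩
  · rw [SimpleGraph.isTree_iff_connected_and_card]
    exact ⟨gr_conn hU hf (exists_side hM hU.1 hf j), key.1⟩
  · intro y hy z hz hfy h5 h6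
    obtain ⟨d, hd⟩ := hrep y hy hfy
    obtain ⟨d', hd'⟩ := hrep z hz (by rw [← hf.fa h5, hfy])
    have e1 := hx' d
    have e2 := hx' d'
    rw [hd] at e1
    rw [hd'] at e2
    have e3 : d = d' := by
      apply SimpleGraph.Dart.ext
      refine Prod.ext (Subtype.ext ?_) (Subtype.ext ?_)
      · rw [← e1.1, ← e2.1, h5]
      · rw [← e1.2, ← e2.2, h6]
    rw [← hd, ← hd', e3]
  · intro y hy hfy h5
    obtain ⟨d, hd⟩ := hrep y hy hfy
    have e1 := hx' d
    rw [hd] at e1
    refine d.adj.ne (Subtype.ext ?_)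
    rw [← e1.1, ← e1.2, h5]

end Pool.H19.SYM
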